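import Mathlib.Computability.Halting
import Mathlib.Logic.Godel.GodelBetaFunction

/-! Classes of predicates on sequences of naturals that are closed under first-order definability
from addition and multiplication contain the graph of every partial recursive function. -/

namespace Pool.Agent.Helper180.ArithDef

/-- `cns a w` is the sequence `a, w 0, w 1, ...`. -/
def cns {A : Type*} (a : A) (w : ℕ → A) : ℕ → A := fun n => Nat.casesOn n a w

@[simp] theorem cns_zero {A : Type*} (a : A) (w : ℕ → A) : cns a w 0 = a := rfl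
@[simp] theorem cns_succ {A : Type*} (a : A) (w : ℕ → A) (n : ℕ) : cns a w (n + 1) = w n := rfl
theorem cns_comp {A B : Type*} (g : A → B) (a : A) (w : ℕ → A) :
    g ∘ cns a w = cns (g a) (g ∘ w) := by
  funext n; cases n <;> rfl
theorem cns_eta {A : Type*} (w : ℕ → A) : cns (w 0) (fun n => w (n + 1)) = w := by
  funext n; cases n <;> rfl

/-- A class of predicates on sequences of naturals closed under first-order definability. -/
structure DC (D : ((ℕ → ℕ) → Prop) → Prop) : Prop where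
  add : D (fun w => w 0 + w 1 = w 2)
  mul : D (fun w => w 0 * w 1 = w 2)
  bot : D (fun _ => False)
  imp : ∀ {R S : (ℕ → ℕ) → Prop}, D R → D S → D (fun w => R w → S w)
  all : ∀ {R : (ℕ → ℕ) → Prop}, D R → D (fun w => ∀ a, R (cns a w))
  ren : ∀ {R : (ℕ → ℕ) → Prop} (ρ : ℕ → ℕ), D R → D (fun w => R (fun i => w (ρ i)))

namespace DC

variable {D : ((ℕ → ℕ) → Prop) → Prop} (h : DC D)
include h

set_option linter.unusedSectionVars false in
theorem iff {R S : (ℕ → ℕ) → Prop} (hRS : ∀ w, R w ↔ S w) (hR : D R) : D S := by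
  have : R = S := funext fun w => propext (hRS w)
  rwa [← this]

theorem not {R : (ℕ → ℕ) → Prop} (hR : D R) : D (fun w => ¬ R w) :=
  h.imp hR h.bot

theorem and {R S : (ℕ → ℕ) → Prop} (hR : D R) (hS : D S) : D (fun w => R w ∧ S w) :=
  h.iff (fun w => by tauto) (h.not (h.imp hR (h.not hS)))

theorem or {R S : (ℕ → ℕ) → Prop} (hR : D R) (hS : D S) : D (fun w => R w ∨ S w) :=
  h.iff (fun w => by tauto) (h.imp (h.not hR) hS)

theorem ex {R : (ℕ → ℕ) → Prop} (hR : D R) : D (fun w => ∃ a, R (cns a w)) :=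
  h.iff (fun w => by simp) (h.not (h.all (h.not hR)))

/-- existential quantification in curried form -/
theorem ex' {S : ℕ → (ℕ → ℕ) → Prop} (hR : D (fun w => S (w 0) (fun n => w (n + 1)))) :
    D (fun w => ∃ a, S a w) :=
  h.iff (fun w => by simp) (h.ex hR)

theorem all' {S : ℕ → (ℕ → ℕ) → Prop} (hR : D (fun w => S (w 0) (fun n => w (n + 1)))) :
    D (fun w => ∀ a, S a w) :=
  h.iff (fun w => by simp) (h.all hR)

theorem eqv (i j : ℕ) : D (fun w => w i = w j) := by
  have h1 : D (fun w => w 0 + w 0 = w 0) := h.ren (fun _ => 0) h.add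
  have h2 : D (fun w => w (i + 1) + w 0 = w (j + 1)) :=
    h.ren (fun n => match n with | 0 => i + 1 | 1 => 0 | _ => j + 1) h.add
  refine h.iff (fun w => ?_) (h.ex (h.and h1 h2))
  constructor
  · rintro ⟨a, h1, h2⟩
    simp at h1 h2
    omega
  · intro hw
    exact ⟨0, by simp, by simp [hw]⟩

end DC

/-- Functions with definable graph. -/
def DT (D : ((ℕ → ℕ) → Prop) → Prop) (F : (ℕ → ℕ) → ℕ) : Prop :=
  D (fun w => w 0 = F (fun n => w (n + 1)))

namespace DC

variable {D : ((ℕ → ℕ) → Prop) → Prop} (h : DC D)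
include h

theorem tren {F : (ℕ → ℕ) → ℕ} (ρ : ℕ → ℕ) (hF : DT D F) : DT D (fun w => F (fun i => w (ρ i))) := by
  have := h.ren (fun n => match n with | 0 => 0 | n + 1 => ρ n + 1) hF
  exact this

theorem tvar (i : ℕ) : DT D (fun w => w i) := h.eqv 0 (i + 1)

/-- substitute a term for variable 0 -/
theorem sub {R : ℕ → (ℕ → ℕ) → Prop} {F : (ℕ → ℕ) → ℕ} (hF : DT D F)
    (hR : D (fun w => R (w 0) (fun n => w (n + 1)))) : D (fun w => R (F w) w) :=
  h.iff (fun w => by simp) (h.ex' (S := fun a w => a = F w ∧ R a w) (h.and hF hR))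

theorem app1 {R : ℕ → Prop} {F : (ℕ → ℕ) → ℕ} (hR : D (fun w => R (w 0))) (hF : DT D F) :
    D (fun w => R (F w)) :=
  h.sub (R := fun a _ => R a) hF hR

theorem app2 {R : ℕ → ℕ → Prop} {F G : (ℕ → ℕ) → ℕ} (hR : D (fun w => R (w 0) (w 1)))
    (hF : DT D F) (hG : DT D G) : D (fun w => R (F w) (G w)) := by
  refine h.sub (R := fun a w => R a (G w)) hF ?_
  refine h.sub (R := fun b w => R (w 0) b) (F := fun w => G (fun n => w (n + 1)))
    (h.tren (fun n => n + 1) hG) ?_
  exact h.ren (fun n => match n with | 0 => 1 | _ => 0) hR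

theorem app3 {R : ℕ → ℕ → ℕ → Prop} {F G H : (ℕ → ℕ) → ℕ} (hR : D (fun w => R (w 0) (w 1) (w 2)))
    (hF : DT D F) (hG : DT D G) (hH : DT D H) : D (fun w => R (F w) (G w) (H w)) := by
  refine h.sub (R := fun a w => R a (G w) (H w)) hF ?_
  refine h.sub (R := fun b w => R (w 0) b (H (fun n => w (n + 1))))
    (F := fun w => G (fun n => w (n + 1))) (h.tren (fun n => n + 1) hG) ?_
  refine h.sub (R := fun c w => R (w 1) (w 0) c)
    (F := fun w => H (fun n => w (n + 2))) (h.tren (fun n => n + 2) hH) ?_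
  exact h.ren (fun n => match n with | 0 => 2 | 1 => 1 | _ => 0) hR

theorem eq {F G : (ℕ → ℕ) → ℕ} (hF : DT D F) (hG : DT D G) : D (fun w => F w = G w) :=
  h.app2 (R := fun a b => a = b) (h.eqv 0 1) hF hG

theorem tadd {F G : (ℕ → ℕ) → ℕ} (hF : DT D F) (hG : DT D G) : DT D (fun w => F w + G w) :=
  h.app3 (R := fun a b c => c = a + b) (h.iff (fun w => by rw [eq_comm]) h.add)
    (h.tren (fun n => n + 1) hF) (h.tren (fun n => n + 1) hG) (h.tvar 0)

theorem tmul {F G : (ℕ → ℕ) → ℕ} (hF : DT D F) (hG : DT D G) : DT D (fun w => F w * G w) :=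
  h.app3 (R := fun a b c => c = a * b) (h.iff (fun w => by rw [eq_comm]) h.mul)
    (h.tren (fun n => n + 1) hF) (h.tren (fun n => n + 1) hG) (h.tvar 0)

theorem tzero : DT D (fun _ => 0) :=
  h.iff (fun w => by simp) (h.eq (h.tadd (h.tvar 0) (h.tvar 0)) (h.tvar 0))

theorem tone : DT D (fun _ => 1) := by
  refine h.iff (fun w => ?_) (h.and (h.eq (h.tmul (h.tvar 0) (h.tvar 0)) (h.tvar 0))
    (h.not (h.eq (h.tvar 0) h.tzero)))
  constructor
  · rintro ⟨h1, h2⟩
    exact Nat.eq_of_mul_eq_mul_left (Nat.pos_of_ne_zero h2) (by simpa using h1)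
  · intro h1
    simp [h1]

theorem le {F G : (ℕ → ℕ) → ℕ} (hF : DT D F) (hG : DT D G) : D (fun w => F w ≤ G w) := by
  refine h.app2 (R := fun a b => a ≤ b) ?_ hF hG
  refine h.iff (fun w => ?_) (h.ex' (S := fun a w => w 0 + a = w 1)
    (h.eq (h.tadd (h.tvar 1) (h.tvar 0)) (h.tvar 2)))
  constructor
  · rintro ⟨a, ha⟩; omega
  · intro hw; exact ⟨w 1 - w 0, by omega⟩

theorem lt {F G : (ℕ → ℕ) → ℕ} (hF : DT D F) (hG : DT D G) : D (fun w => F w < G w) :=
  h.iff (fun w => by omega) (h.le (h.tadd hF h.tone) hG)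

theorem tpair {F G : (ℕ → ℕ) → ℕ} (hF : DT D F) (hG : DT D G) :
    DT D (fun w => Nat.pair (F w) (G w)) := by
  refine h.app3 (R := fun a b c => c = Nat.pair a b) ?_
    (h.tren (fun n => n + 1) hF) (h.tren (fun n => n + 1) hG) (h.tvar 0)
  refine h.iff (fun w => ?_)
    (h.or (h.and (h.lt (h.tvar 0) (h.tvar 1))
      (h.eq (h.tvar 2) (h.tadd (h.tmul (h.tvar 1) (h.tvar 1)) (h.tvar 0))))
      (h.and (h.le (h.tvar 1) (h.tvar 0))
      (h.eq (h.tvar 2) (h.tadd (h.tadd (h.tmul (h.tvar 0) (h.tvar 0)) (h.tvar 0)) (h.tvar 1)))))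
  rw [Nat.pair]
  split_ifs with hlt
  · constructor
    · rintro (⟨_, h2⟩ | ⟨h1, _⟩)
      · exact h2
      · omega
    · intro h2; exact Or.inl ⟨hlt, h2⟩
  · constructor
    · rintro (⟨h1, _⟩ | ⟨_, h2⟩)
      · omega
      · exact h2
    · intro h2; exact Or.inr ⟨by omega, h2⟩

theorem tfst {F : (ℕ → ℕ) → ℕ} (hF : DT D F) : DT D (fun w => (Nat.unpair (F w)).1) := by
  refine h.app2 (R := fun a c => c = (Nat.unpair a).1) ?_ (h.tren (fun n => n + 1) hF) (h.tvar 0)
  refine h.iff (fun w => ?_) (h.ex' (S := fun b w => w 0 = Nat.pair (w 1) b)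
    (h.eq (h.tvar 1) (h.tpair (h.tvar 2) (h.tvar 0))))
  constructor
  · rintro ⟨b, hb⟩; simp [hb]
  · intro hw; exact ⟨(Nat.unpair (w 0)).2, by simp [hw]⟩

theorem tsnd {F : (ℕ → ℕ) → ℕ} (hF : DT D F) : DT D (fun w => (Nat.unpair (F w)).2) := by
  refine h.app2 (R := fun a c => c = (Nat.unpair a).2) ?_ (h.tren (fun n => n + 1) hF) (h.tvar 0)
  refine h.iff (fun w => ?_) (h.ex' (S := fun b w => w 0 = Nat.pair b (w 1))
    (h.eq (h.tvar 1) (h.tpair (h.tvar 0) (h.tvar 2))))
  constructor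
  · rintro ⟨b, hb⟩; simp [hb]
  · intro hw; exact ⟨(Nat.unpair (w 0)).1, by simp [hw]⟩

/-- remainder by a positive number -/
theorem tmod1 {F G : (ℕ → ℕ) → ℕ} (hF : DT D F) (hG : DT D G) :
    DT D (fun w => F w % (G w + 1)) := by
  refine h.app3 (R := fun a b c => c = a % (b + 1)) ?_
    (h.tren (fun n => n + 1) hF) (h.tren (fun n => n + 1) hG) (h.tvar 0)
  refine h.iff (fun w => ?_) (h.and (h.le (h.tvar 2) (h.tvar 1))
    (h.ex' (S := fun q w => w 0 = (w 1 + 1) * q + w 2)
      (h.eq (h.tvar 1) (h.tadd (h.tmul (h.tadd (h.tvar 2) h.tone) (h.tvar 0)) (h.tvar 3)))))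
  constructor
  · rintro ⟨h1, q, hq⟩
    rw [hq, Nat.mul_add_mod, Nat.mod_eq_of_lt (by omega)]
  · intro hw
    refine ⟨?_, w 0 / (w 1 + 1), ?_⟩
    · have := Nat.mod_lt (w 0) (Nat.succ_pos (w 1))
      simp only [Nat.succ_eq_add_one] at this
      omega
    · rw [hw, Nat.div_add_mod]

theorem tbeta {F G : (ℕ → ℕ) → ℕ} (hF : DT D F) (hG : DT D G) :
    DT D (fun w => Nat.beta (F w) (G w)) :=
  h.tmod1 (h.tfst hF) (h.tmul (h.tadd hG h.tone) (h.tsnd hF))

/-- The graph of a partial recursive function is definable. -/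
theorem partrec {f : ℕ →. ℕ} (hf : Nat.Partrec f) : D (fun w => w 1 ∈ f (w 0)) := by
  induction hf with
  | zero => exact h.iff (fun w => by simp [pure, PFun.pure]) (h.eq (h.tvar 1) h.tzero)
  | succ =>
    exact h.iff (fun w => by simp) (h.eq (h.tvar 1) (h.tadd (h.tvar 0) h.tone))
  | left => exact h.iff (fun w => by simp) (h.eq (h.tvar 1) (h.tfst (h.tvar 0)))
  | right => exact h.iff (fun w => by simp) (h.eq (h.tvar 1) (h.tsnd (h.tvar 0)))
  | @pair f g _ _ hf hg =>
    refine h.iff (fun w => ?_)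
      (h.ex' (S := fun a w => ∃ b, a ∈ f (w 0) ∧ b ∈ g (w 0) ∧ w 1 = Nat.pair a b)
        (h.ex' (S := fun b w => w 0 ∈ f (w 1) ∧ b ∈ g (w 1) ∧ w 2 = Nat.pair (w 0) b)
          (h.and (h.app2 (R := fun x y => y ∈ f x) hf (h.tvar 2) (h.tvar 1))
            (h.and (h.app2 (R := fun x y => y ∈ g x) hg (h.tvar 2) (h.tvar 0))
              (h.eq (h.tvar 3) (h.tpair (h.tvar 1) (h.tvar 0)))))))
    simp only [Seq.seq, Part.map_eq_map, Part.mem_bind_iff, Part.mem_map_iff]
    constructor
    · rintro ⟨a, b, ha, hb, hab⟩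
      exact ⟨_, ⟨a, ha, rfl⟩, b, hb, hab.symm⟩
    · rintro ⟨_, ⟨a, ha, rfl⟩, b, hb, hab⟩
      exact ⟨a, b, ha, hb, hab.symm⟩
  | @comp f g _ _ hf hg =>
    refine h.iff (fun w => ?_)
      (h.ex' (S := fun a w => a ∈ g (w 0) ∧ w 1 ∈ f a)
          (h.and (h.app2 (R := fun x y => y ∈ g x) hg (h.tvar 1) (h.tvar 0))
            (h.app2 (R := fun x y => y ∈ f x) hf (h.tvar 0) (h.tvar 2))))
    exact (Part.mem_bind_iff (f := g (w 0)) (g := f)).symm
  | @prec f g _ _ hf hg =>
    have key : ∀ (a n y : ℕ),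
        (y ∈ (Nat.rec (f a) (fun y IH => IH.bind fun i => g (Nat.pair a (Nat.pair y i))) n : Part ℕ))
        ↔ ∃ c, Nat.beta c 0 ∈ f a ∧ Nat.beta c n = y ∧
          ∀ k, k < n → Nat.beta c (k + 1) ∈ g (Nat.pair a (Nat.pair k (Nat.beta c k))) := by
      intro a n y
      have aux : ∀ (n y : ℕ), (y ∈ (Nat.rec (f a)
          (fun y IH => IH.bind fun i => g (Nat.pair a (Nat.pair y i))) n : Part ℕ)) ↔
          ∃ s : ℕ → ℕ, s 0 ∈ f a ∧ s n = y ∧
            ∀ k, k < n → s (k + 1) ∈ g (Nat.pair a (Nat.pair k (s k))) := by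
        intro n
        induction n with
        | zero =>
          intro y
          constructor
          · intro hy
            exact ⟨fun _ => y, hy, rfl, fun k hk => by omega⟩
          · rintro ⟨s, h0, hs, -⟩
            rw [← hs]; exact h0
        | succ n ih =>
          intro y
          simp only [Part.mem_bind_iff]
          constructor
          · rintro ⟨z, hz, hy⟩
            obtain ⟨s, h0, hs, hk⟩ := (ih z).1 hz
            refine ⟨fun k => if k ≤ n then s k else y, by simpa using h0, by simp, ?_⟩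
            intro k hkn
            rcases Nat.lt_or_ge k n with hlt | hge
            · have h1 : k + 1 ≤ n := hlt
              have h2 : k ≤ n := by omega
              simp only [h1, h2, if_true]
              exact hk k hlt
            · have h1 : k = n := by omega
              subst h1
              simp only [le_refl, if_true]
              rw [if_neg (by omega), hs]
              exact hy
          · rintro ⟨s, h0, hs, hk⟩
            refine ⟨s n, (ih (s n)).2 ⟨s, h0, rfl, fun k hkn => hk k (by omega)⟩, ?_⟩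
            rw [← hs]
            exact hk n (by omega)
      rw [aux]
      constructor
      · rintro ⟨s, h0, hs, hk⟩
        let l := (List.range (n + 1)).map s
        have hl : l.length = n + 1 := by simp [l]
        have hb : ∀ k, k ≤ n → Nat.beta (Nat.unbeta l) k = s k := by
          intro k hkn
          have := Nat.beta_unbeta_coe l ⟨k, by omega⟩
          simp only at this
          rw [this]
          simp [l]
        refine ⟨Nat.unbeta l, ?_, ?_, ?_⟩
        · rw [hb 0 (by omega)]; exact h0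
        · rw [hb n le_rfl]; exact hs
        · intro k hkn
          rw [hb (k + 1) (by omega), hb k (by omega)]
          exact hk k hkn
      · rintro ⟨c, h0, hs, hk⟩
        exact ⟨fun k => Nat.beta c k, h0, hs, hk⟩
    refine h.iff (fun w => ?_)
      (h.ex' (S := fun c w => Nat.beta c 0 ∈ f (Nat.unpair (w 0)).1 ∧
          Nat.beta c (Nat.unpair (w 0)).2 = w 1 ∧
          ∀ k, k < (Nat.unpair (w 0)).2 → Nat.beta c (k + 1) ∈
            g (Nat.pair (Nat.unpair (w 0)).1 (Nat.pair k (Nat.beta c k))))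
        (h.and (h.app2 (R := fun x y => y ∈ f x) hf (h.tfst (h.tvar 1))
            (h.tbeta (h.tvar 0) h.tzero))
          (h.and (h.eq (h.tbeta (h.tvar 0) (h.tsnd (h.tvar 1))) (h.tvar 2))
            (h.all' (S := fun k w => k < (Nat.unpair (w 1)).2 → Nat.beta (w 0) (k + 1) ∈
              g (Nat.pair (Nat.unpair (w 1)).1 (Nat.pair k (Nat.beta (w 0) k))))
              (h.imp (h.lt (h.tvar 0) (h.tsnd (h.tvar 2)))
                (h.app2 (R := fun x y => y ∈ g x) hg
                  (h.tpair (h.tfst (h.tvar 2)) (h.tpair (h.tvar 0)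
                    (h.tbeta (h.tvar 1) (h.tvar 0))))
                  (h.tbeta (h.tvar 1) (h.tadd (h.tvar 0) h.tone))))))))
    rw [← key]
    simp [Nat.unpaired]
  | @rfind f _ hf =>
    refine h.iff (fun w => ?_)
      (h.and (h.app2 (R := fun x y => y ∈ f x) hf (h.tpair (h.tvar 0) (h.tvar 1)) h.tzero)
        (h.all' (S := fun m w => m < w 1 → ∃ z, z ∈ f (Nat.pair (w 0) m) ∧ ¬ z = 0)
          (h.imp (h.lt (h.tvar 0) (h.tvar 2))
            (h.ex' (S := fun z w => z ∈ f (Nat.pair (w 1) (w 0)) ∧ ¬ z = 0)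
              (h.and (h.app2 (R := fun x y => y ∈ f x) hf (h.tpair (h.tvar 2) (h.tvar 1))
                (h.tvar 0)) (h.not (h.eq (h.tvar 0) h.tzero)))))))
    refine Iff.trans ?_ Nat.mem_rfind.symm
    constructor
    · rintro ⟨h1, h2⟩
      refine ⟨(Part.mem_map_iff _).2 ⟨0, h1, by simp⟩, fun {m} hm => ?_⟩
      obtain ⟨z, hz, hz0⟩ := h2 m hm
      exact (Part.mem_map_iff _).2 ⟨z, hz, by simpa using hz0⟩
    · rintro ⟨h1, h2⟩
      obtain ⟨a, ha, ha0⟩ := (Part.mem_map_iff _).1 h1
      refine ⟨?_, fun m hm => ?_⟩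
      · simp at ha0
        rwa [ha0] at ha
      · obtain ⟨z, hz, hz0⟩ := (Part.mem_map_iff _).1 (h2 hm)
        exact ⟨z, hz, by simpa using hz0⟩

end DC

/-- The (indices of) programs halting on input `0`. -/
def Halt (n : ℕ) : Prop := (Nat.Partrec.Code.eval (Denumerable.ofNat Nat.Partrec.Code n) 0).Dom

theorem halt_not_computable : ¬ ComputablePred Halt := by
  intro hc
  apply ComputablePred.halting_problem 0
  have := ComputablePred.computable_iff.1 hc
  obtain ⟨f, hf, hfe⟩ := this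
  refine ComputablePred.computable_iff.2 ⟨fun c => f (Encodable.encode c),
    hf.comp Computable.encode, ?_⟩
  funext c
  have := congrFun hfe (Encodable.encode c)
  simp only [Halt, Denumerable.ofNat_encode] at this
  exact this

theorem DC.halt {D : ((ℕ → ℕ) → Prop) → Prop} (h : DC D) : D (fun w => Halt (w 0)) := by
  have hp : Nat.Partrec (fun n => Nat.Partrec.Code.eval (Denumerable.ofNat Nat.Partrec.Code n) 0) := by
    have : Partrec (fun n : ℕ => Nat.Partrec.Code.eval (Denumerable.ofNat Nat.Partrec.Code n) 0) :=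
      Nat.Partrec.Code.eval_part.comp (Computable.ofNat _) (Computable.const 0)
    exact Partrec.nat_iff.1 this
  refine h.iff (fun w => ?_) (h.ex' (S := fun a w =>
    a ∈ Nat.Partrec.Code.eval (Denumerable.ofNat Nat.Partrec.Code (w 0)) 0)
    (h.app2 (R := fun x y => y ∈ Nat.Partrec.Code.eval (Denumerable.ofNat Nat.Partrec.Code x) 0)
      (h.partrec hp) (h.tvar 1) (h.tvar 0)))
  exact Part.dom_iff_mem.symm

end Pool.Agent.Helper180.ArithDef
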