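import Mathlib

namespace Pool.Agent.Helper180.FreeMetric

open FreeGroup

/-- length of the longest common initial segment of two lists -/
def lcp {β : Type*} [DecidableEq β] : List β → List β → ℕ
  | a :: u, b :: v => if a = b then lcp u v + 1 else 0
  | _, _ => 0

theorem lcp_self {β : Type*} [DecidableEq β] : ∀ u : List β, lcp u u = u.length
  | [] => rfl
  | a :: u => by simp [lcp, lcp_self u]

theorem lcp_comm {β : Type*} [DecidableEq β] : ∀ u v : List β, lcp u v = lcp v u
  | [], [] => rfl
  | [], _ :: _ => rfl
  | _ :: _, [] => rfl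
  | a :: u, b :: v => by
      simp only [lcp]
      rw [lcp_comm u v]
      by_cases h : a = b
      · simp [h]
      · simp [h, Ne.symm h]

theorem lcp_min {β : Type*} [DecidableEq β] :
    ∀ a b c : List β, min (lcp a b) (lcp b c) ≤ lcp a c
  | [], _, _ => by simp [lcp]
  | _ :: _, [], _ => by simp [lcp]
  | _ :: _, _ :: _, [] => by simp [lcp]
  | x :: a, y :: b, z :: c => by
      have ih := lcp_min a b c
      simp only [lcp]
      by_cases h1 : x = y
      · by_cases h2 : y = z
        · subst h1; subst h2; simp; omega
        · simp [h1, h2]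
      · simp [h1]

theorem lcp_append {β : Type*} [DecidableEq β] :
    ∀ u v : List β, lcp u (u ++ v) = u.length
  | [], v => by simp [lcp]
  | a :: u, v => by simp [lcp, lcp_append u v]

variable {α : Type} [DecidableEq α]

theorem norm_mk_aux : ∀ (u v : List (α × Bool)), IsReduced u → IsReduced v →
    ((mk u)⁻¹ * mk v).norm + 2 * lcp u v = u.length + v.length
  | [], v, _, hv => by
      have : ((mk ([] : List (α × Bool)))⁻¹ * mk v) = mk v := by
        rw [← FreeGroup.one_eq_mk]; simp
      rw [this]
      simp [FreeGroup.norm, toWord_mk, hv.reduce_eq, lcp]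
  | a :: u, [], hu, _ => by
      have : ((mk (a :: u))⁻¹ * mk ([] : List (α × Bool))) = (mk (a :: u))⁻¹ := by
        rw [← FreeGroup.one_eq_mk]; simp
      rw [this, norm_inv_eq]
      simp [FreeGroup.norm, toWord_mk, hu.reduce_eq, lcp]
  | a :: u, b :: v, hu, hv => by
      by_cases h : a = b
      · subst h
        have hu' : IsReduced u := List.IsChain.tail hu
        have hv' : IsReduced v := List.IsChain.tail hv
        have ih := norm_mk_aux u v hu' hv'
        have e : ((mk (a :: u))⁻¹ * mk (a :: v)) = ((mk u)⁻¹ * mk v) := by
          have e1 : mk (a :: u) = mk [a] * mk u := by rw [mul_mk]; rfl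
          have e2 : mk (a :: v) = mk [a] * mk v := by rw [mul_mk]; rfl
          rw [e1, e2]; group
        rw [e]
        simp only [lcp, if_true, List.length_cons]
        omega
      · have hred : IsReduced (invRev (a :: u) ++ b :: v) := by
          have h1 : invRev (a :: u) = invRev u ++ [(a.1, !a.2)] := by
            simp [invRev]
          have h3 : IsReduced (invRev u ++ [(a.1, !a.2)]) := by
            rw [← h1]
            have := (isReduced_toWord (x := (mk (a :: u))⁻¹))
            rwa [toWord_inv, toWord_mk, hu.reduce_eq] at this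
          have h4 : IsReduced ([(a.1, !a.2)] ++ b :: v) := by
            simp only [List.cons_append, List.nil_append, isReduced_cons_cons]
            refine ⟨?_, hv⟩
            intro h5
            by_contra h6
            apply h
            ext
            · exact h5
            · rcases a with ⟨a1, a2⟩; rcases b with ⟨b1, b2⟩
              cases a2 <;> cases b2 <;> simp_all
          rw [h1]
          exact IsReduced.append_overlap h3 h4 (by simp)
        have e : ((mk (a :: u))⁻¹ * mk (b :: v)) = mk (invRev (a :: u) ++ b :: v) := by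
          rw [inv_mk, mul_mk]
        rw [e]
        simp only [FreeGroup.norm, toWord_mk, hred.reduce_eq, lcp, if_neg h]
        simp [invRev]
        omega

theorem norm_inv_mul (x y : FreeGroup α) :
    (x⁻¹ * y).norm + 2 * lcp x.toWord y.toWord = x.norm + y.norm := by
  have := norm_mk_aux x.toWord y.toWord isReduced_toWord isReduced_toWord
  simpa [mk_toWord, FreeGroup.norm] using this

/-- doubled Gromov product based at `1`, as an integer -/
def gp (x y : FreeGroup α) : ℤ := (x.norm : ℤ) + y.norm - (x⁻¹ * y).norm

theorem gp_eq (x y : FreeGroup α) : gp x y = 2 * (lcp x.toWord y.toWord : ℤ) := by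
  have := norm_inv_mul x y
  unfold gp; omega

theorem gp_hyp (x y z : FreeGroup α) : min (gp x y) (gp y z) ≤ gp x z := by
  have := lcp_min x.toWord y.toWord z.toWord
  rw [gp_eq, gp_eq, gp_eq]; omega

theorem gp_comm (x y : FreeGroup α) : gp x y = gp y x := by
  rw [gp_eq, gp_eq, lcp_comm]

theorem gp_nonneg (x y : FreeGroup α) : 0 ≤ gp x y := by
  rw [gp_eq]; positivity

theorem exists_initial (x : FreeGroup α) (k : ℕ) (hk : k ≤ x.norm) :
    ∃ z : FreeGroup α, z.norm = k ∧ (z⁻¹ * x).norm = x.norm - k := by
  have hred : IsReduced (x.toWord.take k) :=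
    List.IsChain.take (isReduced_toWord (x := x)) k
  refine ⟨mk (x.toWord.take k), ?_, ?_⟩
  · simp only [FreeGroup.norm, toWord_mk, hred.reduce_eq, List.length_take]
    exact min_eq_left hk
  · have h := norm_inv_mul (mk (x.toWord.take k)) x
    have h1 : (mk (x.toWord.take k)).norm = k := by
      simp only [FreeGroup.norm, toWord_mk, hred.reduce_eq, List.length_take]
      exact min_eq_left hk
    have h2 : lcp (mk (x.toWord.take k)).toWord x.toWord = k := by
      rw [toWord_mk, hred.reduce_eq]
      have := lcp_append (x.toWord.take k) (x.toWord.drop k)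
      rw [List.take_append_drop, List.length_take] at this
      rw [this]
      exact min_eq_left hk
    omega

theorem toWord_mul_of_norm {x y : FreeGroup α} (h : (x * y).norm = x.norm + y.norm) :
    (x * y).toWord = x.toWord ++ y.toWord := by
  apply (toWord_mul_sublist x y).eq_of_length
  rw [List.length_append]
  exact h

/-- a free group with a nontrivial central element has at most one generator -/
theorem subsingleton_of_central {ι : Type} (h : FreeGroup ι) (h1 : h ≠ 1)
    (hc : ∀ i : ι, of i * h = h * of i) : Subsingleton ι := by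
  classical
  constructor
  intro i j
  by_contra hij
  -- the first letter of `h`
  obtain ⟨a, u, hau⟩ : ∃ a u, h.toWord = a :: u := by
    cases e : h.toWord with
    | nil => exact absurd (toWord_eq_nil_iff.1 e) h1
    | cons a u => exact ⟨a, u, rfl⟩
  obtain ⟨c, hca⟩ : ∃ c : ι, c ≠ a.1 := by
    by_cases h2 : i = a.1
    · exact ⟨j, fun h3 => hij (h2.trans h3.symm)⟩
    · exact ⟨i, h2⟩
  have n1 : (of c * h).norm = (of c).norm + h.norm := by
    have := norm_inv_mul (of c)⁻¹ h
    rw [inv_inv, norm_inv_eq] at this
    have h3 : lcp ((of c)⁻¹).toWord h.toWord = 0 := by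
      rw [hau]
      have : ((of c)⁻¹).toWord = [(c, false)] := by
        rw [toWord_inv, toWord_of]; rfl
      rw [this]
      simp only [lcp]
      rw [if_neg]
      intro h4
      apply hca
      rw [← h4]
    omega
  have n2 : (h * of c).norm = h.norm + (of c).norm := by
    rw [← hc c, n1]; omega
  have e1 := toWord_mul_of_norm n1
  have e2 := toWord_mul_of_norm n2
  rw [hc c, e2, toWord_of, hau] at e1
  simp only [List.cons_append, List.nil_append, List.cons.injEq] at e1
  apply hca
  rw [e1.1]

theorem zpow_of_subsingleton {ι : Type} (hι : Subsingleton ι) (i : ι) (x : FreeGroup ι) :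
    ∃ n : ℤ, x = of i ^ n := by
  induction x using FreeGroup.induction_on with
  | C1 => exact ⟨0, by simp⟩
  | of j => exact ⟨1, by rw [Subsingleton.elim j i]; simp⟩
  | inv_of j _ => exact ⟨-1, by rw [Subsingleton.elim j i]; simp⟩
  | mul x y hx hy =>
    obtain ⟨n, rfl⟩ := hx
    obtain ⟨m, rfl⟩ := hy
    exact ⟨n + m, by rw [zpow_add]⟩

/-- centralizers of nontrivial elements of free groups are cyclic -/
theorem centralizer_cyclic {ι : Type} (h : FreeGroup ι) (h1 : h ≠ 1) :
    ∃ g : FreeGroup ι, g * h = h * g ∧ ∀ x, x * h = h * x → ∃ n : ℤ, x = g ^ n := by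
  classical
  let H : Subgroup (FreeGroup ι) := Subgroup.centralizer {h}
  have : IsFreeGroup H := inferInstance
  let e := IsFreeGroup.toFreeGroup H
  have hH : h ∈ H := by
    rw [Subgroup.mem_centralizer_iff]; intro y hy; rw [Set.mem_singleton_iff.1 hy]
  have hss : Subsingleton (IsFreeGroup.Generators H) := by
    apply subsingleton_of_central (e ⟨h, hH⟩)
    · intro h2
      rw [← _root_.map_one e] at h2
      have := e.injective h2
      exact h1 (congrArg Subtype.val this)
    · intro i
      obtain ⟨y, hy⟩ := e.surjective (of i)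
      rw [← hy, ← _root_.map_mul, ← _root_.map_mul]
      congr 1
      apply Subtype.ext
      have := y.2
      rw [Subgroup.mem_centralizer_iff] at this
      exact (this h rfl).symm
  have hne : Nonempty (IsFreeGroup.Generators H) := by
    by_contra hemp
    rw [not_nonempty_iff] at hemp
    have : e ⟨h, hH⟩ = e 1 := Subsingleton.elim _ _
    have := e.injective this
    exact h1 (congrArg Subtype.val this)
  obtain ⟨i⟩ := hne
  refine ⟨(e.symm (of i) : H), ?_, ?_⟩
  · have := (e.symm (of i)).2
    rw [Subgroup.mem_centralizer_iff] at this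
    exact (this h rfl).symm
  · intro x hx
    have hxH : x ∈ H := by
      rw [Subgroup.mem_centralizer_iff]; intro y hy; rw [Set.mem_singleton_iff.1 hy]; exact hx.symm
    obtain ⟨n, hn⟩ := zpow_of_subsingleton hss i (e ⟨x, hxH⟩)
    refine ⟨n, ?_⟩
    have : (⟨x, hxH⟩ : H) = (e.symm (of i)) ^ n := by
      apply e.injective
      rw [hn, map_zpow, MulEquiv.apply_symm_apply]
    have := congrArg Subtype.val this
    simpa using this

theorem comm_trans {ι : Type} {h x y : FreeGroup ι} (h1 : h ≠ 1) (hx : x * h = h * x)
    (hy : y * h = h * y) : x * y = y * x := by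
  obtain ⟨g, _, hg⟩ := centralizer_cyclic h h1
  obtain ⟨n, rfl⟩ := hg x hx
  obtain ⟨m, rfl⟩ := hg y hy
  rw [← zpow_add, ← zpow_add, add_comm]

end Pool.Agent.Helper180.FreeMetric
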