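import Mathlib
import Pool.Agent.Helper180.FreeMetric

namespace Pool.Agent.Helper180.BigPowers

open FreeGroup Pool.Agent.Helper180.FreeMetric Filter

variable {α : Type} [DecidableEq α]

/-- `z` lies on the segment from `1` to `x` -/
def OnSeg (z x : FreeGroup α) : Prop := (z.norm : ℤ) + (z⁻¹ * x).norm = x.norm

theorem onSeg_iff (z x : FreeGroup α) : OnSeg z x ↔ 2 * (z.norm : ℤ) ≤ gp z x := by
  unfold OnSeg gp
  have h : (x.norm : ℤ) ≤ (z.norm : ℤ) + (z⁻¹ * x).norm := by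
    have := norm_mul_le z (z⁻¹ * x)
    rw [mul_inv_cancel_left] at this
    exact_mod_cast this
  constructor
  · intro h1; omega
  · intro h1; omega

theorem seg_split {z x y : FreeGroup α} (h : OnSeg z (x * y)) :
    OnSeg z x ∨ OnSeg (x⁻¹ * z) y := by
  have h1 := gp_hyp (z⁻¹) (z⁻¹ * x) (z⁻¹ * (x * y))
  have h2 := gp_nonneg (z⁻¹) (z⁻¹ * x)
  have h3 := gp_nonneg (z⁻¹ * x) (z⁻¹ * (x * y))
  unfold OnSeg at *
  unfold gp at *
  have e1 : (z⁻¹)⁻¹ * (z⁻¹ * (x * y)) = x * y := by group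
  have e2 : (z⁻¹)⁻¹ * (z⁻¹ * x) = x := by group
  have e3 : (z⁻¹ * x)⁻¹ * (z⁻¹ * (x * y)) = y := by group
  have e4 : (x⁻¹ * z)⁻¹ * y = z⁻¹ * (x * y) := by group
  have e5 : (x⁻¹ * z).norm = (z⁻¹ * x).norm := by
    rw [← norm_inv_eq]; congr 1; group
  rw [e1, e2, e3] at h1
  rw [e2] at h2
  rw [e3] at h3
  rw [e4, e5]
  rw [norm_inv_eq] at h1 h2
  omega

theorem pow_near (u : FreeGroup α) : ∀ (n : ℕ) (z : FreeGroup α), OnSeg z (u ^ n) →
    ∃ k : ℕ, ((u ^ k)⁻¹ * z).norm ≤ u.norm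
  | 0, z, h => by
      refine ⟨0, ?_⟩
      unfold OnSeg at h
      simp only [pow_zero, mul_one, norm_inv_eq, FreeGroup.norm_one] at h
      simp only [pow_zero, inv_one, one_mul]
      omega
  | n + 1, z, h => by
      rw [pow_succ] at h
      rcases seg_split h with h1 | h1
      · exact pow_near u n z h1
      · refine ⟨n, ?_⟩
        unfold OnSeg at h1
        omega

theorem finite_ball [Finite α] (K : ℕ) : {x : FreeGroup α | x.norm ≤ K}.Finite := by
  have h1 : {l : List (α × Bool) | l.length ≤ K}.Finite := List.finite_length_le _ K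
  exact (h1.preimage (toWord_injective.injOn))

theorem gp_le_left (x y : FreeGroup α) : gp x y ≤ 2 * x.norm := by
  unfold gp
  have := norm_mul_le x (x⁻¹ * y)
  rw [mul_inv_cancel_left] at this
  omega

theorem commute_of_pow_eq {u v : FreeGroup α} {a b : ℤ} (h : u ^ a = v ^ b) (h1 : u ^ a ≠ 1) :
    u * v = v * u := by
  apply comm_trans h1
  · exact (Commute.self_zpow u a).eq
  · rw [h]; exact (Commute.self_zpow v b).eq

theorem gp_pow_bdd [Finite α] (u v : FreeGroup α) (huv : u * v ≠ v * u) :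
    ∃ B : ℤ, ∀ n m : ℕ, gp (u ^ n) (v ^ m) ≤ B := by
  classical
  set S : Set (FreeGroup α) := {x | x.norm ≤ max u.norm v.norm} with hS
  have hSf : S.Finite := finite_ball _
  set T : Finset (FreeGroup α × FreeGroup α) := hSf.toFinset ×ˢ hSf.toFinset with hT
  refine ⟨2 * T.card, ?_⟩
  intro n m
  by_contra hlt
  rw [not_le] at hlt
  -- the points
  have hz : ∀ k : ℕ, k ≤ T.card → ∃ z : FreeGroup α, z.norm = k ∧
      OnSeg z (u ^ n) ∧ OnSeg z (v ^ m) := by
    intro k hk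
    have h1 : k ≤ (u ^ n).norm := by
      have := gp_le_left (u ^ n) (v ^ m)
      omega
    obtain ⟨z, hz1, hz2⟩ := exists_initial (u ^ n) k h1
    have hs : OnSeg z (u ^ n) := by unfold OnSeg; omega
    refine ⟨z, hz1, hs, ?_⟩
    rw [onSeg_iff] at hs ⊢
    have h3 := gp_hyp z (u ^ n) (v ^ m)
    omega
  choose! z hz1 hz2 hz3 using hz
  have hr : ∀ k : ℕ, k ≤ T.card → ∃ a : ℕ, ((u ^ a)⁻¹ * z k).norm ≤ u.norm :=
    fun k hk => pow_near u n (z k) (hz2 k hk)
  have hr' : ∀ k : ℕ, k ≤ T.card → ∃ a : ℕ, ((v ^ a)⁻¹ * z k).norm ≤ v.norm :=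
    fun k hk => pow_near v m (z k) (hz3 k hk)
  choose! a ha using hr
  choose! b hb using hr'
  have hmaps : ∀ k ∈ Finset.range (T.card + 1),
      (fun k => ((u ^ a k)⁻¹ * z k, (v ^ b k)⁻¹ * z k)) k ∈ T := by
    intro k hk
    have hk' : k ≤ T.card := by
      rw [Finset.mem_range] at hk; omega
    rw [hT, Finset.mem_product, Set.Finite.mem_toFinset, Set.Finite.mem_toFinset]
    exact ⟨(ha k hk').trans (le_max_left _ _), (hb k hk').trans (le_max_right _ _)⟩
  obtain ⟨k, hk, l, hl, hkl, heq⟩ := Finset.exists_ne_map_eq_of_card_lt_of_maps_to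
    (by rw [Finset.card_range]; omega) hmaps
  rw [Finset.mem_range] at hk hl
  simp only [Prod.mk.injEq] at heq
  obtain ⟨h1, h2⟩ := heq
  have e1 : z k * (z l)⁻¹ = u ^ ((a k : ℤ) - a l) := by
    have : z k = u ^ a k * ((u ^ a l)⁻¹ * z l) := by rw [← h1]; group
    rw [this, zpow_sub, zpow_natCast, zpow_natCast]; group
  have e2 : z k * (z l)⁻¹ = v ^ ((b k : ℤ) - b l) := by
    have : z k = v ^ b k * ((v ^ b l)⁻¹ * z l) := by rw [← h2]; group
    rw [this, zpow_sub, zpow_natCast, zpow_natCast]; group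
  have hne : z k * (z l)⁻¹ ≠ 1 := by
    intro h3
    have : z k = z l := by rwa [mul_inv_eq_one] at h3
    apply hkl
    rw [← hz1 k (by omega), ← hz1 l (by omega), this]
  exact huv (commute_of_pow_eq (e1.symm.trans e2) (e1 ▸ hne))

theorem gp_zpow_bdd [Finite α] (u v : FreeGroup α) (huv : u * v ≠ v * u) :
    ∃ B : ℤ, ∀ n m : ℤ, gp (u ^ n) (v ^ m) ≤ B := by
  have i1 : ∀ {x y : FreeGroup α}, x * y ≠ y * x → x⁻¹ * y ≠ y * x⁻¹ := by
    intro x y h h1
    apply h
    have : Commute x⁻¹ y := h1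
    exact (Commute.inv_left_iff.1 this).eq
  obtain ⟨B1, h1⟩ := gp_pow_bdd u v huv
  obtain ⟨B2, h2⟩ := gp_pow_bdd u⁻¹ v (i1 huv)
  obtain ⟨B3, h3⟩ := gp_pow_bdd u v⁻¹ (i1 huv.symm).symm
  obtain ⟨B4, h4⟩ := gp_pow_bdd u⁻¹ v⁻¹ (i1 (i1 huv.symm).symm)
  refine ⟨max (max B1 B2) (max B3 B4), ?_⟩
  intro n m
  obtain ⟨n, rfl | rfl⟩ := n.eq_nat_or_neg <;> obtain ⟨m, rfl | rfl⟩ := m.eq_nat_or_neg
  · have := h1 n m; simp only [zpow_natCast]; omega
  · have := h3 n m; simp only [zpow_natCast, zpow_neg, ← inv_pow]; omega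
  · have := h2 n m; simp only [zpow_natCast, zpow_neg, ← inv_pow]; omega
  · have := h4 n m; simp only [zpow_natCast, zpow_neg, ← inv_pow]; omega

theorem zpow_inj_of_ne_one {w : FreeGroup α} (hw : w ≠ 1) : Function.Injective (fun n : ℤ => w ^ n) := by
  intro a b hab
  by_contra hne
  simp only at hab
  have h1 : w ^ (a - b) = 1 := by rw [zpow_sub, hab, mul_inv_cancel]
  have h2 : a - b ≠ 0 := sub_ne_zero.2 hne
  apply hw
  have h3 : w ^ (a - b).natAbs = 1 := by
    rcases Int.natAbs_eq (a - b) with h | h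
    · rw [h, zpow_natCast] at h1; exact h1
    · rw [h, zpow_neg, zpow_natCast, inv_eq_one] at h1; exact h1
  have h4 : (a - b).natAbs ≠ 0 := by omega
  have := IsMulTorsionFree.pow_left_injective (M := FreeGroup α) h4
  apply this
  simp [h3]

theorem norm_zpow_grow [Finite α] {w : FreeGroup α} (hw : w ≠ 1) (K : ℤ) :
    ∃ N : ℕ, ∀ n : ℤ, (N : ℤ) ≤ |n| → K < (w ^ n).norm := by
  have hf : {n : ℤ | (w ^ n).norm ≤ K.toNat}.Finite :=
    (finite_ball (α := α) K.toNat).preimage (zpow_inj_of_ne_one hw).injOn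
  obtain ⟨N, hN⟩ := (hf.image (fun n : ℤ => n.natAbs)).bddAbove
  refine ⟨N + 1, ?_⟩
  intro n hn
  by_contra hlt
  rw [not_lt] at hlt
  have h1 : n ∈ {n : ℤ | (w ^ n).norm ≤ K.toNat} := by
    simp only [Set.mem_ofPred_eq]; omega
  have h2 : n.natAbs ≤ N := hN (Set.mem_image_of_mem (fun n : ℤ => n.natAbs) h1)
  rw [Int.abs_eq_natAbs] at hn
  omega

/-- value of a syllable expression -/
def val (n : ℕ) : List (FreeGroup α × ℤ × FreeGroup α) → FreeGroup α
  | [] => 1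
  | (w, m, g) :: l => w ^ ((n : ℤ) * m) * g * val n l

/-- reduced expressions -/
def Red : List (FreeGroup α × ℤ × FreeGroup α) → Prop
  | [] => True
  | [(w, m, _)] => w ≠ 1 ∧ m ≠ 0
  | (w, m, g) :: (w', m', g') :: l =>
      w ≠ 1 ∧ m ≠ 0 ∧ w * (g * w' * g⁻¹) ≠ (g * w' * g⁻¹) * w ∧ Red ((w', m', g') :: l)

theorem grow_syll [Finite α] {w : FreeGroup α} (hw : w ≠ 1) {m : ℤ} (hm : m ≠ 0)
    (g : FreeGroup α) (K : ℤ) : ∀ᶠ n : ℕ in atTop, K < (w ^ ((n : ℤ) * m) * g).norm := by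
  obtain ⟨N, hN⟩ := norm_zpow_grow hw (K + g.norm)
  filter_upwards [eventually_ge_atTop N] with n hn
  have h1 : (N : ℤ) ≤ |(n : ℤ) * m| := by
    rw [abs_mul]
    have : 1 ≤ |m| := Int.one_le_abs hm
    have h2 : |(n : ℤ)| = n := abs_of_nonneg (by positivity)
    rw [h2]
    nlinarith
  have h2 := hN _ h1
  have h3 := norm_mul_le (w ^ ((n : ℤ) * m) * g) g⁻¹
  rw [mul_inv_cancel_right, norm_inv_eq] at h3
  omega

/-- Gromov product bounds for translates -/
theorem gp_adjust (x y g h : FreeGroup α) :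
    gp (g⁻¹ * x) (y * h) ≤ gp x (g * y * g⁻¹) + 4 * g.norm + 2 * h.norm := by
  unfold gp
  have h1 := norm_mul_le g⁻¹ x
  rw [norm_inv_eq] at h1
  have h2 := norm_mul_le y h
  have h3 : y.norm ≤ g.norm + (g * y * g⁻¹).norm + g.norm := by
    have : y = g⁻¹ * (g * y * g⁻¹) * g := by group
    have h4 := norm_mul_le (g⁻¹ * (g * y * g⁻¹)) g
    have h5 := norm_mul_le g⁻¹ (g * y * g⁻¹)
    rw [← this] at h4
    rw [norm_inv_eq] at h5
    omega
  have h6 : (x⁻¹ * (g * y * g⁻¹)).norm ≤ ((g⁻¹ * x)⁻¹ * (y * h)).norm + h.norm + g.norm := by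
    have e : x⁻¹ * (g * y * g⁻¹) = ((g⁻¹ * x)⁻¹ * (y * h)) * h⁻¹ * g⁻¹ := by group
    rw [e]
    have h7 := norm_mul_le (((g⁻¹ * x)⁻¹ * (y * h)) * h⁻¹) g⁻¹
    have h8 := norm_mul_le ((g⁻¹ * x)⁻¹ * (y * h)) h⁻¹
    rw [norm_inv_eq] at h7 h8
    omega
  omega

theorem gp_syll_bdd [Finite α] {w w' g : FreeGroup α}
    (h : w * (g * w' * g⁻¹) ≠ (g * w' * g⁻¹) * w) (m m' : ℤ) (g' : FreeGroup α) :
    ∃ B : ℤ, ∀ n : ℕ, gp (w ^ ((n : ℤ) * m) * g)⁻¹ (w' ^ ((n : ℤ) * m') * g') ≤ B := by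
  obtain ⟨B, hB⟩ := gp_zpow_bdd w (g * w' * g⁻¹) h
  refine ⟨B + 4 * g.norm + 2 * g'.norm, ?_⟩
  intro n
  have h1 := gp_adjust ((w ^ ((n : ℤ) * m))⁻¹) (w' ^ ((n : ℤ) * m')) g g'
  have h2 := hB (-((n : ℤ) * m)) ((n : ℤ) * m')
  rw [zpow_neg, conj_zpow] at h2
  rw [mul_inv_rev]
  omega

theorem big_powers_aux [Finite α] : ∀ (l : List (FreeGroup α × ℤ × FreeGroup α)) (w : FreeGroup α)
    (m : ℤ) (g : FreeGroup α), Red ((w, m, g) :: l) →
    (∀ K : ℤ, ∀ᶠ n : ℕ in atTop, K < (val n ((w, m, g) :: l)).norm) ∧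
    (∀ (w0 : FreeGroup α) (m0 : ℤ) (g0 : FreeGroup α),
      w0 * (g0 * w * g0⁻¹) ≠ (g0 * w * g0⁻¹) * w0 →
      ∃ B : ℤ, ∀ᶠ n : ℕ in atTop, gp (w0 ^ ((n : ℤ) * m0) * g0)⁻¹ (val n ((w, m, g) :: l)) ≤ B)
  | [], w, m, g, hred => by
      obtain ⟨hw, hm⟩ := hred
      refine ⟨?_, ?_⟩
      · intro K
        simpa [val] using grow_syll hw hm g K
      · intro w0 m0 g0 h
        obtain ⟨B, hB⟩ := gp_syll_bdd h m0 m g
        refine ⟨B, Eventually.of_forall ?_⟩
        intro n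
        simpa [val] using hB n
  | (w', m', g') :: l, w, m, g, hred => by
      obtain ⟨hw, hm, hc, hred'⟩ := hred
      obtain ⟨ih1, ih2⟩ := big_powers_aux l w' m' g' hred'
      obtain ⟨B1, hB1⟩ := ih2 w m g hc
      have key : ∀ n : ℕ, ((val n ((w, m, g) :: (w', m', g') :: l)).norm : ℤ) =
          (w ^ ((n : ℤ) * m) * g).norm + (val n ((w', m', g') :: l)).norm -
          gp (w ^ ((n : ℤ) * m) * g)⁻¹ (val n ((w', m', g') :: l)) := by
        intro n
        have e : val n ((w, m, g) :: (w', m', g') :: l) =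
          w ^ ((n : ℤ) * m) * g * val n ((w', m', g') :: l) := rfl
        rw [e]
        unfold gp
        rw [inv_inv, norm_inv_eq]
        omega
      refine ⟨?_, ?_⟩
      · intro K
        filter_upwards [hB1, ih1 (K + B1)] with n h1 h2
        rw [key n]
        omega
      · intro w0 m0 g0 h
        obtain ⟨B2, hB2⟩ := gp_syll_bdd h m0 m g
        refine ⟨B2, ?_⟩
        filter_upwards [hB1, grow_syll hw hm g (B1 + B2)] with n h1 h2
        have h3 := gp_hyp (w0 ^ ((n : ℤ) * m0) * g0)⁻¹ (val n ((w, m, g) :: (w', m', g') :: l))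
          (w ^ ((n : ℤ) * m) * g)
        have h4 := hB2 n
        have h5 : gp (val n ((w, m, g) :: (w', m', g') :: l)) (w ^ ((n : ℤ) * m) * g) =
            2 * (w ^ ((n : ℤ) * m) * g).norm -
              gp (w ^ ((n : ℤ) * m) * g)⁻¹ (val n ((w', m', g') :: l)) := by
          rw [gp_comm]
          have e : (w ^ ((n : ℤ) * m) * g)⁻¹ * val n ((w, m, g) :: (w', m', g') :: l) =
              val n ((w', m', g') :: l) := by
            have e : val n ((w, m, g) :: (w', m', g') :: l) =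
              w ^ ((n : ℤ) * m) * g * val n ((w', m', g') :: l) := rfl
            rw [e]; group
          have := key n
          conv_lhs => unfold gp
          rw [e, this]
          ring
        omega

/-- big powers: a reduced expression with at least one syllable is eventually different from any
fixed element -/
theorem big_powers [Finite α] (l : List (FreeGroup α × ℤ × FreeGroup α)) (hl : l ≠ [])
    (hred : Red l) (g0 : FreeGroup α) : ∀ᶠ n : ℕ in atTop, val n l ≠ g0 := by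
  cases l with
  | nil => exact absurd rfl hl
  | cons a l =>
    obtain ⟨w, m, g⟩ := a
    filter_upwards [(big_powers_aux l w m g hred).1 g0.norm] with n hn h
    rw [h] at hn
    omega

end Pool.Agent.Helper180.BigPowers
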