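import Mathlib

namespace Pool.Agent.Helper180.Defs

/-! ### Lambda-trees and free actions -/

section Trees

variable {Λ : Type} [AddCommGroup Λ] [LinearOrder Λ] [IsOrderedAddMonoid Λ] {X : Type}

/-- `S` is a segment with endpoints `x` and `y`: the image of an isometric embedding of a closed
interval `[a, b]` of `Λ` that sends `a` to `x` and `b` to `y`. -/
def IsSegment (d : X → X → Λ) (x y : X) (S : Set X) : Prop :=
  ∃ (a b : Λ) (f : Λ → X), a ≤ b ∧
    (∀ s ∈ Set.Icc a b, ∀ t ∈ Set.Icc a b, d (f s) (f t) = |s - t|) ∧
    f a = x ∧ f b = y ∧ S = f '' Set.Icc a b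

/-- `X` with the distance `d` is a `Λ`-tree: a nonempty `Λ`-metric space in which any two points
are joined by a segment, the intersection of two segments with a common endpoint is a segment, and
the union of two segments that meet only in a common endpoint is a segment. -/
structure IsLambdaTree (d : X → X → Λ) : Prop where
  nonempty : Nonempty X
  dist_nonneg : ∀ x y, 0 ≤ d x y
  dist_eq_zero : ∀ x y, d x y = 0 ↔ x = y
  dist_comm : ∀ x y, d x y = d y x
  dist_triangle : ∀ x y z, d x z ≤ d x y + d y z
  exists_segment : ∀ x y, ∃ S, IsSegment d x y S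
  inter_segment : ∀ x y z S T, IsSegment d x y S → IsSegment d x z T →
    ∃ u w, IsSegment d u w (S ∩ T)
  union_segment : ∀ x y z S T, IsSegment d x y S → IsSegment d x z T → S ∩ T = {x} →
    ∃ u w, IsSegment d u w (S ∪ T)

end Trees

/-- `G` acts freely on some `Λ`-tree, for some (totally) ordered abelian group `Λ`: the action is by
isometries, no element other than `1` fixes a point, and no element is an inversion (fixes no point
while its square fixes a point). -/
def TreeFree (G : Type) [Group G] : Prop :=
  ∃ (Λ : Type) (_ : AddCommGroup Λ) (_ : LinearOrder Λ) (_ : IsOrderedAddMonoid Λ)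
    (X : Type) (d : X → X → Λ) (_ : MulAction G X),
    IsLambdaTree d ∧
    (∀ (g : G) (x y : X), d (g • x) (g • y) = d x y) ∧
    (∀ g : G, g ≠ 1 → ∀ x : X, g • x ≠ x) ∧
    (∀ g : G, ¬ ((∀ x : X, g • x ≠ x) ∧ ∃ x : X, (g * g) • x = x))

/-! ### First-order formulas in the language of groups -/

/-- terms in the language of groups; `var n` is the variable number `n` -/
inductive Term : Type
  | var (n : ℕ) : Term
  | one : Term
  | mul (s t : Term) : Term
  | inv (t : Term) : Term

/-- first-order formulas in the language of groups -/
inductive Formula : Type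
  | eq (s t : Term) : Formula
  | neg (φ : Formula) : Formula
  | and (φ ψ : Formula) : Formula
  | imp (φ ψ : Formula) : Formula
  | all (n : ℕ) (φ : Formula) : Formula
  | ex (n : ℕ) (φ : Formula) : Formula

/-- value of a term in a group -/
def Term.eval {G : Type} [Group G] (v : ℕ → G) : Term → G
  | .var n => v n
  | .one => 1
  | .mul s t => s.eval v * t.eval v
  | .inv t => (t.eval v)⁻¹

/-- truth of a formula in a group under an assignment of the variables -/
def Formula.Holds {G : Type} [Group G] : (ℕ → G) → Formula → Prop
  | v, .eq s t => s.eval v = t.eval v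
  | v, .neg φ => ¬ φ.Holds v
  | v, .and φ ψ => φ.Holds v ∧ ψ.Holds v
  | v, .imp φ ψ => φ.Holds v → ψ.Holds v
  | v, .all n φ => ∀ g : G, φ.Holds (Function.update v n g)
  | v, .ex n φ => ∃ g : G, φ.Holds (Function.update v n g)

/-- the variables of a term -/
def Term.vars : Term → Finset ℕ
  | .var n => {n}
  | .one => ∅
  | .mul s t => s.vars ∪ t.vars
  | .inv t => t.vars

/-- the free variables of a formula -/
def Formula.free : Formula → Finset ℕ
  | .eq s t => s.vars ∪ t.vars
  | .neg φ => φ.free
  | .and φ ψ => φ.free ∪ ψ.free
  | .imp φ ψ => φ.free ∪ ψ.free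
  | .all n φ => φ.free.erase n
  | .ex n φ => φ.free.erase n

/-- Goedel number of a term -/
def Term.code : Term → ℕ
  | .var n => Nat.pair 0 n
  | .one => Nat.pair 1 0
  | .mul s t => Nat.pair 2 (Nat.pair s.code t.code)
  | .inv t => Nat.pair 3 t.code

/-- Goedel number of a formula -/
def Formula.code : Formula → ℕ
  | .eq s t => Nat.pair 0 (Nat.pair s.code t.code)
  | .neg φ => Nat.pair 1 φ.code
  | .and φ ψ => Nat.pair 2 (Nat.pair φ.code ψ.code)
  | .imp φ ψ => Nat.pair 3 (Nat.pair φ.code ψ.code)
  | .all n φ => Nat.pair 4 (Nat.pair n φ.code)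
  | .ex n φ => Nat.pair 5 (Nat.pair n φ.code)

/-- The elementary theory of the class of all groups that act freely on some `Λ`-tree: the
sentences (formulas without free variables) that are true in every such group. -/
def theoryTreeFree : Set Formula :=
  {φ | φ.free = ∅ ∧ ∀ (G : Type) [Group G], TreeFree G → ∀ v : ℕ → G, φ.Holds v}

/-- A set of formulas is decidable if the set of Goedel numbers of its members is recursive. -/
def IsDecidable (T : Set Formula) : Prop :=
  ComputablePred fun n : ℕ => ∃ φ ∈ T, φ.code = n

end Pool.Agent.Helper180.Defs
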