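import Mathlib
import Pool.Agent.Helper180.BigPowers

set_option linter.unusedVariables false
set_option linter.unusedSimpArgs false
set_option linter.unusedSectionVars false

namespace Pool.Agent.Helper180.Expr

open Pool.Agent.Helper180.FreeMetric Pool.Agent.Helper180.BigPowers
open Filter FreeGroup

variable {α : Type}

abbrev Syl (α : Type) := FreeGroup α × ℤ × FreeGroup α

/-- admissible neighbours -/
def Nb (s s' : Syl α) : Prop := s.1 * (s.2.2 * s'.1 * s.2.2⁻¹) ≠ (s.2.2 * s'.1 * s.2.2⁻¹) * s.1

theorem red_iff : ∀ l : List (Syl α), Red l ↔ (∀ s ∈ l, s.1 ≠ 1 ∧ s.2.1 ≠ 0) ∧ l.IsChain Nb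
  | [] => by simp [BigPowers.Red]
  | [(w, m, g)] => by simp [BigPowers.Red]
  | (w, m, g) :: (w', m', g') :: l => by
      have ih := red_iff ((w', m', g') :: l)
      simp only [BigPowers.Red, List.isChain_cons_cons, List.mem_cons, forall_eq_or_imp] at ih ⊢
      rw [ih]
      unfold Nb
      tauto

/-- expressions with words from `S` -/
def IsExpr (S : Set (FreeGroup α)) (l : List (Syl α)) : Prop :=
  ∀ s ∈ l, s.1 ∈ S ∨ (s.1 = 1 ∧ s.2.1 = 0)

def tot (l : List (Syl α)) : ℤ := (l.map (fun s => s.2.1)).sum

theorem val_append (n : ℕ) : ∀ l l' : List (Syl α), val n (l ++ l') = val n l * val n l'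
  | [], l' => by simp [val]
  | (w, m, g) :: l, l' => by
      simp only [List.cons_append, val, val_append n l l', mul_assoc]

theorem tot_append (l l' : List (Syl α)) : tot (l ++ l') = tot l + tot l' := by
  simp [tot]

theorem IsExpr.append {S : Set (FreeGroup α)} {l l' : List (Syl α)} (h : IsExpr S l)
    (h' : IsExpr S l') : IsExpr S (l ++ l') := by
  intro s hs
  rcases List.mem_append.1 hs with h1 | h1
  · exact h s h1
  · exact h' s h1

/-- inverse expression -/
def invE : List (Syl α) → List (Syl α)
  | [] => []
  | (w, m, g) :: l => invE l ++ [(1, 0, g⁻¹), (w, -m, 1)]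

theorem val_invE (n : ℕ) : ∀ l : List (Syl α), val n (invE l) = (val n l)⁻¹
  | [] => by simp [val, invE]
  | (w, m, g) :: l => by
      simp only [invE, val_append, val, val_invE n l, mul_inv_rev]
      simp [mul_assoc]

theorem isExpr_invE {S : Set (FreeGroup α)} : ∀ l : List (Syl α), IsExpr S l → IsExpr S (invE l)
  | [], _ => by intro s hs; simp [invE] at hs
  | (w, m, g) :: l, h => by
      have h1 : IsExpr S l := fun s hs => h s (List.mem_cons_of_mem _ hs)
      apply (isExpr_invE l h1).append
      intro s hs
      simp only [List.mem_cons, List.not_mem_nil, or_false] at hs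
      rcases hs with rfl | rfl
      · right; exact ⟨rfl, rfl⟩
      · rcases h (w, m, g) (List.mem_cons_self) with h2 | h2
        · left; exact h2
        · right
          refine ⟨h2.1, ?_⟩
          have : m = 0 := h2.2
          show -m = 0
          rw [this, neg_zero]

theorem tot_invE : ∀ l : List (Syl α), tot (invE l) = - tot l
  | [] => by simp [tot, invE]
  | (w, m, g) :: l => by
      have e : (w, m, g) :: l = [(w, m, g)] ++ l := rfl
      rw [e, tot_append]
      simp only [invE, List.cons_append, List.nil_append, tot_append, tot_invE l]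
      simp [tot]

/-- the assumptions on the set of words -/
structure Good (S : Set (FreeGroup α)) : Prop where
  ne_one : ∀ w ∈ S, w ≠ 1
  sep : ∀ w ∈ S, ∀ w' ∈ S, ∀ g, w * (g * w' * g⁻¹) = (g * w' * g⁻¹) * w →
    w = w' ∧ ∃ k : ℤ, g = w ^ k

/-- every expression can be reduced -/
theorem reduce {S : Set (FreeGroup α)} (hS : Good S) : ∀ l : List (Syl α), IsExpr S l →
    ∃ (g0 : FreeGroup α) (l' : List (Syl α)), Red l' ∧ (∀ s ∈ l', s.1 ∈ S) ∧
      (∀ n, val n l = g0 * val n l') ∧ tot l = tot l'
  | [], _ => ⟨1, [], trivial, by simp, by simp, rfl⟩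
  | (w, m, g) :: l, h => by
      obtain ⟨g1, l1, hr, hm, hv, ht⟩ := reduce hS l (fun s hs => h s (List.mem_cons_of_mem _ hs))
      have htot : tot ((w, m, g) :: l) = m + tot l1 := by
        rw [← ht]; simp [tot]
      by_cases hm0 : m = 0
      · refine ⟨g * g1, l1, hr, hm, ?_, ?_⟩
        · intro n
          simp only [val, hv n, hm0, mul_zero, zpow_zero, one_mul, mul_assoc]
        · rw [htot, hm0, zero_add]
      · have hw : w ∈ S := by
          rcases h (w, m, g) (List.mem_cons_self) with h2 | h2
          · exact h2
          · exact absurd h2.2 hm0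
        have hw1 := hS.ne_one w hw
        cases l1 with
        | nil =>
          refine ⟨1, [(w, m, g * g1)], ⟨hw1, hm0⟩, ?_, ?_, ?_⟩
          · intro s hs; rw [List.mem_singleton.1 hs]; exact hw
          · intro n; simp only [val, hv n, mul_one, one_mul, mul_assoc]
          · rw [htot]; simp [tot]
        | cons a l2 =>
          obtain ⟨w', m', g'⟩ := a
          by_cases hc : w * ((g * g1) * w' * (g * g1)⁻¹) = ((g * g1) * w' * (g * g1)⁻¹) * w
          · have hw' : w' ∈ S := hm (w', m', g') (List.mem_cons_self)
            obtain ⟨e, k, hk⟩ := hS.sep w hw w' hw' (g * g1) hc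
            subst e
            have hred' := (red_iff _).1 hr
            by_cases hmm : m + m' = 0
            · refine ⟨g * g1 * g', l2, ?_, ?_, ?_, ?_⟩
              · rw [red_iff]
                refine ⟨fun s hs => hred'.1 s (List.mem_cons_of_mem _ hs), ?_⟩
                exact hred'.2.tail
              · exact fun s hs => hm s (List.mem_cons_of_mem _ hs)
              · intro n
                simp only [val, hv n]
                have e1 : w ^ ((n : ℤ) * m) * g * (g1 * (w ^ ((n : ℤ) * m') * g' * val n l2)) =
                    w ^ ((n : ℤ) * m) * (g * g1) * w ^ ((n : ℤ) * m') * (g' * val n l2) := by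
                  simp only [mul_assoc]
                rw [e1, hk, ← zpow_add, ← zpow_add]
                have e2 : (n : ℤ) * m + k + (n : ℤ) * m' = k := by
                  have : m' = -m := by omega
                  rw [this]; ring
                rw [e2, mul_assoc]
              · rw [htot]
                have : tot ((w, m', g') :: l2) = m' + tot l2 := by simp [tot]
                rw [this]; omega
            · refine ⟨g * g1, (w, m + m', g') :: l2, ?_, ?_, ?_, ?_⟩
              · rw [red_iff]
                refine ⟨?_, ?_⟩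
                · intro s hs
                  rcases List.mem_cons.1 hs with rfl | hs
                  · exact ⟨hw1, hmm⟩
                  · exact hred'.1 s (List.mem_cons_of_mem _ hs)
                · have := hred'.2
                  cases l2 with
                  | nil => exact List.isChain_singleton _
                  | cons b l3 =>
                    rw [List.isChain_cons_cons] at this ⊢
                    exact this
              · intro s hs
                rcases List.mem_cons.1 hs with rfl | hs
                · exact hw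
                · exact hm s (List.mem_cons_of_mem _ hs)
              · intro n
                simp only [val, hv n]
                have e1 : w ^ ((n : ℤ) * m) * g * (g1 * (w ^ ((n : ℤ) * m') * g' * val n l2)) =
                    w ^ ((n : ℤ) * m) * (g * g1) * w ^ ((n : ℤ) * m') * (g' * val n l2) := by
                  simp only [mul_assoc]
                rw [e1, hk, ← zpow_add, ← zpow_add]
                have e2 : (n : ℤ) * m + k + (n : ℤ) * m' = k + (n : ℤ) * (m + m') := by ring
                rw [e2, zpow_add]; simp only [mul_assoc]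
              · rw [htot]
                have : tot ((w, m', g') :: l2) = m' + tot l2 := by simp [tot]
                have h3 : tot ((w, m + m', g') :: l2) = (m + m') + tot l2 := by simp [tot]
                rw [this, h3]; ring
          · refine ⟨1, (w, m, g * g1) :: (w', m', g') :: l2, ⟨hw1, hm0, hc, hr⟩, ?_, ?_, ?_⟩
            · intro s hs
              rcases List.mem_cons.1 hs with rfl | hs
              · exact hw
              · exact hm s hs
            · intro n; simp only [val, hv n, one_mul, mul_assoc]
            · rw [htot]; simp [tot]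

/-- expression for `(val l) * z * (val l)⁻¹ * h` -/
def cj : List (Syl α) → FreeGroup α → FreeGroup α → List (Syl α)
  | [], _, _ => []
  | [(w, m, g)], z, h => [(w, m, g * z * g⁻¹), (w, -m, h)]
  | (w, m, g) :: s :: l, z, h => (w, m, g) :: (cj (s :: l) z g⁻¹ ++ [(w, -m, h)])

theorem val_cj (n : ℕ) : ∀ (l : List (Syl α)) (z h : FreeGroup α), l ≠ [] →
    val n (cj l z h) = val n l * z * (val n l)⁻¹ * h
  | [], _, _, hl => absurd rfl hl
  | [(w, m, g)], z, h, _ => by
      simp only [cj, val, mul_neg, zpow_neg, mul_one]
      group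
  | (w, m, g) :: s :: l, z, h, _ => by
      have ih := val_cj n (s :: l) z g⁻¹ (by simp)
      have e : val n ((w, m, g) :: s :: l) = w ^ ((n : ℤ) * m) * g * val n (s :: l) := rfl
      have e1 : cj ((w, m, g) :: s :: l) z h = (w, m, g) :: (cj (s :: l) z g⁻¹ ++ [(w, -m, h)]) :=
        rfl
      rw [e, e1]
      have e2 : val n ((w, m, g) :: (cj (s :: l) z g⁻¹ ++ [(w, -m, h)])) =
        w ^ ((n : ℤ) * m) * g * val n (cj (s :: l) z g⁻¹ ++ [(w, -m, h)]) := rfl
      rw [e2, val_append, ih]
      simp only [val, mul_neg, zpow_neg, mul_one]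
      group

theorem cj_head : ∀ (l : List (Syl α)) (w : FreeGroup α) (m : ℤ) (g z h : FreeGroup α),
    ∃ x, (cj ((w, m, g) :: l) z h).head? = some (w, m, x)
  | [], w, m, g, z, h => ⟨_, rfl⟩
  | s :: l, w, m, g, z, h => ⟨_, rfl⟩

theorem cj_last : ∀ (l : List (Syl α)) (w : FreeGroup α) (m : ℤ) (g z h : FreeGroup α),
    (cj ((w, m, g) :: l) z h).getLast? = some (w, -m, h)
  | [], w, m, g, z, h => rfl
  | s :: l, w, m, g, z, h => by
      have e1 : cj ((w, m, g) :: s :: l) z h =
        ((w, m, g) :: cj (s :: l) z g⁻¹) ++ [(w, -m, h)] := rfl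
      rw [e1, List.getLast?_append]
      simp

theorem red_cj {S : Set (FreeGroup α)} (hS : Good S) {z : FreeGroup α}
    (hz : ∀ w ∈ S, ∀ g, w * (g * z * g⁻¹) ≠ (g * z * g⁻¹) * w) :
    ∀ (l : List (Syl α)) (h : FreeGroup α), l ≠ [] → Red l → (∀ s ∈ l, s.1 ∈ S) → Red (cj l z h)
  | [], _, hl, _, _ => absurd rfl hl
  | [(w, m, g)], h, _, hr, hm => by
      have hw : w ∈ S := hm (w, m, g) (by simp)
      refine ⟨hr.1, hr.2, ?_, hr.1, neg_ne_zero.2 hr.2⟩
      intro hc
      obtain ⟨_, k, hk⟩ := hS.sep w hw w hw _ hc
      apply hz w hw g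
      rw [hk]
      exact (Commute.self_zpow w k).eq
  | (w, m, g) :: (w', m', g') :: l, h, _, hr, hm => by
      obtain ⟨h1, h2, h3, h4⟩ := hr
      have ih := red_cj hS hz ((w', m', g') :: l) g⁻¹ (by simp) h4
        (fun s hs => hm s (List.mem_cons_of_mem _ hs))
      have e1 : cj ((w, m, g) :: (w', m', g') :: l) z h =
        (w, m, g) :: (cj ((w', m', g') :: l) z g⁻¹ ++ [(w, -m, h)]) := rfl
      obtain ⟨x, hx⟩ := cj_head l w' m' g' z g⁻¹
      have hlast := cj_last l w' m' g' z g⁻¹
      rw [e1, red_iff]
      rw [red_iff] at ih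
      refine ⟨?_, ?_⟩
      · intro s hs
        rcases List.mem_cons.1 hs with rfl | hs
        · exact ⟨h1, h2⟩
        · rcases List.mem_append.1 hs with hs | hs
          · exact ih.1 s hs
          · rw [List.mem_singleton.1 hs]; exact ⟨h1, neg_ne_zero.2 h2⟩
      · have hch : (cj ((w', m', g') :: l) z g⁻¹ ++ [(w, -m, h)]).IsChain Nb := by
          rw [List.isChain_append]
          refine ⟨ih.2, List.isChain_singleton _, ?_⟩
          intro a ha b hb
          rw [hlast] at ha
          simp only [Option.mem_def, Option.some.injEq, List.head?_cons] at ha hb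
          subst ha; subst hb
          unfold Nb
          simp only [inv_inv]
          intro hc
          apply h3
          have h5 : g * (w' * (g⁻¹ * w * g)) * g⁻¹ = g * (g⁻¹ * w * g * w') * g⁻¹ := by rw [hc]
          have e2 : g * (w' * (g⁻¹ * w * g)) * g⁻¹ = (g * w' * g⁻¹) * w := by group
          have e3 : g * (g⁻¹ * w * g * w') * g⁻¹ = w * (g * w' * g⁻¹) := by group
          rw [e2, e3] at h5
          exact h5.symm
        cases hL : cj ((w', m', g') :: l) z g⁻¹ with
        | nil => rw [hL] at hx; simp at hx
        | cons a L =>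
          rw [hL] at hx hch
          simp only [List.head?_cons, Option.some.injEq] at hx
          subst hx
          rw [List.cons_append, List.isChain_cons_cons]
          refine ⟨h3, ?_⟩
          exact hch

variable [DecidableEq α] [Finite α]

/-- total exponent of an expression whose value is constant along an ultrafilter -/
theorem tot_eq_zero {S : Set (FreeGroup α)} (hS : Good S) {U : Filter ℕ} [U.NeBot] (hU : U ≤ atTop)
    {l : List (Syl α)} (hl : IsExpr S l) (x : FreeGroup α) (h : ∀ᶠ n in U, val n l = x) :
    tot l = 0 := by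
  obtain ⟨g0, l', hr, hm, hv, ht⟩ := reduce hS l hl
  rw [ht]
  by_cases hl' : l' = []
  · rw [hl']; rfl
  · exfalso
    have h1 := hU (big_powers l' hl' hr (g0⁻¹ * x))
    obtain ⟨n, h2, h3⟩ := (h.and h1).exists
    apply h3
    rw [← h2, hv n]; group

/-- an element of the group that commutes with a suitable constant is constant -/
theorem const_of_commute {S : Set (FreeGroup α)} (hS : Good S) {z : FreeGroup α}
    (hz : ∀ w ∈ S, ∀ g, w * (g * z * g⁻¹) ≠ (g * z * g⁻¹) * w)
    {U : Filter ℕ} [U.NeBot] (hU : U ≤ atTop)
    {l : List (Syl α)} (hl : IsExpr S l) (h : ∀ᶠ n in U, val n l * z = z * val n l) :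
    ∃ x : FreeGroup α, ∀ n, val n l = x := by
  obtain ⟨g0, l', hr, hm, hv, ht⟩ := reduce hS l hl
  by_cases hl' : l' = []
  · refine ⟨g0, fun n => ?_⟩
    rw [hv n, hl']; simp [val]
  · exfalso
    have hne : cj l' z 1 ≠ [] := by
      cases l' with
      | nil => exact absurd rfl hl'
      | cons a l'' => cases l'' <;> simp [cj]
    have h1 := hU (big_powers (cj l' z 1) hne (red_cj hS hz l' 1 hl' hr hm) (g0⁻¹ * z * g0))
    obtain ⟨n, h2, h3⟩ := (h.and h1).exists
    apply h3
    rw [val_cj n l' z 1 hl', mul_one]
    rw [hv n] at h2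
    have h4 : g0⁻¹ * (g0 * val n l' * z) * (val n l')⁻¹ =
        g0⁻¹ * (z * (g0 * val n l')) * (val n l')⁻¹ := by rw [h2]
    have e1 : g0⁻¹ * (g0 * val n l' * z) * (val n l')⁻¹ = val n l' * z * (val n l')⁻¹ := by group
    have e2 : g0⁻¹ * (z * (g0 * val n l')) * (val n l')⁻¹ = g0⁻¹ * z * g0 := by group
    rw [← e1, ← e2, h4]

end Pool.Agent.Helper180.Expr
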