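import Mathlib
import Pool.Agent.Helper180.Defs

namespace Pool.Agent.Helper180.TreeGeom

open Pool.Agent.Helper180.Defs

variable {Λ : Type} [CommRing Λ] [LinearOrder Λ] [IsStrictOrderedRing Λ] {X : Type}

/-- a geodesic, `0`-hyperbolic space with even Gromov products is a `Λ`-tree -/
theorem isLambdaTree_of (d : X → X → Λ) (ne : Nonempty X)
    (h0 : ∀ x y, 0 ≤ d x y) (h1 : ∀ x y, d x y = 0 ↔ x = y) (h2 : ∀ x y, d x y = d y x)
    (h3 : ∀ x y z, d x z ≤ d x y + d y z)
    (geo : ∀ x y t, 0 ≤ t → t ≤ d x y → ∃ p, d x p = t ∧ d p y = d x y - t)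
    (hyp : ∀ w x y z, min (d w x + d w y - d x y) (d w y + d w z - d y z) ≤
      d w x + d w z - d x z)
    (par : ∀ x y z, ∃ δ, d x y + d x z - d y z = δ + δ) : IsLambdaTree d := by
  have hxx : ∀ x, d x x = 0 := fun x => (h1 x x).2 rfl
  -- uniqueness of points on a segment
  have hA : ∀ x y p q, d x p + d p y = d x y → d x q + d q y = d x y →
      d p q = |d x p - d x q| := by
    have aux : ∀ x y p q, d x p + d p y = d x y → d x q + d q y = d x y → d x p ≤ d x q →
        d p q = d x q - d x p := by
      intro x y p q hp hq hle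
      have a1 := h3 x p q
      have a2 := hyp x p y q
      have a3 := h2 q y
      rcases min_le_iff.1 a2 with a | a <;> linarith
    intro x y p q hp hq
    rcases le_total (d x p) (d x q) with h | h
    · rw [aux x y p q hp hq h, abs_of_nonpos (by linarith)]; ring
    · rw [h2 p q, aux x y q p hq hp h, abs_of_nonneg (by linarith)]
  -- segments are metric intervals
  have hB1 : ∀ x y S, IsSegment d x y S → S = {p | d x p + d p y = d x y} := by
    rintro x y S ⟨a, b, f, hab, hf, rfl, rfl, rfl⟩
    have ha : a ∈ Set.Icc a b := ⟨le_refl _, hab⟩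
    have hb : b ∈ Set.Icc a b := ⟨hab, le_refl _⟩
    have hab' : d (f a) (f b) = b - a := by
      rw [hf a ha b hb, abs_of_nonpos (by linarith)]; ring
    have hft : ∀ t ∈ Set.Icc a b, d (f a) (f t) = t - a ∧ d (f t) (f b) = b - t := by
      intro t ht
      rw [hf a ha t ht, hf t ht b hb, abs_of_nonpos (by linarith [ht.1]),
        abs_of_nonpos (by linarith [ht.2])]
      constructor <;> ring
    ext p
    constructor
    · rintro ⟨t, ht, rfl⟩
      have := hft t ht
      show d (f a) (f t) + d (f t) (f b) = d (f a) (f b)
      linarith [this.1, this.2]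
    · intro hp
      have hp : d (f a) p + d p (f b) = d (f a) (f b) := hp
      have g1 := h0 (f a) p
      have g2 := h0 p (f b)
      have ht : a + d (f a) p ∈ Set.Icc a b := ⟨by linarith, by linarith⟩
      refine ⟨a + d (f a) p, ht, ?_⟩
      have h4 := hft _ ht
      have h5 := hA (f a) (f b) (f (a + d (f a) p)) p (by linarith [h4.1, h4.2]) hp
      rw [h4.1] at h5
      rw [← h1, h5]
      have : a + d (f a) p - a - d (f a) p = 0 := by ring
      rw [this, abs_zero]
  have hB2 : ∀ x y, IsSegment d x y {p | d x p + d p y = d x y} := by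
    intro x y
    have hg : ∀ t, ∃ p, 0 ≤ t → t ≤ d x y → d x p = t ∧ d p y = d x y - t := by
      intro t
      by_cases ht : 0 ≤ t ∧ t ≤ d x y
      · obtain ⟨p, hp⟩ := geo x y t ht.1 ht.2
        exact ⟨p, fun _ _ => hp⟩
      · exact ⟨x, fun a b => absurd ⟨a, b⟩ ht⟩
    choose f hf using hg
    have hseg : ∀ t, 0 ≤ t → t ≤ d x y → d x (f t) + d (f t) y = d x y := by
      intro t a b
      have := hf t a b
      linarith [this.1, this.2]
    refine ⟨0, d x y, f, h0 x y, ?_, ?_, ?_, ?_⟩
    · intro s hs t ht
      rw [hA x y (f s) (f t) (hseg s hs.1 hs.2) (hseg t ht.1 ht.2), (hf s hs.1 hs.2).1,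
        (hf t ht.1 ht.2).1]
    · have := hf 0 (le_refl _) (h0 x y)
      exact ((h1 _ _).1 this.1).symm
    · have := hf (d x y) (h0 x y) (le_refl _)
      rw [sub_self] at this
      exact (h1 _ _).1 this.2
    · ext p
      constructor
      · intro hp
        have hp : d x p + d p y = d x y := hp
        have g1 := h0 x p
        have g2 := h0 p y
        refine ⟨d x p, ⟨g1, by linarith⟩, ?_⟩
        have h4 := hf (d x p) g1 (by linarith)
        have h5 := hA x y (f (d x p)) p (hseg _ g1 (by linarith)) hp
        rw [h4.1, sub_self, abs_zero] at h5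
        exact (h1 _ _).1 h5
      · rintro ⟨t, ht, rfl⟩
        exact hseg t ht.1 ht.2
  refine ⟨ne, h0, h1, h2, h3, fun x y => ⟨_, hB2 x y⟩, ?_, ?_⟩
  · intro x y z S T hS hT
    rw [hB1 x y S hS, hB1 x z T hT]
    obtain ⟨δ, hδ⟩ := par x y z
    have t1 := h3 x y z
    have t2 := h3 x z y
    have t3 := h3 y x z
    have t4 := h2 z y
    have t5 := h2 x y
    obtain ⟨w, hw1, hw2⟩ := geo x y δ (by linarith) (by linarith)
    refine ⟨x, w, ?_⟩
    have e : {p | d x p + d p y = d x y} ∩ {p | d x p + d p z = d x z} =
        {p | d x p + d p w = d x w} := by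
      ext p
      simp only [Set.mem_inter_iff, Set.mem_ofPred_eq]
      constructor
      · rintro ⟨hp, hp'⟩
        have a1 := hyp x y p z
        have a2 := h2 y p
        have hle : d x p ≤ δ := by
          rcases min_le_iff.1 a1 with a | a <;> linarith
        have a3 := hA x y p w hp (by linarith)
        rw [hw1, abs_of_nonpos (by linarith)] at a3
        linarith
      · intro hp
        have g2 := h0 p w
        have a1 := hyp x p w y
        have a2 := h3 x p y
        have hpy : d x p + d p y = d x y := by
          rcases min_le_iff.1 a1 with a | a <;> linarith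
        have a3 := hyp x p y z
        have a4 := h3 x p z
        refine ⟨hpy, ?_⟩
        rcases min_le_iff.1 a3 with a | a <;> linarith
    rw [e]
    exact hB2 x w
  · intro x y z S T hS hT hST
    rw [hB1 x y S hS, hB1 x z T hT] at hST ⊢
    obtain ⟨δ, hδ⟩ := par x y z
    have t1 := h3 x y z
    have t2 := h3 x z y
    have t3 := h3 y x z
    have t4 := h2 z y
    have t5 := h2 x y
    obtain ⟨w, hw1, hw2⟩ := geo x y δ (by linarith) (by linarith)
    have hw : w ∈ {p | d x p + d p y = d x y} ∩ {p | d x p + d p z = d x z} := by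
      have hwy : d x w + d w y = d x y := by linarith
      refine ⟨hwy, ?_⟩
      have a3 := hyp x w y z
      have a4 := h3 x w z
      show d x w + d w z = d x z
      rcases min_le_iff.1 a3 with a | a <;> linarith
    rw [hST] at hw
    have hwx : w = x := hw
    rw [hwx, hxx] at hw1
    have hyz : d y z = d x y + d x z := by linarith
    refine ⟨y, z, ?_⟩
    have e : {p | d x p + d p y = d x y} ∪ {p | d x p + d p z = d x z} =
        {p | d y p + d p z = d y z} := by
      ext p
      simp only [Set.mem_union, Set.mem_ofPred_eq]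
      have b1 := h3 y p z
      have b2 := h3 p x z
      have b3 := h3 y x p
      have b4 := h2 p x
      have b5 := h2 y p
      have b6 := h2 y x
      constructor
      · rintro (hp | hp) <;> linarith
      · intro hp
        have a1 := hyp p y x z
        have a2 := h3 y p x
        have a4 := h3 x p z
        rcases min_le_iff.1 a1 with a | a
        · left; linarith
        · right; linarith
    rw [e]
    exact hB2 y z

end Pool.Agent.Helper180.TreeGeom
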