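import Mathlib
import Pool.Agent.Helper180.Defs
import Pool.Agent.Helper180.TreeGeom
import Pool.Agent.Helper180.FreeMetric

namespace Pool.Agent.Helper180.GermTree

open Pool.Agent.Helper180.Defs Pool.Agent.Helper180.TreeGeom Pool.Agent.Helper180.FreeMetric
open Filter FreeGroup

variable {α : Type} [DecidableEq α] (U : Ultrafilter ℕ)

/-- distance on the ultrapower of the free group -/
noncomputable def gd (x y : Germ (U : Filter ℕ) (FreeGroup α)) : Germ (U : Filter ℕ) ℤ :=
  Germ.map₂ (fun a b : FreeGroup α => ((a⁻¹ * b).norm : ℤ)) x y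

theorem gd_coe (f g : ℕ → FreeGroup α) :
    gd U (f : Germ (U : Filter ℕ) (FreeGroup α)) (g : Germ (U : Filter ℕ) (FreeGroup α)) =
      ((fun n => (((f n)⁻¹ * g n).norm : ℤ) : ℕ → ℤ) : Germ (U : Filter ℕ) ℤ) := rfl

theorem norm_tri (a b c : FreeGroup α) : (a⁻¹ * c).norm ≤ (a⁻¹ * b).norm + (b⁻¹ * c).norm := by
  have : a⁻¹ * c = (a⁻¹ * b) * (b⁻¹ * c) := by group
  rw [this]; exact norm_mul_le _ _

theorem norm_symm (a b : FreeGroup α) : (a⁻¹ * b).norm = (b⁻¹ * a).norm := by
  rw [← norm_inv_eq]; congr 1; group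

theorem germ_tree : IsLambdaTree (gd (α := α) U) := by
  apply isLambdaTree_of
  · exact ⟨((fun _ => 1 : ℕ → FreeGroup α) : Germ (U : Filter ℕ) (FreeGroup α))⟩
  · intro x y
    induction x using Germ.inductionOn with | _ f
    induction y using Germ.inductionOn with | _ g
    rw [gd_coe]
    exact Germ.coe_le.2 (Eventually.of_forall fun n => by positivity)
  · intro x y
    induction x using Germ.inductionOn with | _ f
    induction y using Germ.inductionOn with | _ g
    rw [gd_coe]
    constructor
    · intro h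
      have h' := Germ.coe_eq.1 h
      apply Germ.coe_eq.2
      filter_upwards [h'] with n hn
      have h1 : ((f n)⁻¹ * g n).norm = 0 := by exact_mod_cast hn
      rw [FreeGroup.norm_eq_zero, inv_mul_eq_one] at h1
      exact h1
    · intro h
      have h' := Germ.coe_eq.1 h
      apply Germ.coe_eq.2
      filter_upwards [h'] with n hn
      rw [hn]; simp
  · intro x y
    induction x using Germ.inductionOn with | _ f
    induction y using Germ.inductionOn with | _ g
    rw [gd_coe, gd_coe]
    apply Germ.coe_eq.2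
    exact Eventually.of_forall fun n => by
      show (((f n)⁻¹ * g n).norm : ℤ) = (((g n)⁻¹ * f n).norm : ℤ)
      rw [norm_symm]
  · intro x y z
    induction x using Germ.inductionOn with | _ f
    induction y using Germ.inductionOn with | _ g
    induction z using Germ.inductionOn with | _ h
    rw [gd_coe, gd_coe, gd_coe, ← Germ.coe_add]
    exact Germ.coe_le.2 (Eventually.of_forall fun n => by
      have := norm_tri (f n) (g n) (h n)
      show (((f n)⁻¹ * h n).norm : ℤ) ≤ (((f n)⁻¹ * g n).norm : ℤ) + (((g n)⁻¹ * h n).norm : ℤ)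
      exact_mod_cast this)
  · intro x y t
    induction x using Germ.inductionOn with | _ f
    induction y using Germ.inductionOn with | _ g
    induction t using Germ.inductionOn with | _ t
    intro h1 h2
    rw [gd_coe] at h2
    have h1' : ∀ᶠ n in (U : Filter ℕ), 0 ≤ t n := Germ.coe_le.1 h1
    have h2' : ∀ᶠ n in (U : Filter ℕ), t n ≤ (((f n)⁻¹ * g n).norm : ℤ) := Germ.coe_le.1 h2
    have key : ∀ n, ∃ p : FreeGroup α, 0 ≤ t n → t n ≤ (((f n)⁻¹ * g n).norm : ℤ) →
        (((f n)⁻¹ * p).norm : ℤ) = t n ∧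
        ((p⁻¹ * g n).norm : ℤ) = (((f n)⁻¹ * g n).norm : ℤ) - t n := by
      intro n
      by_cases hn : 0 ≤ t n ∧ t n ≤ (((f n)⁻¹ * g n).norm : ℤ)
      · obtain ⟨z, hz1, hz2⟩ := exists_initial ((f n)⁻¹ * g n) (t n).toNat (by omega)
        refine ⟨f n * z, fun _ _ => ⟨?_, ?_⟩⟩
        · rw [inv_mul_cancel_left, hz1]; omega
        · have : (f n * z)⁻¹ * g n = z⁻¹ * ((f n)⁻¹ * g n) := by group
          rw [this, hz2]; omega
      · exact ⟨1, fun a b => absurd ⟨a, b⟩ hn⟩
    choose p hp using key
    refine ⟨(p : Germ (U : Filter ℕ) (FreeGroup α)), ?_, ?_⟩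
    · rw [gd_coe]
      apply Germ.coe_eq.2
      filter_upwards [h1', h2'] with n a b
      exact (hp n a b).1
    · rw [gd_coe, gd_coe, ← Germ.coe_sub]
      apply Germ.coe_eq.2
      filter_upwards [h1', h2'] with n a b
      exact (hp n a b).2
  · intro w x y z
    induction w using Germ.inductionOn with | _ w
    induction x using Germ.inductionOn with | _ x
    induction y using Germ.inductionOn with | _ y
    induction z using Germ.inductionOn with | _ z
    simp only [gd_coe, ← Germ.coe_add, ← Germ.coe_sub]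
    rw [min_le_iff, Germ.coe_le, Germ.coe_le]
    unfold Filter.EventuallyLE
    rw [← Ultrafilter.eventually_or]
    refine Eventually.of_forall fun n => ?_
    simp only [Pi.add_apply, Pi.sub_apply]
    rw [← min_le_iff]
    have := gp_hyp ((w n)⁻¹ * x n) ((w n)⁻¹ * y n) ((w n)⁻¹ * z n)
    unfold gp at this
    have e : ∀ a b : FreeGroup α, ((w n)⁻¹ * a)⁻¹ * ((w n)⁻¹ * b) = a⁻¹ * b := by
      intro a b; group
    rw [e, e, e] at this
    exact this
  · intro x y z
    induction x using Germ.inductionOn with | _ x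
    induction y using Germ.inductionOn with | _ y
    induction z using Germ.inductionOn with | _ z
    refine ⟨((fun n => (lcp ((x n)⁻¹ * y n).toWord ((x n)⁻¹ * z n).toWord : ℤ) : ℕ → ℤ) :
      Germ (U : Filter ℕ) ℤ), ?_⟩
    simp only [gd_coe, ← Germ.coe_add, ← Germ.coe_sub]
    apply Germ.coe_eq.2
    refine Eventually.of_forall fun n => ?_
    simp only [Pi.add_apply, Pi.sub_apply]
    have := gp_eq ((x n)⁻¹ * y n) ((x n)⁻¹ * z n)
    unfold gp at this
    have e : ((x n)⁻¹ * y n)⁻¹ * ((x n)⁻¹ * z n) = (y n)⁻¹ * z n := by group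
    rw [e] at this
    rw [this]; ring

theorem germ_sq {x : Germ (U : Filter ℕ) (FreeGroup α)} (h : x * x = 1) : x = 1 := by
  induction x using Germ.inductionOn with | _ f
  rw [← Germ.coe_mul] at h
  have h' : (f * f) =ᶠ[(U : Filter ℕ)] (fun _ => 1) := Germ.coe_eq.1 h
  apply Germ.coe_eq.2
  filter_upwards [h'] with n hn
  have hn : f n * f n = 1 := hn
  have h2 : (2 : ℕ) ≠ 0 := by norm_num
  apply IsMulTorsionFree.pow_left_injective (M := FreeGroup α) h2
  show f n ^ 2 = (1 : FreeGroup α) ^ 2
  rw [pow_two, hn, one_pow]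

theorem treeFree_of_germ {G : Type} [Group G] (Φ : G →* Germ (U : Filter ℕ) (FreeGroup α))
    (hΦ : Function.Injective Φ) : TreeFree G := by
  let _ : MulAction G (Germ (U : Filter ℕ) (FreeGroup α)) :=
    { smul := fun g x => Φ g * x
      one_smul := fun x => by
        show Φ 1 * x = x
        rw [_root_.map_one, one_mul]
      mul_smul := fun g h x => by
        show Φ (g * h) * x = Φ g * (Φ h * x)
        rw [_root_.map_mul, mul_assoc] }
  have hsm : ∀ (g : G) (x : Germ (U : Filter ℕ) (FreeGroup α)), g • x = Φ g * x := fun _ _ => rfl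
  refine ⟨Germ (U : Filter ℕ) ℤ, inferInstance, inferInstance, inferInstance,
    Germ (U : Filter ℕ) (FreeGroup α), gd U, inferInstance, germ_tree U, ?_, ?_, ?_⟩
  · intro g x y
    rw [hsm, hsm]
    generalize Φ g = u
    induction u using Germ.inductionOn with | _ u
    induction x using Germ.inductionOn with | _ x
    induction y using Germ.inductionOn with | _ y
    rw [← Germ.coe_mul, ← Germ.coe_mul, gd_coe, gd_coe]
    apply Germ.coe_eq.2
    refine Eventually.of_forall fun n => ?_
    simp only [Pi.mul_apply]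
    congr 2
    group
  · intro g hg x hx
    rw [hsm, mul_eq_right] at hx
    apply hg
    apply hΦ
    rw [hx, _root_.map_one]
  · rintro g ⟨h1, x, hx⟩
    rw [hsm, mul_eq_right, _root_.map_mul] at hx
    have h2 := germ_sq U hx
    apply h1 x
    rw [hsm, h2, one_mul]

end Pool.Agent.Helper180.GermTree
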