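import Mathlib
import Pool.Agent.Helper180.Defs
import Pool.Agent.Helper180.GermTree
import Pool.Agent.Helper180.Expr

set_option linter.unusedVariables false
set_option linter.unusedSimpArgs false
set_option linter.unusedSectionVars false

namespace Pool.Agent.Helper180.GroupS

open Pool.Agent.Helper180.FreeMetric Pool.Agent.Helper180.BigPowers Pool.Agent.Helper180.Expr
open Pool.Agent.Helper180.Defs Pool.Agent.Helper180.GermTree
open Filter FreeGroup

variable {α : Type}

noncomputable abbrev U : Ultrafilter ℕ := hyperfilter ℕ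

theorem U_le : (U : Filter ℕ) ≤ atTop := Nat.hyperfilter_le_atTop

/-- germ of the values of an expression -/
noncomputable def gexp (l : List (Syl α)) : Germ (U : Filter ℕ) (FreeGroup α) :=
  ((fun n => val n l : ℕ → FreeGroup α) : Germ (U : Filter ℕ) (FreeGroup α))

theorem gexp_append (l l' : List (Syl α)) : gexp (l ++ l') = gexp l * gexp l' := by
  unfold gexp
  rw [← Germ.coe_mul]
  congr 1
  funext n
  exact val_append n l l'

theorem gexp_inv (l : List (Syl α)) : gexp (invE l) = (gexp l)⁻¹ := by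
  unfold gexp
  rw [← Germ.coe_inv]
  congr 1
  funext n
  exact val_invE n l

theorem gexp_eq_iff (l l' : List (Syl α)) :
    gexp l = gexp l' ↔ ∀ᶠ n in (U : Filter ℕ), val n l = val n l' := by
  unfold gexp
  exact Germ.coe_eq

/-- the group generated by the free group and the germs of `w ^ n`, `w ∈ S` -/
def Gs (S : Set (FreeGroup α)) : Subgroup (Germ (U : Filter ℕ) (FreeGroup α)) where
  carrier := {x | ∃ l, IsExpr S l ∧ x = gexp l}
  one_mem' := ⟨[], fun s hs => by simp at hs, by
    unfold gexp; rfl⟩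
  mul_mem' := by
    rintro x y ⟨l, hl, rfl⟩ ⟨l', hl', rfl⟩
    exact ⟨l ++ l', hl.append hl', (gexp_append l l').symm⟩
  inv_mem' := by
    rintro x ⟨l, hl, rfl⟩
    exact ⟨invE l, isExpr_invE l hl, (gexp_inv l).symm⟩

/-- the element of `Gs S` given by an expression -/
noncomputable def el {S : Set (FreeGroup α)} (l : List (Syl α)) (h : IsExpr S l) : Gs S :=
  ⟨gexp l, l, h, rfl⟩

theorem isExpr_cst {S : Set (FreeGroup α)} (x : FreeGroup α) : IsExpr S [(1, 0, x)] := by
  intro s hs
  rw [List.mem_singleton.1 hs]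
  exact Or.inr ⟨rfl, rfl⟩

theorem isExpr_tt {S : Set (FreeGroup α)} {w : FreeGroup α} (hw : w ∈ S) (m : ℤ)
    (x : FreeGroup α) : IsExpr S [(w, m, x)] := by
  intro s hs
  rw [List.mem_singleton.1 hs]
  exact Or.inl hw

theorem el_surj {S : Set (FreeGroup α)} (x : Gs S) : ∃ l h, x = el l h := by
  obtain ⟨x, l, h, rfl⟩ := x
  exact ⟨l, h, rfl⟩

theorem el_mul {S : Set (FreeGroup α)} {l l' : List (Syl α)} (h : IsExpr S l) (h' : IsExpr S l') :
    el l h * el l' h' = el (l ++ l') (h.append h') := by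
  apply Subtype.ext
  exact (gexp_append l l').symm

theorem el_eq {S : Set (FreeGroup α)} {l l' : List (Syl α)} (h : IsExpr S l) (h' : IsExpr S l') :
    el l h = el l' h' ↔ ∀ᶠ n in (U : Filter ℕ), val n l = val n l' := by
  rw [← gexp_eq_iff, Subtype.ext_iff]
  rfl

/-- constants -/
noncomputable def cst (S : Set (FreeGroup α)) : FreeGroup α →* Gs S where
  toFun x := el [(1, 0, x)] (isExpr_cst x)
  map_one' := by
    apply Subtype.ext
    show gexp [(1, 0, 1)] = 1
    unfold gexp
    simp only [val, one_zpow, one_mul]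
    rfl
  map_mul' x y := by
    rw [el_mul, el_eq]
    exact Eventually.of_forall fun n => by simp [val]

theorem cst_injective (S : Set (FreeGroup α)) : Function.Injective (cst S) := by
  intro x y h
  have h' := (el_eq (isExpr_cst (S := S) x) (isExpr_cst y)).1 h
  obtain ⟨n, hn⟩ := h'.exists
  simpa [val] using hn

variable [DecidableEq α]

theorem treeFree_Gs (S : Set (FreeGroup α)) : TreeFree (Gs S) :=
  treeFree_of_germ U (Gs S).subtype (Subgroup.subtype_injective _)

variable [Finite α]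

theorem eq_cst_of_commute {S : Set (FreeGroup α)} (hS : Good S) {z : FreeGroup α}
    (hz : ∀ w ∈ S, ∀ g, w * (g * z * g⁻¹) ≠ (g * z * g⁻¹) * w) (x : Gs S)
    (h : x * cst S z = cst S z * x) : ∃ y, x = cst S y ∧ y * z = z * y := by
  obtain ⟨l, hl, rfl⟩ := el_surj x
  have h1 : el l hl * el [(1, 0, z)] (isExpr_cst z) = el [(1, 0, z)] (isExpr_cst z) * el l hl := h
  rw [el_mul, el_mul, el_eq] at h1
  have h2 : ∀ᶠ n in (U : Filter ℕ), val n l * z = z * val n l := by
    filter_upwards [h1] with n hn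
    rw [val_append, val_append] at hn
    simpa [val] using hn
  obtain ⟨y, hy⟩ := const_of_commute hS hz U_le hl h2
  refine ⟨y, ?_, ?_⟩
  · show el l hl = el [(1, 0, y)] (isExpr_cst y)
    rw [el_eq]
    exact Eventually.of_forall fun n => by rw [hy n]; simp [val]
  · obtain ⟨n, hn⟩ := h2.exists
    rwa [hy n] at hn

/-- coding predicate -/
def NC {G : Type} [Group G] (w : G) : Prop :=
  ∃ t : G, t * w = w * t ∧ (¬ ∃ s : G, s * s = t) ∧ ¬ ∃ s : G, s * s = t * w

theorem nc_of_mem {S : Set (FreeGroup α)} (hS : Good S) {w : FreeGroup α} (hw : w ∈ S) :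
    NC (cst S w) := by
  refine ⟨el [(w, 1, 1)] (isExpr_tt hw 1 1), ?_, ?_, ?_⟩
  · show el [(w, 1, 1)] (isExpr_tt hw 1 1) * el [(1, 0, w)] (isExpr_cst w) =
      el [(1, 0, w)] (isExpr_cst w) * el [(w, 1, 1)] (isExpr_tt hw 1 1)
    rw [el_mul, el_mul, el_eq]
    refine Eventually.of_forall fun n => ?_
    simp only [List.cons_append, List.nil_append, val, mul_one, one_mul, one_zpow]
    exact ((Commute.refl w).zpow_left _).eq
  · rintro ⟨s, hs⟩
    obtain ⟨l, hl, rfl⟩ := el_surj s
    rw [el_mul, el_eq] at hs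
    have h1 : IsExpr S (l ++ l ++ [(w, -1, 1)]) := (hl.append hl).append (isExpr_tt hw (-1) 1)
    have h2 := tot_eq_zero hS U_le h1 1 (by
      filter_upwards [hs] with n hn
      rw [val_append, hn]
      simp [val])
    rw [tot_append, tot_append] at h2
    have h3 : tot [(w, (-1 : ℤ), (1 : FreeGroup α))] = -1 := by simp [tot]
    omega
  · rintro ⟨s, hs⟩
    obtain ⟨l, hl, rfl⟩ := el_surj s
    have hs : el l hl * el l hl = el [(w, 1, 1)] (isExpr_tt hw 1 1) *
      el [(1, 0, w)] (isExpr_cst w) := hs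
    rw [el_mul, el_mul, el_eq] at hs
    have h1 : IsExpr S (l ++ l ++ [(w, -1, 1)]) := (hl.append hl).append (isExpr_tt hw (-1) 1)
    have h2 := tot_eq_zero hS U_le h1 w (by
      filter_upwards [hs] with n hn
      rw [val_append, hn]
      simp only [List.cons_append, List.nil_append, val, mul_one, one_mul, one_zpow]
      rw [← zpow_add_one, ← zpow_add]
      have e : (n : ℤ) + 1 + n * -1 = 1 := by ring
      rw [e, zpow_one])
    rw [tot_append, tot_append] at h2
    have h3 : tot [(w, (-1 : ℤ), (1 : FreeGroup α))] = -1 := by simp [tot]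
    omega

theorem not_nc {S : Set (FreeGroup α)} (hS : Good S) {z : FreeGroup α}
    (hz : ∀ w ∈ S, ∀ g, w * (g * z * g⁻¹) ≠ (g * z * g⁻¹) * w)
    (hroot : ∀ x, x * z = z * x → ∃ k : ℤ, x = z ^ k) : ¬ NC (cst S z) := by
  rintro ⟨t, h1, h2, h3⟩
  obtain ⟨y, rfl, hy⟩ := eq_cst_of_commute hS hz t h1
  obtain ⟨k, rfl⟩ := hroot y hy
  rcases Int.even_or_odd' k with ⟨c, hc | hc⟩
  · apply h2
    refine ⟨cst S (z ^ c), ?_⟩
    rw [← _root_.map_mul, ← zpow_add]
    congr 2; omega
  · apply h3
    refine ⟨cst S (z ^ (c + 1)), ?_⟩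
    rw [← _root_.map_mul, ← _root_.map_mul, ← zpow_add, ← zpow_add_one]
    congr 2; omega

end Pool.Agent.Helper180.GroupS
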