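import Mathlib
import Pool.Agent.Helper180.GroupS

set_option linter.unusedVariables false
set_option linter.unusedSimpArgs false
set_option linter.unusedSectionVars false

namespace Pool.Agent.Helper180.Words

open Pool.Agent.Helper180.FreeMetric Pool.Agent.Helper180.BigPowers Pool.Agent.Helper180.Expr
open Pool.Agent.Helper180.Defs Pool.Agent.Helper180.GermTree Pool.Agent.Helper180.GroupS
open Filter FreeGroup

abbrev F := FreeGroup (Fin 6)

/-- exponent sum of the generator `a` -/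
def ex (a : Fin 6) : F →* Multiplicative ℤ :=
  FreeGroup.lift (fun b => if b = a then Multiplicative.ofAdd 1 else 1)

def exs (a : Fin 6) (x : F) : ℤ := Multiplicative.toAdd (ex a x)

theorem exs_mul (a : Fin 6) (x y : F) : exs a (x * y) = exs a x + exs a y := by
  simp [exs]

theorem exs_inv (a : Fin 6) (x : F) : exs a x⁻¹ = - exs a x := by
  simp [exs]

theorem exs_one (a : Fin 6) : exs a 1 = 0 := by
  simp [exs]

theorem exs_zpow (a : Fin 6) (x : F) (n : ℤ) : exs a (x ^ n) = n * exs a x := by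
  simp [exs]

theorem exs_of (a b : Fin 6) : exs a (of b) = if b = a then 1 else 0 := by
  unfold exs ex
  rw [FreeGroup.lift_apply_of]
  split <;> rfl

theorem exs_conj (a : Fin 6) (g x : F) : exs a (g * x * g⁻¹) = exs a x := by
  rw [exs_mul, exs_mul, exs_inv]; ring

theorem ne_one_of_exs {a : Fin 6} {x : F} (h : exs a x = 1) : x ≠ 1 := by
  rintro rfl
  rw [exs_one] at h
  omega

/-- an element with an exponent sum equal to `1` generates its centralizer -/
theorem root_of_exs {a : Fin 6} {w : F} (h : exs a w = 1) (x : F) (hx : x * w = w * x) :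
    ∃ k : ℤ, x = w ^ k := by
  obtain ⟨g, hg, hc⟩ := centralizer_cyclic w (ne_one_of_exs h)
  obtain ⟨m, hm⟩ := hc w rfl
  obtain ⟨n, hn⟩ := hc x hx
  have h1 : exs a w = m * exs a g := by
    conv_lhs => rw [hm]
    rw [exs_zpow]
  rw [h] at h1
  have h2 : m = 1 ∨ m = -1 := Int.isUnit_iff.1 (IsUnit.of_mul_eq_one _ h1.symm)
  rcases h2 with h2 | h2
  · refine ⟨n, ?_⟩
    rw [hn, hm, h2, zpow_one]
  · refine ⟨-n, ?_⟩
    rw [hn, hm, h2, ← zpow_mul]
    congr 1; ring

/-- letters marking the three kinds of words -/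
def lt : Fin 3 → Fin 6 := ![3, 4, 5]

abbrev Idx := ℤ × ℤ × ℤ × Fin 3

/-- the words -/
def W (v : Idx) : F := of 0 ^ v.1 * of 1 ^ v.2.1 * of 2 ^ v.2.2.1 * of (lt v.2.2.2)

theorem lt_inj : ∀ l l' : Fin 3, lt l = lt l' → l = l' := by decide
theorem lt_ne0 : ∀ l : Fin 3, lt l ≠ 0 := by decide
theorem lt_ne1 : ∀ l : Fin 3, lt l ≠ 1 := by decide
theorem lt_ne2 : ∀ l : Fin 3, lt l ≠ 2 := by decide

theorem exs_W (a : Fin 6) (v : Idx) : exs a (W v) =
    v.1 * (if (0 : Fin 6) = a then 1 else 0) + v.2.1 * (if (1 : Fin 6) = a then 1 else 0) +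
      v.2.2.1 * (if (2 : Fin 6) = a then 1 else 0) + (if lt v.2.2.2 = a then 1 else 0) := by
  unfold W
  rw [exs_mul, exs_mul, exs_mul, exs_zpow, exs_zpow, exs_zpow, exs_of, exs_of, exs_of, exs_of]

theorem exs_W_lt (v : Idx) (l : Fin 3) :
    exs (lt l) (W v) = if v.2.2.2 = l then 1 else 0 := by
  rw [exs_W, if_neg (lt_ne0 l).symm, if_neg (lt_ne1 l).symm, if_neg (lt_ne2 l).symm]
  by_cases h : v.2.2.2 = l
  · rw [if_pos (by rw [h]), if_pos h]; ring
  · rw [if_neg (fun h' => h (lt_inj _ _ h')), if_neg h]; ring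

theorem exs_W_0 (v : Idx) : exs 0 (W v) = v.1 := by
  rw [exs_W, if_neg (lt_ne0 _)]; simp

theorem exs_W_1 (v : Idx) : exs 1 (W v) = v.2.1 := by
  rw [exs_W, if_neg (lt_ne1 _)]; simp

theorem exs_W_2 (v : Idx) : exs 2 (W v) = v.2.2.1 := by
  rw [exs_W, if_neg (lt_ne2 _)]; simp

theorem exs_W_self (v : Idx) : exs (lt v.2.2.2) (W v) = 1 := by
  rw [exs_W_lt, if_pos rfl]

theorem W_inj {v u : Idx} (h : ∀ a, exs a (W v) = exs a (W u)) : v = u := by
  have h0 := h 0
  have h1 := h 1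
  have h2 := h 2
  have h3 := h (lt u.2.2.2)
  rw [exs_W_0, exs_W_0] at h0
  rw [exs_W_1, exs_W_1] at h1
  rw [exs_W_2, exs_W_2] at h2
  rw [exs_W_self, exs_W_lt] at h3
  have h4 : v.2.2.2 = u.2.2.2 := by
    by_contra h4
    rw [if_neg h4] at h3
    omega
  obtain ⟨a, b, c, d⟩ := v
  obtain ⟨a', b', c', d'⟩ := u
  simp only at h0 h1 h2 h4
  rw [h0, h1, h2, h4]

theorem W_comm {v u : Idx} {g : F} (h : W v * (g * W u * g⁻¹) = (g * W u * g⁻¹) * W v) :
    v = u := by
  obtain ⟨k, hk⟩ := root_of_exs (exs_W_self v) _ h.symm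
  have h1 : ∀ a, exs a (W u) = k * exs a (W v) := by
    intro a
    rw [← exs_conj a g, hk, exs_zpow]
  have h2 := h1 (lt u.2.2.2)
  rw [exs_W_self, exs_W_lt] at h2
  have h3 : k = 1 := by
    by_cases h4 : v.2.2.2 = u.2.2.2
    · rw [if_pos h4] at h2; omega
    · rw [if_neg h4] at h2; omega
  apply W_inj
  intro a
  rw [h1 a, h3, one_mul]

/-- the set of words given by a set of indices is good -/
theorem good (J : Set Idx) : Good (W '' J) where
  ne_one := by
    rintro w ⟨v, _, rfl⟩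
    exact ne_one_of_exs (exs_W_self v)
  sep := by
    rintro w ⟨v, _, rfl⟩ w' ⟨u, _, rfl⟩ g h
    have e := W_comm h
    subst e
    refine ⟨rfl, ?_⟩
    obtain ⟨k, hk⟩ := root_of_exs (exs_W_self v) _ h.symm
    have h1 : exs (lt v.2.2.2) (g * W v * g⁻¹) = exs (lt v.2.2.2) (W v ^ k) := by rw [hk]
    rw [exs_conj, exs_zpow, exs_W_self, mul_one] at h1
    rw [← h1, zpow_one] at hk
    apply root_of_exs (exs_W_self v)
    have h2 : g * W v * g⁻¹ * g = W v * g := by rw [hk]
    rwa [inv_mul_cancel_right] at h2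

theorem not_comm_of_exs {z : F} (h1 : z ≠ 1) (h : ∀ l, exs (lt l) z = 0) (v : Idx) (g : F) :
    W v * (g * z * g⁻¹) ≠ (g * z * g⁻¹) * W v := by
  intro hc
  obtain ⟨k, hk⟩ := root_of_exs (exs_W_self v) _ hc.symm
  have h2 : exs (lt v.2.2.2) (g * z * g⁻¹) = exs (lt v.2.2.2) (W v ^ k) := by rw [hk]
  rw [exs_conj, exs_zpow, exs_W_self, mul_one, h] at h2
  rw [← h2, zpow_zero, mul_inv_eq_one, mul_eq_left] at hk
  exact h1 hk

/-- the group -/
abbrev GJ (J : Set Idx) := Gs (W '' J)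

noncomputable def cs (J : Set Idx) : F →* GJ J := cst (W '' J)

theorem cs_inj (J : Set Idx) : Function.Injective (cs J) := cst_injective _

theorem treeFree_GJ (J : Set Idx) : TreeFree (GJ J) := treeFree_Gs _

/-- `NC` holds exactly for the words with indices in `J` -/
theorem nc_iff (J : Set Idx) (v : Idx) : NC (cs J (W v)) ↔ v ∈ J := by
  constructor
  · intro h
    by_contra hv
    apply not_nc (good J) (z := W v) _ _ h
    · rintro w ⟨u, hu, rfl⟩ g hc
      exact hv ((W_comm hc) ▸ hu)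
    · exact fun x hx => root_of_exs (exs_W_self v) x hx
  · intro h
    exact nc_of_mem (good J) (Set.mem_image_of_mem _ h)

/-- centralizers of the first three generators -/
theorem cent_gen (J : Set Idx) (b : Fin 6) (hb : ∀ l, b ≠ lt l) (x : GJ J)
    (h : x * cs J (of b) = cs J (of b) * x) : ∃ k : ℤ, x = cs J (of b ^ k) := by
  have hb1 : exs b (of b) = 1 := by rw [exs_of, if_pos rfl]
  obtain ⟨y, hy, hc⟩ := eq_cst_of_commute (good J) (z := of b) (by
    rintro w ⟨u, hu, rfl⟩ g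
    apply not_comm_of_exs (ne_one_of_exs hb1)
    intro l
    rw [exs_of, if_neg (hb l)]) x h
  obtain ⟨k, hk⟩ := root_of_exs hb1 y hc
  exact ⟨k, by rw [hy, hk]; rfl⟩

end Pool.Agent.Helper180.Words
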