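import Mathlib
import Pool.Agent.Helper180.Defs
import Pool.Agent.Helper180.Words

set_option linter.unusedVariables false
set_option linter.unusedSimpArgs false
set_option linter.unusedSectionVars false

namespace Pool.Agent.Helper180.Logic

open Pool.Agent.Helper180.Defs Pool.Agent.Helper180.GroupS Pool.Agent.Helper180.Words

/-- all variables of the term are smaller than `N` -/
def bd (N : ℕ) : Term → Prop
  | .var n => n < N
  | .one => True
  | .mul s t => bd N s ∧ bd N t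
  | .inv t => bd N t

theorem eval_update {G : Type} [Group G] (v : ℕ → G) (k : ℕ) (g : G) :
    ∀ t : Term, bd k t → t.eval (Function.update v k g) = t.eval v
  | .var n, h => by
      have h : n < k := h
      simp only [Term.eval]
      rw [Function.update_of_ne (by omega)]
  | .one, _ => rfl
  | .mul s t, h => by
      simp only [Term.eval]
      rw [eval_update v k g s h.1, eval_update v k g t h.2]
  | .inv t, h => by
      simp only [Term.eval]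
      rw [eval_update v k g t h]

theorem bd_mono {N M : ℕ} (hNM : N ≤ M) : ∀ t : Term, bd N t → bd M t
  | .var n, h => lt_of_lt_of_le h hNM
  | .one, _ => trivial
  | .mul s t, h => ⟨bd_mono hNM s h.1, bd_mono hNM t h.2⟩
  | .inv t, h => bd_mono hNM t h

/-- powers of a term -/
def pw (t : Term) : ℕ → Term
  | 0 => .one
  | k + 1 => .mul (pw t k) t

theorem eval_pw {G : Type} [Group G] (v : ℕ → G) (t : Term) : ∀ k, (pw t k).eval v = (t.eval v) ^ k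
  | 0 => by simp [pw, Term.eval]
  | k + 1 => by simp [pw, Term.eval, eval_pw v t k, pow_succ]

theorem bd_pw (N : ℕ) (t : Term) (h : bd N t) : ∀ k, bd N (pw t k)
  | 0 => trivial
  | k + 1 => ⟨bd_pw N t h k, h⟩

/-- commutation formula -/
def cm (s t : Term) : Formula := .eq (.mul s t) (.mul t s)

theorem holds_cm {G : Type} [Group G] (v : ℕ → G) (s t : Term) :
    (cm s t).Holds v ↔ s.eval v * t.eval v = t.eval v * s.eval v := Iff.rfl

/-- formula for `NC` -/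
def ncF (w : Term) : Formula :=
  .ex 22 (.and (cm (.var 22) w)
    (.and (.neg (.ex 23 (.eq (.mul (.var 23) (.var 23)) (.var 22))))
      (.neg (.ex 23 (.eq (.mul (.var 23) (.var 23)) (.mul (.var 22) w))))))

theorem holds_ncF {G : Type} [Group G] (v : ℕ → G) (w : Term) (hw : bd 22 w) :
    (ncF w).Holds v ↔ NC (w.eval v) := by
  have h1 : ∀ g, w.eval (Function.update v 22 g) = w.eval v := fun g => eval_update v 22 g w hw
  have h2 : ∀ g h, w.eval (Function.update (Function.update v 22 g) 23 h) = w.eval v := by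
    intro g h
    rw [eval_update _ 23 h w (bd_mono (by norm_num) w hw), h1]
  simp only [ncF, cm, Formula.Holds, Term.eval, NC, h1, h2, Function.update_self]
  have h3 : ∀ (g h : G), Function.update (Function.update v 22 g) 23 h 22 = g := by
    intro g h
    rw [Function.update_of_ne (by norm_num), Function.update_self]
  simp only [h3]

/-- the ternary relation coded in the group -/
def Rel {G : Type} [Group G] (p2 p3 e2 e3 c : G) (x y z : G) : Prop :=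
  ∃ y' z' : G, y' * p2 = p2 * y' ∧ z' * p3 = p3 * z' ∧
    NC (y * y' * e2) ∧ NC (z * z' * e3) ∧ NC (x * y' * z' * c)

/-- formula for `Rel` -/
def rF (x y z : Term) : Formula :=
  .ex 20 (.ex 21 (.and (cm (.var 20) (.var 1)) (.and (cm (.var 21) (.var 2))
    (.and (ncF (.mul (.mul y (.var 20)) (.var 3)))
      (.and (ncF (.mul (.mul z (.var 21)) (.var 4)))
        (ncF (.mul (.mul (.mul x (.var 20)) (.var 21)) (.var 5))))))))

theorem holds_rF {G : Type} [Group G] (v : ℕ → G) (x y z : Term) (hx : bd 20 x) (hy : bd 20 y)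
    (hz : bd 20 z) : (rF x y z).Holds v ↔
      Rel (v 1) (v 2) (v 3) (v 4) (v 5) (x.eval v) (y.eval v) (z.eval v) := by
  have h2 : ∀ (t : Term), bd 20 t → ∀ g h,
      t.eval (Function.update (Function.update v 20 g) 21 h) = t.eval v := by
    intro t ht g h
    rw [eval_update _ 21 h t (bd_mono (by norm_num) t ht), eval_update _ 20 g t ht]
  have h20 : ∀ (g h : G), Function.update (Function.update v 20 g) 21 h 20 = g := by
    intro g h
    rw [Function.update_of_ne (by norm_num), Function.update_self]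
  have h21 : ∀ (g h : G), Function.update (Function.update v 20 g) 21 h 21 = h := by
    intro g h
    rw [Function.update_self]
  have hlow : ∀ (k : ℕ), k < 20 → ∀ (g h : G),
      Function.update (Function.update v 20 g) 21 h k = v k := by
    intro k hk g h
    rw [Function.update_of_ne (by omega), Function.update_of_ne (by omega)]
  have b1 : bd 22 (.mul (.mul y (.var 20)) (.var 3)) :=
    ⟨⟨bd_mono (by norm_num) y hy, by norm_num [bd]⟩, by norm_num [bd]⟩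
  have b2 : bd 22 (.mul (.mul z (.var 21)) (.var 4)) :=
    ⟨⟨bd_mono (by norm_num) z hz, by norm_num [bd]⟩, by norm_num [bd]⟩
  have b3 : bd 22 (.mul (.mul (.mul x (.var 20)) (.var 21)) (.var 5)) :=
    ⟨⟨⟨bd_mono (by norm_num) x hx, by norm_num [bd]⟩, by norm_num [bd]⟩, by norm_num [bd]⟩
  simp only [rF, Formula.Holds, holds_cm, holds_ncF _ _ b1, holds_ncF _ _ b2, holds_ncF _ _ b3,
    Term.eval, h2 x hx, h2 y hy, h2 z hz, h20, h21, hlow 1 (by norm_num), hlow 2 (by norm_num),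
    hlow 3 (by norm_num), hlow 4 (by norm_num), hlow 5 (by norm_num), Rel]

/-- quantifier over the centralizer of `v 0` -/
def allD (k : ℕ) (φ : Formula) : Formula := .all k (.imp (cm (.var k) (.var 0)) φ)

theorem holds_allD {G : Type} [Group G] (v : ℕ → G) (k : ℕ) (hk : k ≠ 0) (φ : Formula) :
    (allD k φ).Holds v ↔ ∀ g : G, g * v 0 = v 0 * g → φ.Holds (Function.update v k g) := by
  simp only [allD, Formula.Holds, holds_cm, Term.eval, Function.update_self,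
    Function.update_of_ne (Ne.symm hk)]

section Axioms

variable {G : Type} [Group G]

/-- the axioms for evaluation of codes -/
structure Ax (p : G) (R : G → G → G → Prop) : Prop where
  a0 : R 1 1 1
  a1 : ∀ x, x * p = p * x → R 1 x 1 → R 1 (x * p) 1
  a2 : ∀ x, x * p = p * x → R 1 x 1 → R p x (x * p)
  a3 : R (p ^ 2) 1 1 ∧ R (p ^ 3) 1 1
  a4 : ∀ a, a * p = p * a → ∀ x, x * p = p * x → ∀ n, n * p = p * n →
    R 1 a 1 ∧ R 1 x 1 ∧ R (p ^ 2) n a ∧ R (p ^ 3) n (a * x * p ^ 2) →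
      R (p ^ 2) (n * p) (a * p) ∧ R (p ^ 3) (n * p) (a * x * p ^ 2)
  a5 : ∀ a, a * p = p * a → ∀ n, n * p = p * n →
    R (p ^ 2) n a ∧ R (p ^ 3) n (a * p) →
      R (p ^ 2) (n * p) (a * p) ∧ R (p ^ 3) (n * p) 1
  a6 : ∀ a, a * p = p * a → ∀ x, x * p = p * x → ∀ n, n * p = p * n →
    R 1 a 1 ∧ R 1 x 1 ∧ R (p ^ 2) n (a * x * p) ∧ R (p ^ 3) n a →
      R (p ^ 2) (n * p) (a * x * p) ∧ R (p ^ 3) (n * p) (a * p)
  a7 : ∀ a, a * p = p * a → ∀ n, n * p = p * n →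
    R (p ^ 2) n a ∧ R (p ^ 3) n a →
      R (p ^ 2) (n * p) 1 ∧ R (p ^ 3) (n * p) (a * p)
  a8 : ∀ f, f * p = p * f → ∀ g, g * p = p * g → ∀ k, k * p = p * k → ∀ n, n * p = p * n →
    ∀ a, a * p = p * a → ∀ b, b * p = p * b → ∀ m, m * p = p * m →
    R (p ^ 2) k f ∧ R (p ^ 3) k g ∧ R f n a ∧ R g n b ∧ R (p ^ 2) m a ∧ R (p ^ 3) m b →
      R (k ^ 4 * p ^ 4) n m
  a9 : ∀ f, f * p = p * f → ∀ g, g * p = p * g → ∀ k, k * p = p * k → ∀ n, n * p = p * n →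
    ∀ a, a * p = p * a → ∀ m, m * p = p * m →
    R (p ^ 2) k f ∧ R (p ^ 3) k g ∧ R g n a ∧ R f a m → R (k ^ 4 * p ^ 6) n m
  a10 : ∀ f, f * p = p * f → ∀ g, g * p = p * g → ∀ k, k * p = p * k → ∀ n, n * p = p * n →
    ∀ a, a * p = p * a → ∀ m, m * p = p * m →
    R (p ^ 2) k f ∧ R (p ^ 3) k g ∧ R (p ^ 2) n a ∧ R (p ^ 3) n 1 ∧ R f a m →
      R (k ^ 4 * p ^ 5) n m
  a11 : ∀ f, f * p = p * f → ∀ g, g * p = p * g → ∀ k, k * p = p * k → ∀ a, a * p = p * a →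
    ∀ y, y * p = p * y → ∀ n, n * p = p * n → ∀ i, i * p = p * i → ∀ j, j * p = p * j →
    ∀ l, l * p = p * l → ∀ m, m * p = p * m → ∀ n', n' * p = p * n' →
    R (p ^ 2) k f ∧ R (p ^ 3) k g ∧ R (p ^ 2) n a ∧ R (p ^ 3) n y ∧ R (k ^ 4 * p ^ 5) n i ∧
      R (p ^ 2) j y ∧ R (p ^ 3) j i ∧ R (p ^ 2) l a ∧ R (p ^ 3) l j ∧ R g l m ∧
      R (p ^ 2) n' a ∧ R (p ^ 3) n' (y * p) → R (k ^ 4 * p ^ 5) n' m
  a12 : ∀ f, f * p = p * f → ∀ a, a * p = p * a → ∀ m, m * p = p * m → ∀ n, n * p = p * n →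
    R (p ^ 2) n a ∧ R (p ^ 3) n m ∧ R f n 1 → R (f ^ 4 * p ^ 7) n m
  a13 : ∀ f, f * p = p * f → ∀ a, a * p = p * a → ∀ m, m * p = p * m → ∀ n, n * p = p * n →
    ∀ y, y * p = p * y → ∀ n', n' * p = p * n' → ∀ r, r * p = p * r →
    R (p ^ 2) n a ∧ R (p ^ 3) n m ∧ R 1 y 1 ∧ R f n (y * p) ∧ R (p ^ 2) n' a ∧
      R (p ^ 3) n' (m * p) ∧ R (f ^ 4 * p ^ 7) n' r → R (f ^ 4 * p ^ 7) n r

end Axioms

/-- short names -/
abbrev x (n : ℕ) : Term := .var n
abbrev P : Term := .var 0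
abbrev mt (s t : Term) : Term := .mul s t

def f0 : Formula := rF .one .one .one
def f1 : Formula := allD 6 (.imp (rF .one (x 6) .one) (rF .one (mt (x 6) P) .one))
def f2 : Formula := allD 6 (.imp (rF .one (x 6) .one) (rF P (x 6) (mt (x 6) P)))
def f3 : Formula := .and (rF (pw P 2) .one .one) (rF (pw P 3) .one .one)
def f4 : Formula := allD 6 (allD 7 (allD 8 (.imp
  (.and (rF .one (x 6) .one) (.and (rF .one (x 7) .one) (.and (rF (pw P 2) (x 8) (x 6))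
    (rF (pw P 3) (x 8) (mt (mt (x 6) (x 7)) (pw P 2))))))
  (.and (rF (pw P 2) (mt (x 8) P) (mt (x 6) P))
    (rF (pw P 3) (mt (x 8) P) (mt (mt (x 6) (x 7)) (pw P 2)))))))
def f5 : Formula := allD 6 (allD 7 (.imp
  (.and (rF (pw P 2) (x 7) (x 6)) (rF (pw P 3) (x 7) (mt (x 6) P)))
  (.and (rF (pw P 2) (mt (x 7) P) (mt (x 6) P)) (rF (pw P 3) (mt (x 7) P) .one))))
def f6 : Formula := allD 6 (allD 7 (allD 8 (.imp
  (.and (rF .one (x 6) .one) (.and (rF .one (x 7) .one)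
    (.and (rF (pw P 2) (x 8) (mt (mt (x 6) (x 7)) P)) (rF (pw P 3) (x 8) (x 6)))))
  (.and (rF (pw P 2) (mt (x 8) P) (mt (mt (x 6) (x 7)) P))
    (rF (pw P 3) (mt (x 8) P) (mt (x 6) P))))))
def f7 : Formula := allD 6 (allD 7 (.imp
  (.and (rF (pw P 2) (x 7) (x 6)) (rF (pw P 3) (x 7) (x 6)))
  (.and (rF (pw P 2) (mt (x 7) P) .one) (rF (pw P 3) (mt (x 7) P) (mt (x 6) P)))))
def f8 : Formula := allD 6 (allD 7 (allD 8 (allD 9 (allD 10 (allD 11 (allD 12 (.imp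
  (.and (rF (pw P 2) (x 8) (x 6)) (.and (rF (pw P 3) (x 8) (x 7))
    (.and (rF (x 6) (x 9) (x 10)) (.and (rF (x 7) (x 9) (x 11))
      (.and (rF (pw P 2) (x 12) (x 10)) (rF (pw P 3) (x 12) (x 11)))))))
  (rF (mt (pw (x 8) 4) (pw P 4)) (x 9) (x 12)))))))))
def f9 : Formula := allD 6 (allD 7 (allD 8 (allD 9 (allD 10 (allD 11 (.imp
  (.and (rF (pw P 2) (x 8) (x 6)) (.and (rF (pw P 3) (x 8) (x 7))
    (.and (rF (x 7) (x 9) (x 10)) (rF (x 6) (x 10) (x 11)))))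
  (rF (mt (pw (x 8) 4) (pw P 6)) (x 9) (x 11))))))))
def f10 : Formula := allD 6 (allD 7 (allD 8 (allD 9 (allD 10 (allD 11 (.imp
  (.and (rF (pw P 2) (x 8) (x 6)) (.and (rF (pw P 3) (x 8) (x 7))
    (.and (rF (pw P 2) (x 9) (x 10)) (.and (rF (pw P 3) (x 9) .one)
      (rF (x 6) (x 10) (x 11))))))
  (rF (mt (pw (x 8) 4) (pw P 5)) (x 9) (x 11))))))))
/- variables of `f11`: f 6, g 7, k 8, a 9, y 10, n 11, i 12, j 13, l 14, m 15, n' 16 -/
def f11 : Formula := allD 6 (allD 7 (allD 8 (allD 9 (allD 10 (allD 11 (allD 12 (allD 13 (allD 14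
  (allD 15 (allD 16 (.imp
  (.and (rF (pw P 2) (x 8) (x 6)) (.and (rF (pw P 3) (x 8) (x 7))
    (.and (rF (pw P 2) (x 11) (x 9)) (.and (rF (pw P 3) (x 11) (x 10))
      (.and (rF (mt (pw (x 8) 4) (pw P 5)) (x 11) (x 12))
        (.and (rF (pw P 2) (x 13) (x 10)) (.and (rF (pw P 3) (x 13) (x 12))
          (.and (rF (pw P 2) (x 14) (x 9)) (.and (rF (pw P 3) (x 14) (x 13))
            (.and (rF (x 7) (x 14) (x 15)) (.and (rF (pw P 2) (x 16) (x 9))
              (rF (pw P 3) (x 16) (mt (x 10) P)))))))))))))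
  (rF (mt (pw (x 8) 4) (pw P 5)) (x 16) (x 15)))))))))))))
/- variables of `f12`: f 6, a 7, m 8, n 9 -/
def f12 : Formula := allD 6 (allD 7 (allD 8 (allD 9 (.imp
  (.and (rF (pw P 2) (x 9) (x 7)) (.and (rF (pw P 3) (x 9) (x 8)) (rF (x 6) (x 9) .one)))
  (rF (mt (pw (x 6) 4) (pw P 7)) (x 9) (x 8))))))
/- variables of `f13`: f 6, a 7, m 8, n 9, y 10, n' 11, r 12 -/
def f13 : Formula := allD 6 (allD 7 (allD 8 (allD 9 (allD 10 (allD 11 (allD 12 (.imp
  (.and (rF (pw P 2) (x 9) (x 7)) (.and (rF (pw P 3) (x 9) (x 8))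
    (.and (rF .one (x 10) .one) (.and (rF (x 6) (x 9) (mt (x 10) P))
      (.and (rF (pw P 2) (x 11) (x 7)) (.and (rF (pw P 3) (x 11) (mt (x 8) P))
        (rF (mt (pw (x 6) 4) (pw P 7)) (x 11) (x 12))))))))
  (rF (mt (pw (x 6) 4) (pw P 7)) (x 9) (x 12)))))))))

def axF : Formula := .and f0 (.and f1 (.and f2 (.and f3 (.and f4 (.and f5 (.and f6 (.and f7
  (.and f8 (.and f9 (.and f10 (.and f11 (.and f12 f13))))))))))))

section Holds

variable {G : Type} [Group G] (v : ℕ → G)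

/-- the relation given by the parameters -/
def RR (v : ℕ → G) : G → G → G → Prop := Rel (v 1) (v 2) (v 3) (v 4) (v 5)

theorem holds_rF' (x y z : Term) (hx : bd 20 x) (hy : bd 20 y)
    (hz : bd 20 z) : (rF x y z).Holds v ↔ RR v (x.eval v) (y.eval v) (z.eval v) :=
  holds_rF v x y z hx hy hz

theorem RR_update (k : ℕ) (hk : 6 ≤ k) (g : G) : RR (Function.update v k g) = RR v := by
  unfold RR
  rw [Function.update_of_ne (by omega), Function.update_of_ne (by omega),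
    Function.update_of_ne (by omega), Function.update_of_ne (by omega),
    Function.update_of_ne (by omega)]

theorem h0 : f0.Holds v ↔ (RR v 1 1 1) := by
  simp [f0, holds_allD, holds_rF', bd, bd_pw, Term.eval, eval_pw, RR_update, Formula.Holds,
    Function.update_of_ne]

theorem h1 : f1.Holds v ↔ (∀ x, x * (v 0) = (v 0) * x → RR v 1 x 1 → RR v 1 (x * (v 0)) 1) := by
  simp [f1, holds_allD, holds_rF', bd, bd_pw, Term.eval, eval_pw, RR_update, Formula.Holds,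
    Function.update_of_ne]

theorem h2 : f2.Holds v ↔ (∀ x, x * (v 0) = (v 0) * x → RR v 1 x 1 → RR v (v 0) x (x * (v 0))) := by
  simp [f2, holds_allD, holds_rF', bd, bd_pw, Term.eval, eval_pw, RR_update, Formula.Holds,
    Function.update_of_ne]

theorem h3 : f3.Holds v ↔ (RR v ((v 0) ^ 2) 1 1 ∧ RR v ((v 0) ^ 3) 1 1) := by
  simp [f3, holds_allD, holds_rF', bd, bd_pw, Term.eval, eval_pw, RR_update, Formula.Holds,
    Function.update_of_ne]

theorem h4 : f4.Holds v ↔ (∀ a, a * (v 0) = (v 0) * a → ∀ x, x * (v 0) = (v 0) * x → ∀ n, n * (v 0) = (v 0) * n →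
    RR v 1 a 1 ∧ RR v 1 x 1 ∧ RR v ((v 0) ^ 2) n a ∧ RR v ((v 0) ^ 3) n (a * x * (v 0) ^ 2) →
      RR v ((v 0) ^ 2) (n * (v 0)) (a * (v 0)) ∧ RR v ((v 0) ^ 3) (n * (v 0)) (a * x * (v 0) ^ 2)) := by
  simp [f4, holds_allD, holds_rF', bd, bd_pw, Term.eval, eval_pw, RR_update, Formula.Holds,
    Function.update_of_ne]

theorem h5 : f5.Holds v ↔ (∀ a, a * (v 0) = (v 0) * a → ∀ n, n * (v 0) = (v 0) * n →
    RR v ((v 0) ^ 2) n a ∧ RR v ((v 0) ^ 3) n (a * (v 0)) →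
      RR v ((v 0) ^ 2) (n * (v 0)) (a * (v 0)) ∧ RR v ((v 0) ^ 3) (n * (v 0)) 1) := by
  simp [f5, holds_allD, holds_rF', bd, bd_pw, Term.eval, eval_pw, RR_update, Formula.Holds,
    Function.update_of_ne]

theorem h6 : f6.Holds v ↔ (∀ a, a * (v 0) = (v 0) * a → ∀ x, x * (v 0) = (v 0) * x → ∀ n, n * (v 0) = (v 0) * n →
    RR v 1 a 1 ∧ RR v 1 x 1 ∧ RR v ((v 0) ^ 2) n (a * x * (v 0)) ∧ RR v ((v 0) ^ 3) n a →
      RR v ((v 0) ^ 2) (n * (v 0)) (a * x * (v 0)) ∧ RR v ((v 0) ^ 3) (n * (v 0)) (a * (v 0))) := by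
  simp [f6, holds_allD, holds_rF', bd, bd_pw, Term.eval, eval_pw, RR_update, Formula.Holds,
    Function.update_of_ne]

theorem h7 : f7.Holds v ↔ (∀ a, a * (v 0) = (v 0) * a → ∀ n, n * (v 0) = (v 0) * n →
    RR v ((v 0) ^ 2) n a ∧ RR v ((v 0) ^ 3) n a →
      RR v ((v 0) ^ 2) (n * (v 0)) 1 ∧ RR v ((v 0) ^ 3) (n * (v 0)) (a * (v 0))) := by
  simp [f7, holds_allD, holds_rF', bd, bd_pw, Term.eval, eval_pw, RR_update, Formula.Holds,
    Function.update_of_ne]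

theorem h8 : f8.Holds v ↔ (∀ f, f * (v 0) = (v 0) * f → ∀ g, g * (v 0) = (v 0) * g → ∀ k, k * (v 0) = (v 0) * k → ∀ n, n * (v 0) = (v 0) * n →
    ∀ a, a * (v 0) = (v 0) * a → ∀ b, b * (v 0) = (v 0) * b → ∀ m, m * (v 0) = (v 0) * m →
    RR v ((v 0) ^ 2) k f ∧ RR v ((v 0) ^ 3) k g ∧ RR v f n a ∧ RR v g n b ∧ RR v ((v 0) ^ 2) m a ∧ RR v ((v 0) ^ 3) m b →
      RR v (k ^ 4 * (v 0) ^ 4) n m) := by
  simp [f8, holds_allD, holds_rF', bd, bd_pw, Term.eval, eval_pw, RR_update, Formula.Holds,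
    Function.update_of_ne]

theorem h9 : f9.Holds v ↔ (∀ f, f * (v 0) = (v 0) * f → ∀ g, g * (v 0) = (v 0) * g → ∀ k, k * (v 0) = (v 0) * k → ∀ n, n * (v 0) = (v 0) * n →
    ∀ a, a * (v 0) = (v 0) * a → ∀ m, m * (v 0) = (v 0) * m →
    RR v ((v 0) ^ 2) k f ∧ RR v ((v 0) ^ 3) k g ∧ RR v g n a ∧ RR v f a m → RR v (k ^ 4 * (v 0) ^ 6) n m) := by
  simp [f9, holds_allD, holds_rF', bd, bd_pw, Term.eval, eval_pw, RR_update, Formula.Holds,
    Function.update_of_ne]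

theorem h10 : f10.Holds v ↔ (∀ f, f * (v 0) = (v 0) * f → ∀ g, g * (v 0) = (v 0) * g → ∀ k, k * (v 0) = (v 0) * k → ∀ n, n * (v 0) = (v 0) * n →
    ∀ a, a * (v 0) = (v 0) * a → ∀ m, m * (v 0) = (v 0) * m →
    RR v ((v 0) ^ 2) k f ∧ RR v ((v 0) ^ 3) k g ∧ RR v ((v 0) ^ 2) n a ∧ RR v ((v 0) ^ 3) n 1 ∧ RR v f a m →
      RR v (k ^ 4 * (v 0) ^ 5) n m) := by
  simp [f10, holds_allD, holds_rF', bd, bd_pw, Term.eval, eval_pw, RR_update, Formula.Holds,
    Function.update_of_ne]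

theorem h11 : f11.Holds v ↔ (∀ f, f * (v 0) = (v 0) * f → ∀ g, g * (v 0) = (v 0) * g → ∀ k, k * (v 0) = (v 0) * k → ∀ a, a * (v 0) = (v 0) * a →
    ∀ y, y * (v 0) = (v 0) * y → ∀ n, n * (v 0) = (v 0) * n → ∀ i, i * (v 0) = (v 0) * i → ∀ j, j * (v 0) = (v 0) * j →
    ∀ l, l * (v 0) = (v 0) * l → ∀ m, m * (v 0) = (v 0) * m → ∀ n', n' * (v 0) = (v 0) * n' →
    RR v ((v 0) ^ 2) k f ∧ RR v ((v 0) ^ 3) k g ∧ RR v ((v 0) ^ 2) n a ∧ RR v ((v 0) ^ 3) n y ∧ RR v (k ^ 4 * (v 0) ^ 5) n i ∧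
      RR v ((v 0) ^ 2) j y ∧ RR v ((v 0) ^ 3) j i ∧ RR v ((v 0) ^ 2) l a ∧ RR v ((v 0) ^ 3) l j ∧ RR v g l m ∧
      RR v ((v 0) ^ 2) n' a ∧ RR v ((v 0) ^ 3) n' (y * (v 0)) → RR v (k ^ 4 * (v 0) ^ 5) n' m) := by
  simp [f11, holds_allD, holds_rF', bd, bd_pw, Term.eval, eval_pw, RR_update, Formula.Holds,
    Function.update_of_ne]

theorem h12 : f12.Holds v ↔ (∀ f, f * (v 0) = (v 0) * f → ∀ a, a * (v 0) = (v 0) * a → ∀ m, m * (v 0) = (v 0) * m → ∀ n, n * (v 0) = (v 0) * n →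
    RR v ((v 0) ^ 2) n a ∧ RR v ((v 0) ^ 3) n m ∧ RR v f n 1 → RR v (f ^ 4 * (v 0) ^ 7) n m) := by
  simp [f12, holds_allD, holds_rF', bd, bd_pw, Term.eval, eval_pw, RR_update, Formula.Holds,
    Function.update_of_ne]

theorem h13 : f13.Holds v ↔ (∀ f, f * (v 0) = (v 0) * f → ∀ a, a * (v 0) = (v 0) * a → ∀ m, m * (v 0) = (v 0) * m → ∀ n, n * (v 0) = (v 0) * n →
    ∀ y, y * (v 0) = (v 0) * y → ∀ n', n' * (v 0) = (v 0) * n' → ∀ r, r * (v 0) = (v 0) * r →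
    RR v ((v 0) ^ 2) n a ∧ RR v ((v 0) ^ 3) n m ∧ RR v 1 y 1 ∧ RR v f n (y * (v 0)) ∧ RR v ((v 0) ^ 2) n' a ∧
      RR v ((v 0) ^ 3) n' (m * (v 0)) ∧ RR v (f ^ 4 * (v 0) ^ 7) n' r → RR v (f ^ 4 * (v 0) ^ 7) n r) := by
  simp [f13, holds_allD, holds_rF', bd, bd_pw, Term.eval, eval_pw, RR_update, Formula.Holds,
    Function.update_of_ne]

theorem holds_axF : axF.Holds v ↔ Ax (v 0) (RR v) := by
  have e : axF.Holds v ↔ (f0.Holds v ∧ f1.Holds v ∧ f2.Holds v ∧ f3.Holds v ∧ f4.Holds v ∧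
    f5.Holds v ∧ f6.Holds v ∧ f7.Holds v ∧ f8.Holds v ∧ f9.Holds v ∧ f10.Holds v ∧ f11.Holds v ∧
    f12.Holds v ∧ f13.Holds v) := Iff.rfl
  rw [e, h0, h1, h2, h3, h4, h5, h6, h7, h8, h9, h10, h11, h12, h13]
  constructor
  · rintro ⟨a0, a1, a2, a3, a4, a5, a6, a7, a8, a9, a10, a11, a12, a13⟩
    exact ⟨a0, a1, a2, a3, a4, a5, a6, a7, a8, a9, a10, a11, a12, a13⟩
  · rintro ⟨a0, a1, a2, a3, a4, a5, a6, a7, a8, a9, a10, a11, a12, a13⟩
    exact ⟨a0, a1, a2, a3, a4, a5, a6, a7, a8, a9, a10, a11, a12, a13⟩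

end Holds

end Pool.Agent.Helper180.Logic
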