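import Mathlib
import Pool.Agent.Helper180.Logic

set_option linter.unusedVariables false
set_option linter.unusedSimpArgs false
set_option linter.unusedSectionVars false

namespace Pool.Agent.Helper180.Complete

open Pool.Agent.Helper180.Defs Pool.Agent.Helper180.Logic
open Nat.Partrec Nat.Partrec.Code

variable {G : Type} [Group G] {p : G} {R : G → G → G → Prop}

theorem cp (p : G) (n : ℕ) : p ^ n * p = p * p ^ n := (Commute.self_pow p n).eq.symm

theorem natF (h : Ax p R) : ∀ n : ℕ, R 1 (p ^ n) 1
  | 0 => by rw [pow_zero]; exact h.a0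
  | n + 1 => by rw [pow_succ]; exact h.a1 _ (cp p n) (natF h n)

theorem pairF (h : Ax p R) : ∀ n a b : ℕ, Nat.pair a b = n →
    R (p ^ 2) (p ^ n) (p ^ a) ∧ R (p ^ 3) (p ^ n) (p ^ b)
  | 0, a, b, e => by
      have h1 : a = 0 ∧ b = 0 := by
        have := Nat.left_le_pair a b
        have := Nat.right_le_pair a b
        omega
      rw [h1.1, h1.2]
      simpa using h.a3
  | n + 1, a, b, e => by
      obtain ⟨a', b', e'⟩ : ∃ a' b', Nat.pair a' b' = n :=
        ⟨n.unpair.1, n.unpair.2, Nat.pair_unpair n⟩
      have ih := pairF h n a' b' e'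
      rcases lt_trichotomy a' b' with h1 | h1 | h1
      · rcases Nat.lt_or_ge (a' + 1) b' with h2 | h2
        · -- next is `(a' + 1, b')`
          have h3 : Nat.pair (a' + 1) b' = n + 1 := by
            rw [← e']; unfold Nat.pair; rw [if_pos h1, if_pos h2]; ring
          rw [← e] at h3
          obtain ⟨h4, h5⟩ := Nat.pair_eq_pair.1 h3
          obtain ⟨x, hx⟩ := Nat.exists_eq_add_of_lt h2
          have h6 := h.a4 (p ^ a') (cp p a') (p ^ x) (cp p x) (p ^ n) (cp p n)
            ⟨natF h _, natF h _, ih.1, by
              rw [← pow_add, ← pow_add]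
              have : a' + x + 2 = b' := by omega
              rw [this]; exact ih.2⟩
          rw [← pow_add, ← pow_add, ← pow_succ, ← pow_succ] at h6
          have : a' + x + 2 = b' := by omega
          rw [this] at h6
          rw [← h4, ← h5]; exact h6
        · have h3 : Nat.pair b' 0 = n + 1 := by
            rw [← e']; unfold Nat.pair
            have h7 : ¬ b' < 0 := by omega
            rw [if_pos h1, if_neg h7]
            have : b' = a' + 1 := by omega
            rw [this]; ring
          rw [← e] at h3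
          obtain ⟨h4, h5⟩ := Nat.pair_eq_pair.1 h3
          have h8 : b' = a' + 1 := by omega
          have h6 := h.a5 (p ^ a') (cp p a') (p ^ n) (cp p n) ⟨ih.1, by
            rw [← pow_succ, ← h8]; exact ih.2⟩
          rw [← pow_succ, ← pow_succ, ← h8] at h6
          rw [← h4, ← h5, pow_zero]; exact h6
      · have h3 : Nat.pair 0 (b' + 1) = n + 1 := by
          rw [← e', h1]; unfold Nat.pair
          rw [if_pos (by omega), if_neg (by omega)]; ring
        rw [← e] at h3
        obtain ⟨h4, h5⟩ := Nat.pair_eq_pair.1 h3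
        have h6 := h.a7 (p ^ a') (cp p a') (p ^ n) (cp p n) ⟨ih.1, by rw [h1]; exact ih.2⟩
        rw [← pow_succ, ← pow_succ] at h6
        rw [← h4, ← h5, pow_zero, ← h1]; exact h6
      · have h3 : Nat.pair a' (b' + 1) = n + 1 := by
          rw [← e']; unfold Nat.pair
          rw [if_neg (by omega), if_neg (by omega)]; ring
        rw [← e] at h3
        obtain ⟨h4, h5⟩ := Nat.pair_eq_pair.1 h3
        obtain ⟨x, hx⟩ := Nat.exists_eq_add_of_lt h1
        have h6 := h.a6 (p ^ b') (cp p b') (p ^ x) (cp p x) (p ^ n) (cp p n)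
            ⟨natF h _, natF h _, by
              rw [← pow_add, ← pow_succ]
              rw [← hx]; exact ih.1, ih.2⟩
        rw [← pow_add, ← pow_succ, ← pow_succ, ← pow_succ, ← hx] at h6
        rw [← h4, ← h5]; exact h6

theorem pw4 (p : G) (k c : ℕ) : (p ^ k) ^ 4 * p ^ c = p ^ (4 * k + c) := by
  rw [← pow_mul, ← pow_add, mul_comm k 4]

theorem complete (h : Ax p R) : ∀ (c : Code) (n m : ℕ), m ∈ eval c n →
    R (p ^ encodeCode c) (p ^ n) (p ^ m) := by
  intro c
  induction c with
  | zero =>
    intro n m hm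
    have : m = 0 := by simpa [eval, pure, PFun.pure] using hm
    rw [this, encodeCode, pow_zero]
    exact natF h n
  | succ =>
    intro n m hm
    have : m = n + 1 := by simpa [eval] using hm
    rw [this, encodeCode, pow_one, pow_succ]
    exact h.a2 _ (cp p n) (natF h n)
  | left =>
    intro n m hm
    have : m = n.unpair.1 := by simpa [eval] using hm
    rw [this, encodeCode]
    exact (pairF h n n.unpair.1 n.unpair.2 (Nat.pair_unpair n)).1
  | right =>
    intro n m hm
    have : m = n.unpair.2 := by simpa [eval] using hm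
    rw [this, encodeCode]
    exact (pairF h n n.unpair.1 n.unpair.2 (Nat.pair_unpair n)).2
  | pair cf cg ihf ihg =>
    intro n m hm
    have h1 : ∃ a ∈ eval cf n, ∃ b ∈ eval cg n, Nat.pair a b = m := by
      simpa [eval, Seq.seq] using hm
    obtain ⟨a, ha, b, hb, hab⟩ := h1
    have hk := pairF h _ (encodeCode cf) (encodeCode cg) rfl
    have hm' := pairF h _ a b hab
    have := h.a8 _ (cp p (encodeCode cf)) _ (cp p (encodeCode cg)) _ (cp p _) _ (cp p n) _ (cp p a)
      _ (cp p b) _ (cp p m) ⟨hk.1, hk.2, ihf n a ha, ihg n b hb, hm'.1, hm'.2⟩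
    rw [pw4] at this
    have e : encodeCode (pair cf cg) = 4 * Nat.pair (encodeCode cf) (encodeCode cg) + 4 := by
      rw [encodeCode]; ring
    rw [e]; exact this
  | comp cf cg ihf ihg =>
    intro n m hm
    have h1 : ∃ a ∈ eval cg n, m ∈ eval cf a := by
      simpa [eval] using hm
    obtain ⟨a, ha, hb⟩ := h1
    have hk := pairF h _ (encodeCode cf) (encodeCode cg) rfl
    have := h.a9 _ (cp p (encodeCode cf)) _ (cp p (encodeCode cg)) _ (cp p _) _ (cp p n) _ (cp p a)
      _ (cp p m) ⟨hk.1, hk.2, ihg n a ha, ihf a m hb⟩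
    rw [pw4] at this
    have e : encodeCode (comp cf cg) = 4 * Nat.pair (encodeCode cf) (encodeCode cg) + 6 := by
      rw [encodeCode]; ring
    rw [e]; exact this
  | prec cf cg ihf ihg =>
    have hk := pairF h _ (encodeCode cf) (encodeCode cg) rfl
    have e : encodeCode (prec cf cg) = 4 * Nat.pair (encodeCode cf) (encodeCode cg) + 5 := by
      rw [encodeCode]; ring
    have key : ∀ (a y m : ℕ), m ∈ eval (prec cf cg) (Nat.pair a y) →
        R (p ^ encodeCode (prec cf cg)) (p ^ Nat.pair a y) (p ^ m) := by
      intro a y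
      induction y with
      | zero =>
        intro m hm
        rw [eval_prec_zero] at hm
        have hn := pairF h _ a 0 rfl
        rw [pow_zero] at hn
        have := h.a10 _ (cp p (encodeCode cf)) _ (cp p (encodeCode cg)) _ (cp p _) _ (cp p _) _
          (cp p a) _ (cp p m) ⟨hk.1, hk.2, hn.1, hn.2, ihf a m hm⟩
        rw [pw4] at this
        rw [e]; exact this
      | succ y ih =>
        intro m hm
        rw [eval_prec_succ] at hm
        have h1 : ∃ i ∈ eval (prec cf cg) (Nat.pair a y),
            m ∈ eval cg (Nat.pair a (Nat.pair y i)) := by simpa using hm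
        obtain ⟨i, hi, hm⟩ := h1
        have hn := pairF h _ a y rfl
        have hj := pairF h _ y i rfl
        have hl := pairF h _ a (Nat.pair y i) rfl
        have hn' := pairF h _ a (y + 1) rfl
        rw [pow_succ p y] at hn'
        have ih' := ih i hi
        rw [e, ← pw4] at ih'
        have := h.a11 _ (cp p (encodeCode cf)) _ (cp p (encodeCode cg)) _ (cp p _) _ (cp p a) _
          (cp p y) _ (cp p _) _ (cp p i) _ (cp p _) _ (cp p _) _ (cp p m) _ (cp p _)
          ⟨hk.1, hk.2, hn.1, hn.2, ih', hj.1, hj.2, hl.1, hl.2, ihg _ m hm, hn'.1, hn'.2⟩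
        rw [pw4] at this
        rw [e]; exact this
    intro n m hm
    have h2 := key n.unpair.1 n.unpair.2 m (by rwa [Nat.pair_unpair])
    rwa [Nat.pair_unpair] at h2
  | rfind' cf ihf =>
    have e : encodeCode (rfind' cf) = 4 * encodeCode cf + 7 := by
      rw [encodeCode]; ring
    have key : ∀ (r a m : ℕ), 0 ∈ eval cf (Nat.pair a (r + m)) →
        (∀ j < r, ∃ y, (y + 1) ∈ eval cf (Nat.pair a (j + m))) →
        R (p ^ encodeCode (rfind' cf)) (p ^ Nat.pair a m) (p ^ (r + m)) := by
      intro r
      induction r with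
      | zero =>
        intro a m h0 _
        rw [zero_add] at h0 ⊢
        have hn := pairF h _ a m rfl
        have h1 := ihf _ 0 h0
        rw [pow_zero] at h1
        have := h.a12 _ (cp p (encodeCode cf)) _ (cp p a) _ (cp p m) _ (cp p _) ⟨hn.1, hn.2, h1⟩
        rw [pw4] at this
        rw [e]; exact this
      | succ r ih =>
        intro a m h0 hj
        obtain ⟨y, hy⟩ := hj 0 (by omega)
        rw [zero_add] at hy
        have hn := pairF h _ a m rfl
        have hn' := pairF h _ a (m + 1) rfl
        rw [pow_succ p m] at hn'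
        have h1 := ihf _ _ hy
        rw [pow_succ] at h1
        have e1 : r + 1 + m = r + (m + 1) := by ring
        rw [e1] at h0 ⊢
        have h2 := ih a (m + 1) h0 (by
          intro j hj'
          obtain ⟨y, hy⟩ := hj (j + 1) (by omega)
          refine ⟨y, ?_⟩
          have e2 : j + (m + 1) = j + 1 + m := by ring
          rw [e2]; exact hy)
        rw [e, ← pw4] at h2
        have := h.a13 _ (cp p (encodeCode cf)) _ (cp p a) _ (cp p m) _ (cp p _) _ (cp p y) _
          (cp p _) _ (cp p _) ⟨hn.1, hn.2, natF h y, h1, hn'.1, hn'.2, h2⟩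
        rw [pw4] at this
        rw [e]; exact this
    intro n m hm
    have h1 : ∃ r, (0 ∈ eval cf (Nat.pair n.unpair.1 (r + n.unpair.2)) ∧
        ∀ j < r, ∃ y, (y + 1) ∈ eval cf (Nat.pair n.unpair.1 (j + n.unpair.2))) ∧
        r + n.unpair.2 = m := by
      simp only [eval, Nat.unpaired, Part.mem_map_iff, Nat.mem_rfind] at hm
      obtain ⟨r, ⟨hz, hlt⟩, hr⟩ := hm
      refine ⟨r, ⟨?_, ?_⟩, hr⟩
      · rw [Part.map_eq_map, Part.mem_map_iff] at hz
        obtain ⟨z, hz, hz'⟩ := hz
        have : z = 0 := by simpa using hz'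
        rw [← this]; exact hz
      · intro j hj
        have hlt' := hlt hj
        rw [Part.map_eq_map, Part.mem_map_iff] at hlt'
        obtain ⟨z, hz, hz'⟩ := hlt'
        have : z ≠ 0 := by simpa using hz'
        obtain ⟨y, rfl⟩ := Nat.exists_eq_succ_of_ne_zero this
        exact ⟨y, hz⟩
    obtain ⟨r, ⟨h2, h3⟩, rfl⟩ := h1
    have h4 := key r n.unpair.1 n.unpair.2 h2 h3
    rwa [Nat.pair_unpair] at h4

end Pool.Agent.Helper180.Complete
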