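import Mathlib
import Pool.Agent.Helper180.Defs
import Pool.Agent.Helper180.ArithDef

/-! First-order definability in a group, with named variables. -/

namespace Pool.Agent.Helper180.FO

open Pool.Agent.Helper180.Defs Pool.Agent.Helper180.ArithDef

variable {G : Type} [Group G]

theorem eval_congr (t : Term) {v v' : ℕ → G} (h : ∀ n ∈ t.vars, v n = v' n) :
    t.eval v = t.eval v' := by
  induction t with
  | var n => exact h n (by simp [Term.vars])
  | one => rfl
  | mul s t ihs iht =>
    simp only [Term.eval]
    rw [ihs (fun n hn => h n (by simp [Term.vars, hn])),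
      iht (fun n hn => h n (by simp [Term.vars, hn]))]
  | inv t ih =>
    simp only [Term.eval]
    rw [ih (fun n hn => h n (by simpa [Term.vars] using hn))]

theorem holds_congr (φ : Formula) : ∀ {v v' : ℕ → G}, (∀ n ∈ φ.free, v n = v' n) →
    (φ.Holds v ↔ φ.Holds v') := by
  induction φ with
  | eq s t =>
    intro v v' h
    simp only [Formula.Holds]
    rw [eval_congr s (fun n hn => h n (by simp [Formula.free, hn])),
      eval_congr t (fun n hn => h n (by simp [Formula.free, hn]))]
  | neg φ ih =>
    intro v v' h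
    simp only [Formula.Holds]
    rw [ih (fun n hn => h n (by simpa [Formula.free] using hn))]
  | and φ ψ ih1 ih2 =>
    intro v v' h
    simp only [Formula.Holds]
    rw [ih1 (fun n hn => h n (by simp [Formula.free, hn])),
      ih2 (fun n hn => h n (by simp [Formula.free, hn]))]
  | imp φ ψ ih1 ih2 =>
    intro v v' h
    simp only [Formula.Holds]
    rw [ih1 (fun n hn => h n (by simp [Formula.free, hn])),
      ih2 (fun n hn => h n (by simp [Formula.free, hn]))]
  | all m φ ih =>
    intro v v' h
    simp only [Formula.Holds]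
    refine forall_congr' fun g => ih fun n hn => ?_
    by_cases hnm : n = m
    · subst hnm; simp
    · rw [Function.update_of_ne hnm, Function.update_of_ne hnm]
      exact h n (by simp [Formula.free, hn, hnm])
  | ex m φ ih =>
    intro v v' h
    simp only [Formula.Holds]
    refine exists_congr fun g => ih fun n hn => ?_
    by_cases hnm : n = m
    · subst hnm; simp
    · rw [Function.update_of_ne hnm, Function.update_of_ne hnm]
      exact h n (by simp [Formula.free, hn, hnm])

/-- renaming the variables of a term -/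
def tren (ρ : ℕ → ℕ) : Term → Term
  | .var n => .var (ρ n)
  | .one => .one
  | .mul s t => .mul (tren ρ s) (tren ρ t)
  | .inv t => .inv (tren ρ t)

theorem eval_tren (ρ : ℕ → ℕ) (t : Term) (v : ℕ → G) :
    (tren ρ t).eval v = t.eval (fun n => v (ρ n)) := by
  induction t with
  | var n => rfl
  | one => rfl
  | mul s t ihs iht => simp only [tren, Term.eval, ihs, iht]
  | inv t ih => simp only [tren, Term.eval, ih]

theorem vars_tren (ρ : ℕ → ℕ) (t : Term) : (tren ρ t).vars ⊆ t.vars.image ρ := by
  induction t with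
  | var n => simp [tren, Term.vars]
  | one => simp [tren, Term.vars]
  | mul s t ihs iht =>
    simp only [tren, Term.vars, Finset.image_union]
    exact Finset.union_subset_union ihs iht
  | inv t ih => simpa only [tren, Term.vars] using ih

theorem exists_fresh (s : Finset ℕ) : ∃ m, m ∉ s := Infinite.exists_notMem_finset s

theorem exists_ren (G : Type) [Group G] (φ : Formula) : ∀ ρ : ℕ → ℕ, ∃ φ' : Formula,
    (∀ v : ℕ → G, φ'.Holds v ↔ φ.Holds (fun n => v (ρ n))) ∧ φ'.free ⊆ φ.free.image ρ := by
  induction φ with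
  | eq s t =>
    intro ρ
    refine ⟨.eq (tren ρ s) (tren ρ t), fun v => by simp only [Formula.Holds, eval_tren], ?_⟩
    simp only [Formula.free, Finset.image_union]
    exact Finset.union_subset_union (vars_tren ρ s) (vars_tren ρ t)
  | neg φ ih =>
    intro ρ
    obtain ⟨φ', h1, h2⟩ := ih ρ
    exact ⟨.neg φ', fun v => by simp only [Formula.Holds, h1], h2⟩
  | and φ ψ ih1 ih2 =>
    intro ρ
    obtain ⟨φ', h1, h2⟩ := ih1 ρ
    obtain ⟨ψ', h3, h4⟩ := ih2 ρ
    refine ⟨.and φ' ψ', fun v => by simp only [Formula.Holds, h1, h3], ?_⟩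
    simp only [Formula.free, Finset.image_union]
    exact Finset.union_subset_union h2 h4
  | imp φ ψ ih1 ih2 =>
    intro ρ
    obtain ⟨φ', h1, h2⟩ := ih1 ρ
    obtain ⟨ψ', h3, h4⟩ := ih2 ρ
    refine ⟨.imp φ' ψ', fun v => by simp only [Formula.Holds, h1, h3], ?_⟩
    simp only [Formula.free, Finset.image_union]
    exact Finset.union_subset_union h2 h4
  | all n φ ih =>
    intro ρ
    obtain ⟨m, hm⟩ := exists_fresh ((φ.free.erase n).image ρ)
    obtain ⟨φ', h1, h2⟩ := ih (Function.update ρ n m)
    refine ⟨.all m φ', fun v => ?_, ?_⟩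
    · simp only [Formula.Holds]
      refine forall_congr' fun g => ?_
      rw [h1]
      refine holds_congr φ fun k hk => ?_
      by_cases hkn : k = n
      · subst hkn; simp
      · rw [Function.update_of_ne hkn, Function.update_of_ne hkn, Function.update_of_ne]
        intro h
        exact hm (Finset.mem_image.2 ⟨k, Finset.mem_erase.2 ⟨hkn, hk⟩, h⟩)
    · intro y hy
      simp only [Formula.free, Finset.mem_erase] at hy
      obtain ⟨k, hk, hky⟩ := Finset.mem_image.1 (h2 hy.2)
      by_cases hkn : k = n
      · subst hkn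
        rw [Function.update_self] at hky
        exact absurd hky.symm hy.1
      · rw [Function.update_of_ne hkn] at hky
        exact Finset.mem_image.2 ⟨k, by simp [Formula.free, hkn, hk], hky⟩
  | ex n φ ih =>
    intro ρ
    obtain ⟨m, hm⟩ := exists_fresh ((φ.free.erase n).image ρ)
    obtain ⟨φ', h1, h2⟩ := ih (Function.update ρ n m)
    refine ⟨.ex m φ', fun v => ?_, ?_⟩
    · simp only [Formula.Holds]
      refine exists_congr fun g => ?_
      rw [h1]
      refine holds_congr φ fun k hk => ?_
      by_cases hkn : k = n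
      · subst hkn; simp
      · rw [Function.update_of_ne hkn, Function.update_of_ne hkn, Function.update_of_ne]
        intro h
        exact hm (Finset.mem_image.2 ⟨k, Finset.mem_erase.2 ⟨hkn, hk⟩, h⟩)
    · intro y hy
      simp only [Formula.free, Finset.mem_erase] at hy
      obtain ⟨k, hk, hky⟩ := Finset.mem_image.1 (h2 hy.2)
      by_cases hkn : k = n
      · subst hkn
        rw [Function.update_self] at hky
        exact absurd hky.symm hy.1
      · rw [Function.update_of_ne hkn] at hky
        exact Finset.mem_image.2 ⟨k, by simp [Formula.free, hkn, hk], hky⟩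

/-- first-order definable predicates on sequences of group elements -/
def DG (R : (ℕ → G) → Prop) : Prop := ∃ φ : Formula, ∀ v, φ.Holds v ↔ R v

namespace DG

theorem iff {R S : (ℕ → G) → Prop} (h : ∀ v, R v ↔ S v) (hR : DG R) : DG S := by
  obtain ⟨φ, hφ⟩ := hR
  exact ⟨φ, fun v => (hφ v).trans (h v)⟩

theorem eqt (s t : Term) : DG (fun v : ℕ → G => s.eval v = t.eval v) := ⟨.eq s t, fun _ => Iff.rfl⟩

theorem not {R : (ℕ → G) → Prop} (hR : DG R) : DG (fun v => ¬ R v) := by
  obtain ⟨φ, hφ⟩ := hR
  exact ⟨.neg φ, fun v => by simp only [Formula.Holds, hφ]⟩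

theorem and {R S : (ℕ → G) → Prop} (hR : DG R) (hS : DG S) : DG (fun v => R v ∧ S v) := by
  obtain ⟨φ, hφ⟩ := hR
  obtain ⟨ψ, hψ⟩ := hS
  exact ⟨.and φ ψ, fun v => by simp only [Formula.Holds, hφ, hψ]⟩

theorem imp {R S : (ℕ → G) → Prop} (hR : DG R) (hS : DG S) : DG (fun v => R v → S v) := by
  obtain ⟨φ, hφ⟩ := hR
  obtain ⟨ψ, hψ⟩ := hS
  exact ⟨.imp φ ψ, fun v => by simp only [Formula.Holds, hφ, hψ]⟩

theorem or {R S : (ℕ → G) → Prop} (hR : DG R) (hS : DG S) : DG (fun v => R v ∨ S v) :=
  iff (fun v => by tauto) (imp (not hR) hS)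

theorem iff' {R S : (ℕ → G) → Prop} (hR : DG R) (hS : DG S) : DG (fun v => R v ↔ S v) :=
  iff (fun v => by tauto) (and (imp hR hS) (imp hS hR))

theorem ren {R : (ℕ → G) → Prop} (ρ : ℕ → ℕ) (hR : DG R) : DG (fun v => R (fun n => v (ρ n))) := by
  obtain ⟨φ, hφ⟩ := hR
  obtain ⟨φ', h1, _⟩ := exists_ren G φ ρ
  exact ⟨φ', fun v => by rw [h1, hφ]⟩

theorem all {S : G → (ℕ → G) → Prop} (hR : DG (fun v => S (v 0) (fun n => v (n + 1)))) :
    DG (fun v => ∀ a, S a v) := by
  obtain ⟨φ, hφ⟩ := hR
  obtain ⟨m, hm⟩ := exists_fresh (φ.free.image Nat.pred)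
  obtain ⟨φ', h1, _⟩ := exists_ren G φ (fun k => if k = 0 then m else k - 1)
  refine ⟨.all m φ', fun v => ?_⟩
  simp only [Formula.Holds]
  refine forall_congr' fun g => ?_
  rw [h1]
  refine (holds_congr φ (v' := cns g v) fun k hk => ?_).trans (hφ (cns g v))
  rcases k with _ | k
  · simp
  · have : k ≠ m := fun h => hm (Finset.mem_image.2 ⟨k + 1, hk, h⟩)
    simp [Function.update_of_ne this]

theorem ex {S : G → (ℕ → G) → Prop} (hR : DG (fun v => S (v 0) (fun n => v (n + 1)))) :
    DG (fun v => ∃ a, S a v) :=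
  iff (fun v => by simp) (not (all (S := fun a v => ¬ S a v) (not hR)))

theorem app1 {P : G → Prop} (h : DG (fun v => P (v 0))) (i : ℕ) : DG (fun v => P (v i)) :=
  ren (fun _ => i) h

theorem app2 {P : G → G → Prop} (h : DG (fun v => P (v 0) (v 1))) (i j : ℕ) :
    DG (fun v => P (v i) (v j)) :=
  ren (fun n => match n with | 0 => i | _ => j) h

theorem app4 {P : G → G → G → G → Prop} (h : DG (fun v => P (v 0) (v 1) (v 2) (v 3)))
    (i j k l : ℕ) : DG (fun v => P (v i) (v j) (v k) (v l)) :=
  ren (fun n => match n with | 0 => i | 1 => j | 2 => k | _ => l) h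

end DG

/-! ### the Goedel numbering is injective -/

theorem term_code_injective : ∀ s t : Term, s.code = t.code → s = t
  | .var n, .var m, h => by
      simp only [Term.code, Nat.pair_eq_pair] at h; rw [h.2]
  | .one, .one, _ => rfl
  | .mul s t, .mul s' t', h => by
      simp only [Term.code, Nat.pair_eq_pair] at h
      rw [term_code_injective s s' h.2.1, term_code_injective t t' h.2.2]
  | .inv t, .inv t', h => by
      simp only [Term.code, Nat.pair_eq_pair] at h
      rw [term_code_injective t t' h.2]
  | .var _, .one, h => by simp [Term.code, Nat.pair_eq_pair] at h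
  | .var _, .mul _ _, h => by simp [Term.code, Nat.pair_eq_pair] at h
  | .var _, .inv _, h => by simp [Term.code, Nat.pair_eq_pair] at h
  | .one, .var _, h => by simp [Term.code, Nat.pair_eq_pair] at h
  | .one, .mul _ _, h => by simp [Term.code, Nat.pair_eq_pair] at h
  | .one, .inv _, h => by simp [Term.code, Nat.pair_eq_pair] at h
  | .mul _ _, .var _, h => by simp [Term.code, Nat.pair_eq_pair] at h
  | .mul _ _, .one, h => by simp [Term.code, Nat.pair_eq_pair] at h
  | .mul _ _, .inv _, h => by simp [Term.code, Nat.pair_eq_pair] at h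
  | .inv _, .var _, h => by simp [Term.code, Nat.pair_eq_pair] at h
  | .inv _, .one, h => by simp [Term.code, Nat.pair_eq_pair] at h
  | .inv _, .mul _ _, h => by simp [Term.code, Nat.pair_eq_pair] at h

theorem code_injective : ∀ φ ψ : Formula, φ.code = ψ.code → φ = ψ := by
  intro φ
  induction φ with
  | eq s t =>
    intro ψ h
    cases ψ <;> simp [Formula.code, Nat.pair_eq_pair] at h
    rw [term_code_injective _ _ h.1, term_code_injective _ _ h.2]
  | neg φ ih =>
    intro ψ h
    cases ψ <;> simp [Formula.code, Nat.pair_eq_pair] at h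
    rw [ih _ h]
  | and φ ψ ih1 ih2 =>
    intro χ h
    cases χ <;> simp [Formula.code, Nat.pair_eq_pair] at h
    rw [ih1 _ h.1, ih2 _ h.2]
  | imp φ ψ ih1 ih2 =>
    intro χ h
    cases χ <;> simp [Formula.code, Nat.pair_eq_pair] at h
    rw [ih1 _ h.1, ih2 _ h.2]
  | all n φ ih =>
    intro χ h
    cases χ <;> simp [Formula.code, Nat.pair_eq_pair] at h
    rw [ih _ h.2, h.1]
  | ex n φ ih =>
    intro χ h
    cases χ <;> simp [Formula.code, Nat.pair_eq_pair] at h
    rw [ih _ h.2, h.1]

end Pool.Agent.Helper180.FO
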