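import Mathlib
import Pool.Agent.Helper180.Logic

set_option linter.unusedVariables false
set_option linter.unusedSimpArgs false
set_option linter.unusedSectionVars false

namespace Pool.Agent.Helper180.Sound

open Pool.Agent.Helper180.Defs Pool.Agent.Helper180.Logic Pool.Agent.Helper180.Words
open Pool.Agent.Helper180.GroupS
open Nat.Partrec Nat.Partrec.Code

/-- the intended relation -/
def E (i j k : ℤ) : Prop :=
  ∃ (c : Code) (n m : ℕ), i = encodeCode c ∧ j = n ∧ k = m ∧ m ∈ eval c n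

theorem enc_inj {c c' : Code} (h : encodeCode c = encodeCode c') : c = c' := by
  have h1 : Encodable.encode c = Encodable.encode c' := by rw [encodeCode_eq]; exact h
  exact Encodable.encode_injective h1

theorem enc_surj (n : ℕ) : ∃ c : Code, encodeCode c = n := by
  refine ⟨Denumerable.ofNat Code n, ?_⟩
  have := Denumerable.encode_ofNat (α := Code) n
  rwa [encodeCode_eq] at this

theorem E_iff {i j k : ℤ} (c : Code) (hc : i = encodeCode c) :
    E i j k ↔ ∃ n m : ℕ, j = n ∧ k = m ∧ m ∈ eval c n := by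
  constructor
  · rintro ⟨c', n, m, h1, h2, h3, h4⟩
    rw [hc] at h1
    have := enc_inj (Nat.cast_injective (R := ℤ) h1)
    subst this
    exact ⟨n, m, h2, h3, h4⟩
  · rintro ⟨n, m, h2, h3, h4⟩
    exact ⟨c, n, m, hc, h2, h3, h4⟩

theorem E0 {j k : ℤ} : E 0 j k ↔ (∃ n : ℕ, j = n) ∧ k = 0 := by
  rw [E_iff Code.zero (by simp [encodeCode])]
  constructor
  · rintro ⟨n, m, h2, h3, h4⟩
    have : m = 0 := by simpa [eval, pure, PFun.pure] using h4
    exact ⟨⟨n, h2⟩, by rw [h3, this]; rfl⟩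
  · rintro ⟨⟨n, h2⟩, h3⟩
    exact ⟨n, 0, h2, by simpa using h3, by simp [eval, pure, PFun.pure]⟩

theorem E1 {j k : ℤ} : E 1 j k ↔ ∃ n : ℕ, j = n ∧ k = n + 1 := by
  rw [E_iff Code.succ (by simp [encodeCode])]
  constructor
  · rintro ⟨n, m, h2, h3, h4⟩
    have : m = n + 1 := by simpa [eval] using h4
    exact ⟨n, h2, by rw [h3, this]; push_cast; rfl⟩
  · rintro ⟨n, h2, h3⟩
    exact ⟨n, n + 1, h2, by push_cast; exact h3, by simp [eval]⟩

theorem E2 {j k : ℤ} : E 2 j k ↔ ∃ n : ℕ, j = n ∧ k = n.unpair.1 := by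
  rw [E_iff Code.left (by simp [encodeCode])]
  constructor
  · rintro ⟨n, m, h2, h3, h4⟩
    have : m = n.unpair.1 := by simpa [eval] using h4
    exact ⟨n, h2, by rw [h3, this]⟩
  · rintro ⟨n, h2, h3⟩
    exact ⟨n, n.unpair.1, h2, h3, by simp [eval]⟩

theorem E3 {j k : ℤ} : E 3 j k ↔ ∃ n : ℕ, j = n ∧ k = n.unpair.2 := by
  rw [E_iff Code.right (by simp [encodeCode])]
  constructor
  · rintro ⟨n, m, h2, h3, h4⟩
    have : m = n.unpair.2 := by simpa [eval] using h4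
    exact ⟨n, h2, by rw [h3, this]⟩
  · rintro ⟨n, h2, h3⟩
    exact ⟨n, n.unpair.2, h2, h3, by simp [eval]⟩

theorem PE {n a b : ℤ} : (E 2 n a ∧ E 3 n b) ↔ ∃ a' b' : ℕ, a = a' ∧ b = b' ∧ n = Nat.pair a' b' := by
  rw [E2, E3]
  constructor
  · rintro ⟨⟨k, h1, h2⟩, ⟨k', h3, h4⟩⟩
    have : k = k' := by exact_mod_cast h1.symm.trans h3
    subst this
    exact ⟨_, _, h2, h4, by rw [Nat.pair_unpair]; exact h1⟩
  · rintro ⟨a', b', h1, h2, h3⟩
    exact ⟨⟨_, h3, by rw [Nat.unpair_pair]; exact h1⟩, ⟨_, h3, by rw [Nat.unpair_pair]; exact h2⟩⟩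

theorem mem_rfind' {cf : Code} {a b m : ℕ} : m ∈ eval (rfind' cf) (Nat.pair a b) ↔
    ∃ r, (0 ∈ eval cf (Nat.pair a (r + b)) ∧
        ∀ j < r, ∃ y, (y + 1) ∈ eval cf (Nat.pair a (j + b))) ∧ r + b = m := by
  simp only [eval, Nat.unpaired, Part.mem_map_iff, Nat.mem_rfind, Nat.unpair_pair]
  constructor
  · rintro ⟨r, ⟨hz, hlt⟩, hr⟩
    refine ⟨r, ⟨?_, ?_⟩, hr⟩
    · rw [Part.map_eq_map, Part.mem_map_iff] at hz
      obtain ⟨z, hz, hz'⟩ := hz
      have : z = 0 := by simpa using hz'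
      rw [← this]; exact hz
    · intro j hj
      have hlt' := hlt hj
      rw [Part.map_eq_map, Part.mem_map_iff] at hlt'
      obtain ⟨z, hz, hz'⟩ := hlt'
      have : z ≠ 0 := by simpa using hz'
      obtain ⟨y, rfl⟩ := Nat.exists_eq_succ_of_ne_zero this
      exact ⟨y, hz⟩
  · rintro ⟨r, ⟨hz, hlt⟩, hr⟩
    refine ⟨r, ⟨?_, ?_⟩, hr⟩
    · rw [Part.map_eq_map, Part.mem_map_iff]
      exact ⟨0, hz, by simp⟩
    · intro j hj
      obtain ⟨y, hy⟩ := hlt j hj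
      rw [Part.map_eq_map, Part.mem_map_iff]
      exact ⟨y + 1, hy, by simp⟩

/-- indices of the words whose centralizers are enlarged -/
def JE : Set Idx := {v | (v.2.2.2 = 0 ∧ v.2.1 = v.1 ∧ v.2.2.1 = 0) ∨
  (v.2.2.2 = 1 ∧ v.2.1 = 0 ∧ v.2.2.1 = v.1) ∨ (v.2.2.2 = 2 ∧ E v.1 v.2.1 v.2.2.1)}

noncomputable abbrev s : F →* GJ JE := cs JE

/-- powers of the first generator -/
noncomputable def q (i : ℤ) : GJ JE := s (FreeGroup.of 0 ^ i)

theorem q_add (i j : ℤ) : q i * q j = q (i + j) := by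
  unfold q; rw [← map_mul, ← zpow_add]

theorem q_zero : q 0 = 1 := by unfold q; rw [zpow_zero, map_one]

theorem q_pow (i : ℤ) (n : ℕ) : q i ^ n = q (n * i) := by
  unfold q; rw [← map_pow, ← zpow_natCast, ← zpow_mul]; congr 2; ring

/-- the relation in the group -/
def RG : GJ JE → GJ JE → GJ JE → Prop :=
  Rel (s (FreeGroup.of 1)) (s (FreeGroup.of 2)) (s (FreeGroup.of 3)) (s (FreeGroup.of 4))
    (s (FreeGroup.of 5))

theorem RG_iff (i j k : ℤ) : RG (q i) (q j) (q k) ↔ E i j k := by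
  have w1 : ∀ a b : ℤ, q a * s (FreeGroup.of 1 ^ b) * s (FreeGroup.of 3) = s (W (a, b, 0, 0)) := by
    intro a b
    unfold q W
    rw [← map_mul, ← map_mul]
    congr 1
    simp [lt]
  have w2 : ∀ a b : ℤ, q a * s (FreeGroup.of 2 ^ b) * s (FreeGroup.of 4) = s (W (a, 0, b, 1)) := by
    intro a b
    unfold q W
    rw [← map_mul, ← map_mul]
    congr 1
    simp [lt]
  have w3 : ∀ a b c : ℤ, q a * s (FreeGroup.of 1 ^ b) * s (FreeGroup.of 2 ^ c) *
      s (FreeGroup.of 5) = s (W (a, b, c, 2)) := by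
    intro a b c
    unfold q W
    rw [← map_mul, ← map_mul, ← map_mul]
    congr 1
  have c1 : ∀ l, (1 : Fin 6) ≠ lt l := fun l => (lt_ne1 l).symm
  have c2 : ∀ l, (2 : Fin 6) ≠ lt l := fun l => (lt_ne2 l).symm
  constructor
  · rintro ⟨y', z', hy, hz, h1, h2, h3⟩
    obtain ⟨a, rfl⟩ := cent_gen JE 1 c1 y' hy
    obtain ⟨b, rfl⟩ := cent_gen JE 2 c2 z' hz
    rw [w1, nc_iff] at h1
    rw [w2, nc_iff] at h2
    rw [w3, nc_iff] at h3
    have ha : a = j := by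
      rcases h1 with h | h | h
      · exact h.2.1
      · exact absurd h.1 (by simp)
      · exact absurd h.1 (by simp)
    have hb : b = k := by
      rcases h2 with h | h | h
      · exact absurd h.1 (by simp)
      · exact h.2.2
      · exact absurd h.1 (by simp)
    rcases h3 with h | h | h
    · exact absurd h.1 (by simp)
    · exact absurd h.1 (by simp)
    · rw [← ha, ← hb]; exact h.2
  · intro h
    refine ⟨s (FreeGroup.of 1 ^ j), s (FreeGroup.of 2 ^ k), ?_, ?_, ?_, ?_, ?_⟩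
    · rw [← map_mul, ← map_mul]; congr 1
      exact (Commute.zpow_self _ _).eq
    · rw [← map_mul, ← map_mul]; congr 1
      exact (Commute.zpow_self _ _).eq
    · rw [w1, nc_iff]; left; exact ⟨rfl, rfl, rfl⟩
    · rw [w2, nc_iff]; right; left; exact ⟨rfl, rfl, rfl⟩
    · rw [w3, nc_iff]; right; right; exact ⟨rfl, h⟩

theorem q_surj (x : GJ JE) (h : x * q 1 = q 1 * x) : ∃ i : ℤ, x = q i := by
  have h' : x * cs JE (FreeGroup.of 0) = cs JE (FreeGroup.of 0) * x := by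
    have e : q 1 = cs JE (FreeGroup.of 0) := by unfold q; rw [zpow_one]
    rwa [e] at h
  exact cent_gen JE 0 (fun l => (lt_ne0 l).symm) x h'

theorem RG1 (j k : ℤ) : RG 1 (q j) (q k) ↔ E 0 j k := by rw [← q_zero]; exact RG_iff 0 j k

theorem pair_a4 (a x : ℕ) : Nat.pair (a + 1) (a + x + 2) = Nat.pair a (a + x + 2) + 1 := by
  unfold Nat.pair; rw [if_pos (by omega), if_pos (by omega)]; ring

theorem pair_a5 (a : ℕ) : Nat.pair (a + 1) 0 = Nat.pair a (a + 1) + 1 := by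
  unfold Nat.pair; rw [if_neg (by omega), if_pos (by omega)]; ring

theorem pair_a6 (a x : ℕ) : Nat.pair (a + x + 1) (a + 1) = Nat.pair (a + x + 1) a + 1 := by
  unfold Nat.pair; rw [if_neg (by omega), if_neg (by omega)]; ring

theorem pair_a7 (a : ℕ) : Nat.pair 0 (a + 1) = Nat.pair a a + 1 := by
  unfold Nat.pair; rw [if_pos (by omega), if_neg (by omega)]; ring

theorem ax_RG : Ax (q 1) RG := by
  have p2 : q 1 ^ 2 = q 2 := by rw [q_pow]; norm_num
  have p3 : q 1 ^ 3 = q 3 := by rw [q_pow]; norm_num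
  have p4 : q 1 ^ 4 = q 4 := by rw [q_pow]; norm_num
  have p5 : q 1 ^ 5 = q 5 := by rw [q_pow]; norm_num
  have p6 : q 1 ^ 6 = q 6 := by rw [q_pow]; norm_num
  have p7 : q 1 ^ 7 = q 7 := by rw [q_pow]; norm_num
  have p44 : ∀ k : ℤ, q k ^ 4 = q (4 * k) := by intro k; rw [q_pow]; norm_num
  constructor
  · -- a0
    rw [← q_zero, RG_iff, E0]; exact ⟨⟨0, rfl⟩, rfl⟩
  · -- a1
    intro x hx
    obtain ⟨i, rfl⟩ := q_surj x hx
    rw [← q_zero, q_add, RG_iff, RG_iff, E0, E0]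
    rintro ⟨⟨n, rfl⟩, _⟩
    exact ⟨⟨n + 1, by push_cast; rfl⟩, rfl⟩
  · -- a2
    intro x hx
    obtain ⟨i, rfl⟩ := q_surj x hx
    rw [← q_zero, q_add, RG_iff, RG_iff, E0, E1]
    rintro ⟨⟨n, rfl⟩, _⟩
    exact ⟨n, rfl, rfl⟩
  · -- a3
    rw [p2, p3, ← q_zero, RG_iff, RG_iff, PE]
    exact ⟨0, 0, rfl, rfl, rfl⟩
  · -- a4
    intro a ha x hx n hn
    obtain ⟨a, rfl⟩ := q_surj a ha
    obtain ⟨x, rfl⟩ := q_surj x hx
    obtain ⟨n, rfl⟩ := q_surj n hn
    rw [p2, p3, ← q_zero]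
    simp only [q_add, RG_iff]
    rintro ⟨h1, h2, h3⟩
    rw [E0] at h1 h2
    obtain ⟨⟨a, rfl⟩, -⟩ := h1
    obtain ⟨⟨x, rfl⟩, -⟩ := h2
    rw [PE] at h3 ⊢
    obtain ⟨a', b', h4, h5, h6⟩ := h3
    have h4' : a = a' := by exact_mod_cast h4
    have h5' : b' = a + x + 2 := by exact_mod_cast h5.symm
    subst h4' h5'
    exact ⟨a + 1, a + x + 2, by push_cast; rfl, by push_cast; rfl, by
      rw [pair_a4, h6]; push_cast; rfl⟩
  · -- a5
    intro a ha n hn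
    obtain ⟨a, rfl⟩ := q_surj a ha
    obtain ⟨n, rfl⟩ := q_surj n hn
    rw [p2, p3, ← q_zero]
    simp only [q_add, RG_iff, PE]
    rintro ⟨a', b', h4, h5, h6⟩
    have h5' : b' = a' + 1 := by rw [h4] at h5; exact_mod_cast h5.symm
    subst h5'
    exact ⟨a' + 1, 0, by rw [h4]; push_cast; rfl, rfl, by
      rw [pair_a5, h6]; push_cast; rfl⟩
  · -- a6
    intro a ha x hx n hn
    obtain ⟨a, rfl⟩ := q_surj a ha
    obtain ⟨x, rfl⟩ := q_surj x hx
    obtain ⟨n, rfl⟩ := q_surj n hn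
    rw [p2, p3, ← q_zero]
    simp only [q_add, RG_iff]
    rintro ⟨h1, h2, h3⟩
    rw [E0] at h1 h2
    obtain ⟨⟨a, rfl⟩, -⟩ := h1
    obtain ⟨⟨x, rfl⟩, -⟩ := h2
    rw [PE] at h3 ⊢
    obtain ⟨a', b', h4, h5, h6⟩ := h3
    have h4' : a' = a + x + 1 := by exact_mod_cast h4.symm
    have h5' : a = b' := by exact_mod_cast h5
    subst h4' h5'
    exact ⟨a + x + 1, a + 1, by push_cast; rfl, by push_cast; rfl, by
      rw [pair_a6, h6]; push_cast; rfl⟩
  · -- a7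
    intro a ha n hn
    obtain ⟨a, rfl⟩ := q_surj a ha
    obtain ⟨n, rfl⟩ := q_surj n hn
    rw [p2, p3, ← q_zero]
    simp only [q_add, RG_iff, PE]
    rintro ⟨a', b', h4, h5, h6⟩
    have h5' : b' = a' := by rw [h4] at h5; exact_mod_cast h5.symm
    subst h5'
    exact ⟨0, b' + 1, rfl, by rw [h4]; push_cast; rfl, by
      rw [pair_a7, h6]; push_cast; rfl⟩
  · -- a8
    intro f hf g hg k hk n hn a ha b hb m hm
    obtain ⟨f, rfl⟩ := q_surj f hf
    obtain ⟨g, rfl⟩ := q_surj g hg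
    obtain ⟨k, rfl⟩ := q_surj k hk
    obtain ⟨n, rfl⟩ := q_surj n hn
    obtain ⟨a, rfl⟩ := q_surj a ha
    obtain ⟨b, rfl⟩ := q_surj b hb
    obtain ⟨m, rfl⟩ := q_surj m hm
    rw [p2, p3, p4, p44]
    simp only [q_add, RG_iff]
    rintro ⟨h1, h2, ⟨cf, n1, a1, e1, e2, e3, e4⟩, ⟨cg, n2, b1, e5, e6, e7, e8⟩, h3, h4⟩
    obtain ⟨f', g', e9, e10, e11⟩ := PE.1 ⟨h1, h2⟩
    obtain ⟨a', b', e12, e13, e14⟩ := PE.1 ⟨h3, h4⟩
    have r1 : f' = encodeCode cf := by exact_mod_cast e9.symm.trans e1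
    have r2 : g' = encodeCode cg := by exact_mod_cast e10.symm.trans e5
    have r3 : a' = a1 := by exact_mod_cast e12.symm.trans e3
    have r4 : b' = b1 := by exact_mod_cast e13.symm.trans e7
    have r5 : n2 = n1 := by exact_mod_cast e6.symm.trans e2
    subst r1 r2 r3 r4 r5
    refine ⟨Code.pair cf cg, n2, Nat.pair a' b', ?_, e2, e14, ?_⟩
    · rw [e11, encodeCode]; push_cast; ring
    · have key : ∀ m, (∃ a ∈ eval cf n2, ∃ b ∈ eval cg n2, Nat.pair a b = m) →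
          m ∈ eval (Code.pair cf cg) n2 := by
        intro m h
        simpa [eval, Seq.seq] using h
      exact key _ ⟨a', e4, b', e8, rfl⟩
  · -- a9
    intro f hf g hg k hk n hn a ha m hm
    obtain ⟨f, rfl⟩ := q_surj f hf
    obtain ⟨g, rfl⟩ := q_surj g hg
    obtain ⟨k, rfl⟩ := q_surj k hk
    obtain ⟨n, rfl⟩ := q_surj n hn
    obtain ⟨a, rfl⟩ := q_surj a ha
    obtain ⟨m, rfl⟩ := q_surj m hm
    rw [p2, p3, p6, p44]
    simp only [q_add, RG_iff]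
    rintro ⟨h1, h2, ⟨cg, n1, a1, e1, e2, e3, e4⟩, ⟨cf, a2, m1, e5, e6, e7, e8⟩⟩
    obtain ⟨f', g', e9, e10, e11⟩ := PE.1 ⟨h1, h2⟩
    have r1 : f' = encodeCode cf := by exact_mod_cast e9.symm.trans e5
    have r2 : g' = encodeCode cg := by exact_mod_cast e10.symm.trans e1
    have r3 : a2 = a1 := by exact_mod_cast e6.symm.trans e3
    subst r1 r2 r3
    refine ⟨Code.comp cf cg, n1, m1, ?_, e2, e7, ?_⟩
    · rw [e11, encodeCode]; push_cast; ring
    · simp only [eval]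
      simp
      exact ⟨a2, e4, e8⟩
  · -- a10
    intro f hf g hg k hk n hn a ha m hm
    obtain ⟨f, rfl⟩ := q_surj f hf
    obtain ⟨g, rfl⟩ := q_surj g hg
    obtain ⟨k, rfl⟩ := q_surj k hk
    obtain ⟨n, rfl⟩ := q_surj n hn
    obtain ⟨a, rfl⟩ := q_surj a ha
    obtain ⟨m, rfl⟩ := q_surj m hm
    rw [p2, p3, p5, p44, ← q_zero]
    simp only [q_add, RG_iff]
    rintro ⟨h1, h2, h3, h4, ⟨cf, a1, m1, e1, e2, e3, e4⟩⟩
    obtain ⟨f', g', e9, e10, e11⟩ := PE.1 ⟨h1, h2⟩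
    obtain ⟨a', b', e12, e13, e14⟩ := PE.1 ⟨h3, h4⟩
    obtain ⟨cg, hcg⟩ := enc_surj g'
    have r1 : f' = encodeCode cf := by exact_mod_cast e9.symm.trans e1
    have r3 : a' = a1 := by exact_mod_cast e12.symm.trans e2
    have r4 : b' = 0 := by exact_mod_cast e13.symm
    subst r1 r3 r4 hcg
    refine ⟨Code.prec cf cg, Nat.pair a' 0, m1, ?_, e14, e3, ?_⟩
    · rw [e11, encodeCode]; push_cast; ring
    · rw [eval_prec_zero]; exact e4
  · -- a11
    intro f hf g hg k hk a ha y hy n hn i hi j hj l hl m hm n' hn'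
    obtain ⟨f, rfl⟩ := q_surj f hf
    obtain ⟨g, rfl⟩ := q_surj g hg
    obtain ⟨k, rfl⟩ := q_surj k hk
    obtain ⟨a, rfl⟩ := q_surj a ha
    obtain ⟨y, rfl⟩ := q_surj y hy
    obtain ⟨n, rfl⟩ := q_surj n hn
    obtain ⟨i, rfl⟩ := q_surj i hi
    obtain ⟨j, rfl⟩ := q_surj j hj
    obtain ⟨l, rfl⟩ := q_surj l hl
    obtain ⟨m, rfl⟩ := q_surj m hm
    obtain ⟨n', rfl⟩ := q_surj n' hn'
    rw [p2, p3, p5, p44]
    simp only [q_add, RG_iff]
    rintro ⟨h1, h2, h3, h4, h5, h6, h7, h8, h9, ⟨cg, l1, m1, e1, e2, e3, e4⟩, h10, h11⟩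
    obtain ⟨f', g', d1, d2, d3⟩ := PE.1 ⟨h1, h2⟩
    obtain ⟨a', y', d4, d5, d6⟩ := PE.1 ⟨h3, h4⟩
    obtain ⟨y'', i', d7, d8, d9⟩ := PE.1 ⟨h6, h7⟩
    obtain ⟨a'', j', d10, d11, d12⟩ := PE.1 ⟨h8, h9⟩
    obtain ⟨a3, y3, d13, d14, d15⟩ := PE.1 ⟨h10, h11⟩
    obtain ⟨cf, hcf⟩ := enc_surj f'
    have r2 : g' = encodeCode cg := by exact_mod_cast d2.symm.trans e1
    subst hcf r2
    have hk : 4 * k + 5 = encodeCode (Code.prec cf cg) := by
      rw [d3, encodeCode]; push_cast; ring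
    rw [E_iff _ hk] at h5
    obtain ⟨n1, i1, d16, d17, d18⟩ := h5
    have r1 : n1 = Nat.pair a' y' := by exact_mod_cast d16.symm.trans d6
    have r3 : i1 = i' := by exact_mod_cast d17.symm.trans d8
    have r4 : y'' = y' := by exact_mod_cast d7.symm.trans d5
    have r5 : a'' = a' := by exact_mod_cast d10.symm.trans d4
    have r6 : j' = Nat.pair y'' i' := by exact_mod_cast d11.symm.trans d9
    have r7 : a3 = a' := by exact_mod_cast d13.symm.trans d4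
    have r8 : y3 = y' + 1 := by rw [d5] at d14; exact_mod_cast d14.symm
    have r9 : l1 = Nat.pair a'' j' := by exact_mod_cast e2.symm.trans d12
    subst r1 r3 r4 r5 r6 r7 r8 r9
    refine ⟨Code.prec cf cg, Nat.pair a3 (y'' + 1), m1, hk, d15, e3, ?_⟩
    rw [eval_prec_succ]
    simp
    exact ⟨i1, d18, e4⟩
  · -- a12
    intro f hf a ha m hm n hn
    obtain ⟨f, rfl⟩ := q_surj f hf
    obtain ⟨a, rfl⟩ := q_surj a ha
    obtain ⟨m, rfl⟩ := q_surj m hm
    obtain ⟨n, rfl⟩ := q_surj n hn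
    rw [p2, p3, p7, p44, ← q_zero]
    simp only [q_add, RG_iff]
    rintro ⟨h1, h2, ⟨cf, n1, z1, e1, e2, e3, e4⟩⟩
    obtain ⟨a', m', d1, d2, d3⟩ := PE.1 ⟨h1, h2⟩
    have r1 : n1 = Nat.pair a' m' := by exact_mod_cast e2.symm.trans d3
    have r2 : z1 = 0 := by exact_mod_cast e3.symm
    subst r1 r2
    refine ⟨Code.rfind' cf, Nat.pair a' m', m', ?_, e2, d2, ?_⟩
    · rw [e1, encodeCode]; push_cast; ring
    · rw [mem_rfind']
      exact ⟨0, ⟨by rw [zero_add]; exact e4, fun j hj => absurd hj (by omega)⟩, by omega⟩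
  · -- a13
    intro f hf a ha m hm n hn y hy n' hn' r hr
    obtain ⟨f, rfl⟩ := q_surj f hf
    obtain ⟨a, rfl⟩ := q_surj a ha
    obtain ⟨m, rfl⟩ := q_surj m hm
    obtain ⟨n, rfl⟩ := q_surj n hn
    obtain ⟨y, rfl⟩ := q_surj y hy
    obtain ⟨n', rfl⟩ := q_surj n' hn'
    obtain ⟨r, rfl⟩ := q_surj r hr
    rw [p2, p3, p7, p44, ← q_zero]
    simp only [q_add, RG_iff]
    rintro ⟨h1, h2, h3, ⟨cf, n1, z1, e1, e2, e3, e4⟩, h4, h5, h6⟩
    obtain ⟨a', m', d1, d2, d3⟩ := PE.1 ⟨h1, h2⟩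
    obtain ⟨a'', m'', d4, d5, d6⟩ := PE.1 ⟨h4, h5⟩
    rw [E0] at h3
    obtain ⟨⟨y', rfl⟩, -⟩ := h3
    have hk : 4 * f + 7 = encodeCode (Code.rfind' cf) := by
      rw [e1, encodeCode]; push_cast; ring
    rw [E_iff _ hk] at h6
    obtain ⟨n2, r1, d7, d8, d9⟩ := h6
    have s1 : n1 = Nat.pair a' m' := by exact_mod_cast e2.symm.trans d3
    have s2 : z1 = y' + 1 := by exact_mod_cast e3.symm
    have s3 : a'' = a' := by exact_mod_cast d4.symm.trans d1
    have s4 : m'' = m' + 1 := by rw [d2] at d5; exact_mod_cast d5.symm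
    have s5 : n2 = Nat.pair a'' m'' := by exact_mod_cast d7.symm.trans d6
    subst s1 s2 s3 s4 s5
    refine ⟨Code.rfind' cf, Nat.pair a'' m', r1, hk, e2, d8, ?_⟩
    rw [mem_rfind'] at d9 ⊢
    obtain ⟨r0, ⟨g1, g2⟩, g3⟩ := d9
    refine ⟨r0 + 1, ⟨?_, ?_⟩, by omega⟩
    · have : r0 + 1 + m' = r0 + (m' + 1) := by ring
      rw [this]; exact g1
    · intro j hj
      cases j with
      | zero => exact ⟨y', by rw [zero_add]; exact e4⟩
      | succ j =>
        obtain ⟨y1, hy1⟩ := g2 j (by omega)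
        refine ⟨y1, ?_⟩
        have : j + 1 + m' = j + (m' + 1) := by ring
        rw [this]; exact hy1

end Pool.Agent.Helper180.Sound
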