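import Mathlib
import Pool.Agent.Helper180.Complete
import Pool.Agent.Helper180.Sound

set_option linter.unusedVariables false
set_option linter.unusedSimpArgs false
set_option linter.unusedSectionVars false

namespace Pool.Agent.Helper180.Final

open Pool.Agent.Helper180.Defs Pool.Agent.Helper180.Logic Pool.Agent.Helper180.Words
open Pool.Agent.Helper180.GroupS Pool.Agent.Helper180.Complete Pool.Agent.Helper180.Sound
open Nat.Partrec Nat.Partrec.Code

/-! ### the coding is injective -/

theorem term_code_injective : ∀ s t : Term, s.code = t.code → s = t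
  | .var n, .var m, h => by
      simp only [Term.code, Nat.pair_eq_pair] at h; rw [h.2]
  | .one, .one, _ => rfl
  | .mul s t, .mul s' t', h => by
      simp only [Term.code, Nat.pair_eq_pair] at h
      rw [term_code_injective s s' h.2.1, term_code_injective t t' h.2.2]
  | .inv t, .inv t', h => by
      simp only [Term.code, Nat.pair_eq_pair] at h
      rw [term_code_injective t t' h.2]
  | .var _, .one, h => by simp [Term.code, Nat.pair_eq_pair] at h
  | .var _, .mul _ _, h => by simp [Term.code, Nat.pair_eq_pair] at h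
  | .var _, .inv _, h => by simp [Term.code, Nat.pair_eq_pair] at h
  | .one, .var _, h => by simp [Term.code, Nat.pair_eq_pair] at h
  | .one, .mul _ _, h => by simp [Term.code, Nat.pair_eq_pair] at h
  | .one, .inv _, h => by simp [Term.code, Nat.pair_eq_pair] at h
  | .mul _ _, .var _, h => by simp [Term.code, Nat.pair_eq_pair] at h
  | .mul _ _, .one, h => by simp [Term.code, Nat.pair_eq_pair] at h
  | .mul _ _, .inv _, h => by simp [Term.code, Nat.pair_eq_pair] at h
  | .inv _, .var _, h => by simp [Term.code, Nat.pair_eq_pair] at h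
  | .inv _, .one, h => by simp [Term.code, Nat.pair_eq_pair] at h
  | .inv _, .mul _ _, h => by simp [Term.code, Nat.pair_eq_pair] at h

theorem code_injective : ∀ φ ψ : Formula, φ.code = ψ.code → φ = ψ := by
  intro φ
  induction φ with
  | eq s t =>
    intro ψ h
    cases ψ <;> simp [Formula.code, Nat.pair_eq_pair] at h
    rw [term_code_injective _ _ h.1, term_code_injective _ _ h.2]
  | neg φ ih =>
    intro ψ h
    cases ψ <;> simp [Formula.code, Nat.pair_eq_pair] at h
    rw [ih _ h]
  | and φ ψ ih1 ih2 =>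
    intro χ h
    cases χ <;> simp [Formula.code, Nat.pair_eq_pair] at h
    rw [ih1 _ h.1, ih2 _ h.2]
  | imp φ ψ ih1 ih2 =>
    intro χ h
    cases χ <;> simp [Formula.code, Nat.pair_eq_pair] at h
    rw [ih1 _ h.1, ih2 _ h.2]
  | all n φ ih =>
    intro χ h
    cases χ <;> simp [Formula.code, Nat.pair_eq_pair] at h
    rw [ih _ h.2, h.1]
  | ex n φ ih =>
    intro χ h
    cases χ <;> simp [Formula.code, Nat.pair_eq_pair] at h
    rw [ih _ h.2, h.1]

/-! ### the sentences -/

def haltF : Formula := .ex 7 (.and (cm (x 7) P) (rF (x 6) .one (x 7)))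

/-- sentence scheme -/
def mk (A H : Formula) (n : ℕ) : Formula :=
  .all 0 (.all 1 (.all 2 (.all 3 (.all 4 (.all 5
    (.imp A (.all 6 (.imp (.eq (x 6) (pw P n)) H))))))))

def psi (n : ℕ) : Formula := mk axF haltF n

theorem holds_haltF {G : Type} [Group G] (v : ℕ → G) :
    haltF.Holds v ↔ ∃ m : G, m * v 0 = v 0 * m ∧ RR v (v 6) 1 m := by
  simp [haltF, holds_cm, holds_rF', bd, bd_pw, Term.eval, eval_pw, RR_update, Formula.Holds,
    Function.update_of_ne]

theorem holds_psi {G : Type} [Group G] (v : ℕ → G) (n : ℕ) :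
    (psi n).Holds v ↔ ∀ g0 g1 g2 g3 g4 g5 : G, Ax g0 (Rel g1 g2 g3 g4 g5) →
      ∃ m : G, m * g0 = g0 * m ∧ Rel g1 g2 g3 g4 g5 (g0 ^ n) 1 m := by
  simp only [psi, mk, Formula.Holds, holds_axF, holds_haltF, Term.eval, eval_pw, RR_update _ 6
    (le_refl 6), Function.update_self]
  apply forall_congr'; intro g0
  apply forall_congr'; intro g1
  apply forall_congr'; intro g2
  apply forall_congr'; intro g3
  apply forall_congr'; intro g4
  apply forall_congr'; intro g5
  simp [RR, Function.update_of_ne]

theorem psi_of_halts {c : Code} {m : ℕ} (h : m ∈ eval c 0) {G : Type} [Group G] (v : ℕ → G) :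
    (psi (encodeCode c)).Holds v := by
  rw [holds_psi]
  intro g0 g1 g2 g3 g4 g5 hax
  have := complete hax c 0 m h
  rw [pow_zero] at this
  exact ⟨g0 ^ m, cp g0 m, this⟩

theorem halts_of_psi {c : Code} (v : ℕ → GJ JE) (h : (psi (encodeCode c)).Holds v) :
    (eval c 0).Dom := by
  rw [holds_psi] at h
  have hax : Ax (s (FreeGroup.of 0)) RG := by
    have := ax_RG
    have e : q 1 = s (FreeGroup.of 0) := by unfold q; rw [zpow_one]
    rwa [e] at this
  obtain ⟨m, hm, hr⟩ := h _ _ _ _ _ _ hax
  have e : s (FreeGroup.of 0) = q 1 := by unfold q; rw [zpow_one]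
  rw [e] at hm hr
  obtain ⟨i, rfl⟩ := q_surj m hm
  have hr : RG (q 1 ^ encodeCode c) 1 (q i) := hr
  rw [q_pow, ← q_zero, RG_iff, mul_one, E_iff c rfl] at hr
  obtain ⟨n, k, h1, h2, h3⟩ := hr
  have : n = 0 := by exact_mod_cast h1.symm
  subst this
  exact Part.dom_iff_mem.2 ⟨k, h3⟩

/-! ### the sentences have no free variables -/

theorem vars_pw (t : Term) : ∀ n, (pw t n).vars ⊆ t.vars
  | 0 => by simp [pw, Term.vars]
  | n + 1 => by
      simp only [pw, Term.vars]
      exact Finset.union_subset (vars_pw t n) (Finset.Subset.refl _)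

theorem free_axF : axF.free ⊆ Finset.range 6 := by decide +kernel

theorem free_haltF : haltF.free ⊆ Finset.range 7 := by decide +kernel

theorem free_psi (n : ℕ) : (psi n).free = ∅ := by
  have h1 := free_axF
  have h2 := free_haltF
  have h3 : (pw P n).vars ⊆ {0} := vars_pw P n
  rw [← Finset.subset_empty]
  intro k hk
  simp only [psi, mk, Formula.free, Finset.mem_erase, Finset.mem_union, Term.vars,
    Finset.mem_singleton] at hk
  obtain ⟨k0, k1, k2, k3, k4, k5, hk⟩ := hk
  rcases hk with hk | ⟨k6, (rfl | hk) | hk⟩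
  · have := Finset.mem_range.1 (h1 hk); omega
  · exact absurd rfl k6
  · have := Finset.mem_singleton.1 (h3 hk); omega
  · have := Finset.mem_range.1 (h2 hk); omega

/-! ### computability -/

theorem primrec_pw : Primrec (fun n : ℕ => (pw P n).code) := by
  have h : Primrec (Nat.rec (Nat.pair 1 0)
      (fun (_ : ℕ) (ih : ℕ) => Nat.pair 2 (Nat.pair ih (Nat.pair 0 0))) : ℕ → ℕ) := by
    apply Primrec.nat_rec₁
    exact (Primrec₂.natPair.comp (Primrec.const 2)
      (Primrec₂.natPair.comp Primrec.snd (Primrec.const (Nat.pair 0 0)))).to₂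
  apply h.of_eq
  intro n
  induction n with
  | zero => rfl
  | succ n ih =>
    show Nat.pair 2 (Nat.pair _ (Nat.pair 0 0)) = Nat.pair 2 (Nat.pair _ (Nat.pair 0 0))
    rw [ih]

theorem primrec_mk (A H : Formula) : Primrec (fun n : ℕ => (mk A H n).code) := by
  have hp : ∀ (a : ℕ) {f : ℕ → ℕ}, Primrec f → Primrec (fun n => Nat.pair a (f n)) :=
    fun a f hf => Primrec₂.natPair.comp (Primrec.const a) hf
  have hq : ∀ (a : ℕ) {f : ℕ → ℕ}, Primrec f → Primrec (fun n => Nat.pair (f n) a) :=
    fun a f hf => Primrec₂.natPair.comp hf (Primrec.const a)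
  have h1 : Primrec (fun n : ℕ => (Formula.eq (x 6) (pw P n)).code) :=
    hp 0 (hp (x 6).code primrec_pw)
  have h2 : Primrec (fun n : ℕ => (Formula.all 6 (.imp (.eq (x 6) (pw P n)) H)).code) :=
    hp 4 (hp 6 (hp 3 (hq H.code h1)))
  have h3 : Primrec (fun n : ℕ =>
      (Formula.imp A (.all 6 (.imp (.eq (x 6) (pw P n)) H))).code) :=
    hp 3 (hp A.code h2)
  exact hp 4 (hp 0 (hp 4 (hp 1 (hp 4 (hp 2 (hp 4 (hp 3 (hp 4 (hp 4 (hp 4 (hp 5 h3)))))))))))

theorem psi_mem_iff (c : Code) : psi (encodeCode c) ∈ theoryTreeFree ↔ (eval c 0).Dom := by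
  constructor
  · rintro ⟨_, h⟩
    exact halts_of_psi (fun _ => 1) (h (GJ JE) (treeFree_GJ JE) (fun _ => 1))
  · intro h
    obtain ⟨m, hm⟩ := Part.dom_iff_mem.1 h
    exact ⟨free_psi _, fun G _ _ v => psi_of_halts hm v⟩

theorem undecidable : ¬ IsDecidable theoryTreeFree := by
  intro h
  apply ComputablePred.halting_problem 0
  have h1 : Computable (fun c : Code => (psi (encodeCode c)).code) := by
    have h2 : Computable (fun c : Code => Encodable.encode c) := Computable.encode
    have h3 : Computable (fun n : ℕ => (psi n).code) := (primrec_mk axF haltF).to_comp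
    have h4 := h3.comp h2
    rwa [encodeCode_eq] at h4
  have h5 : ComputablePred (fun c : Code => ∃ φ ∈ theoryTreeFree,
      φ.code = (psi (encodeCode c)).code) := by
    obtain ⟨f, hf, hf'⟩ := ComputablePred.computable_iff.1 h
    rw [ComputablePred.computable_iff]
    refine ⟨fun c => f ((psi (encodeCode c)).code), hf.comp h1, ?_⟩
    funext c
    exact congrFun hf' _
  apply h5.of_eq
  intro c
  rw [← psi_mem_iff]
  constructor
  · rintro ⟨φ, hφ, e⟩
    rwa [← code_injective _ _ e]
  · intro h
    exact ⟨_, h, rfl⟩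

end Pool.Agent.Helper180.Final
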